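import Pool.Agent.Q102.AS.Comm
import Pool.Agent.H852R2.DM.CORE

/-!
From an element moving at most `(1/3 - η) n` points to a 3-cycle by `O(log log n)` commutators.
-/

set_option autoImplicit false

namespace Q102.AS
open RC14 RC852 DM852 Finset Filter Equiv

section
variable {n k : ℕ} {y : Fin k → Alt n} {K : Type} {g : K → Alt n} {h : ℕ}

/-- the commutator in `A_n` -/
def cmA (g : K → Alt n) (s : Alt n) (v : K) : Alt n :=
  s⁻¹ * (g v * s * (g v)⁻¹)⁻¹ * s * (g v * s * (g v)⁻¹)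

lemma cmA_coe (s : Alt n) (v : K) :
    ((cmA g s v : Alt n) : Perm (Fin n)) = cm (fun v => (g v : Perm (Fin n))) s v := by
  unfold cmA cm
  push_cast
  rfl

lemma Len_cmA (hg : ∀ v, Len y h (g v)) {l : ℕ} {s : Alt n} (hs : Len y l s) (v : K) :
    Len y (4 * l + 4 * h) (cmA g s v) := by
  have h1 : Len y (h + l + h) (g v * s * (g v)⁻¹) := ((hg v).mul hs).mul (hg v).inv
  exact (((hs.inv.mul h1.inv).mul hs).mul h1).mono (by omega)

lemma cmA_ne {s : Alt n} {v : K} (hv : cm (fun v => (g v : Perm (Fin n))) s v ≠ 1) :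
    cmA g s v ≠ 1 := by
  intro h1
  apply hv
  rw [← cmA_coe, h1]
  rfl

lemma coe_ne {s : Alt n} (hs : s ≠ 1) : (s : Perm (Fin n)) ≠ 1 := by
  intro h1
  apply hs
  exact Subtype.ext h1

end

/-- number of moved points -/
def sp {n : ℕ} (s : Alt n) : ℕ := (s : Perm (Fin n)).support.card

/-- phase 1 -/
theorem phase1 (η : ℝ) (hη : 0 < η) (hη1 : η ≤ 1 / 10) (n k : ℕ) (hn : 100 ≤ n)
    (hn1 : 80 / η ^ 2 ≤ n) (hn2 : 80000 / η ^ 2 ≤ n) (y : Fin k → Alt n) (K : Type) [Fintype K]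
    [Nonempty K] (g : K → Alt n) (h L : ℕ) (hg : Mix2 (fun v => (g v : Perm (Fin n))))
    (hl : ∀ v, Len y h (g v)) (σ : Alt n) (hσ : σ ≠ 1) (hσ2 : (sp σ : ℝ) ≤ (1 / 3 - η) * n)
    (hL : Len y L σ) (i : ℕ) :
    ∃ s : Alt n, s ≠ 1 ∧ (∃ l : ℕ, l + 2 * h ≤ 4 ^ i * (L + 2 * h) ∧ Len y l s) ∧
      ((sp s : ℝ) ≤ n / 100 ∨ (sp s : ℝ) ≤ (1 - 2 * η) ^ i * ((1 / 3 - η) * n)) := by
  have hn0 : (0 : ℝ) < n := by exact_mod_cast (by omega : 0 < n)
  induction i with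
  | zero => exact ⟨σ, hσ, ⟨L, by simp, hL⟩, Or.inr (by simpa using hσ2)⟩
  | succ i ih =>
    obtain ⟨s, hs, ⟨l, hl1, hl2⟩, hs2⟩ := ih
    have hstep : 4 ^ i * (L + 2 * h) ≤ 4 ^ (i + 1) * (L + 2 * h) :=
      Nat.mul_le_mul_right _ (Nat.pow_le_pow_right (by norm_num) (Nat.le_succ i))
    by_cases hc : (sp s : ℝ) ≤ n / 100
    · exact ⟨s, hs, ⟨l, hl1.trans hstep, hl2⟩, Or.inl hc⟩
    · have hs3 := hs2.resolve_left hc
      push Not at hc
      have hη2 : 0 < 1 - 2 * η := by linarith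
      have hpow : (1 - 2 * η) ^ i ≤ 1 := pow_le_one₀ hη2.le (by linarith)
      have hbase : 0 ≤ (1 / 3 - η) * (n : ℝ) := mul_nonneg (by linarith) hn0.le
      have hs4 : (sp s : ℝ) ≤ (1 / 3 - η) * n := by
        refine hs3.trans ?_
        calc (1 - 2 * η) ^ i * ((1 / 3 - η) * (n : ℝ)) ≤ 1 * ((1 / 3 - η) * n) :=
              mul_le_mul_of_nonneg_right hpow hbase
          _ = _ := one_mul _
      have h3 : 3 * (s : Perm (Fin n)).support.card ≤ n := by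
        have : (3 : ℝ) * sp s ≤ n := by nlinarith
        unfold sp at this
        exact_mod_cast this
      have hp0 : (0 : ℝ) ≤ sp s := Nat.cast_nonneg _
      have hμ : 8 / η ^ 2 ≤ (sp s : ℝ) * sp s / n := by
        have h4 : (n : ℝ) / 10000 ≤ (sp s : ℝ) * sp s / n := by
          rw [le_div_iff₀ hn0]
          nlinarith
        refine le_trans ?_ h4
        rw [le_div_iff₀ (by norm_num)]
        refine le_trans (le_of_eq ?_) hn2
        ring
      obtain ⟨v, hv1, hv2⟩ := exists_contract η hη hη1 hn (fun v => (g v : Perm (Fin n))) hg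
        (s : Perm (Fin n)) h3 hμ hn1
      refine ⟨cmA g s v, cmA_ne hv1, ⟨4 * l + 4 * h, ?_, Len_cmA hl hl2 v⟩, Or.inr ?_⟩
      · rw [pow_succ]
        nlinarith
      · have h5 : (sp (cmA g s v) : ℝ) ≤ 3 * (1 + η) * ((sp s : ℝ) * sp s / n) := by
          unfold sp
          rw [cmA_coe]
          exact hv2
        refine h5.trans ?_
        have h6 : (sp s : ℝ) * sp s / n ≤ (1 / 3 - η) * sp s := by
          rw [div_le_iff₀ hn0]
          nlinarith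
        calc 3 * (1 + η) * ((sp s : ℝ) * sp s / n) ≤ 3 * (1 + η) * ((1 / 3 - η) * sp s) :=
              mul_le_mul_of_nonneg_left h6 (by positivity)
          _ ≤ (1 - 2 * η) * sp s := by
              have : 3 * (1 + η) * (1 / 3 - η) ≤ 1 - 2 * η := by nlinarith
              calc 3 * (1 + η) * ((1 / 3 - η) * (sp s : ℝ)) = (3 * (1 + η) * (1 / 3 - η)) * sp s := by
                    ring
                _ ≤ _ := mul_le_mul_of_nonneg_right this hp0
          _ ≤ (1 - 2 * η) * ((1 - 2 * η) ^ i * ((1 / 3 - η) * n)) :=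
              mul_le_mul_of_nonneg_left hs3 hη2.le
          _ = (1 - 2 * η) ^ (i + 1) * ((1 / 3 - η) * n) := by ring

/-- phase 2 -/
theorem phase2 (n k : ℕ) (hn : 1000 ≤ n) (y : Fin k → Alt n) (K : Type) [Fintype K]
    [Nonempty K] (g : K → Alt n) (h L : ℕ) (hg : Mix2 (fun v => (g v : Perm (Fin n))))
    (hl : ∀ v, Len y h (g v)) (σ : Alt n) (hσ : σ ≠ 1) (hσ2 : (sp σ : ℝ) ≤ n / 100)
    (M l0 : ℕ) (hL : Len y l0 σ) (hM : l0 + 2 * h ≤ M) (i : ℕ) :
    ∃ s : Alt n, s ≠ 1 ∧ (∃ l : ℕ, l + 2 * h ≤ 4 ^ i * M ∧ Len y l s) ∧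
      (sp s : ℝ) ≤ 10 + n / 10 / 10 ^ (2 ^ i) := by
  have hnR : (1000 : ℝ) ≤ n := by exact_mod_cast hn
  have hn0 : (0 : ℝ) < n := by linarith
  induction i with
  | zero =>
    refine ⟨σ, hσ, ⟨l0, by simpa using hM, hL⟩, hσ2.trans ?_⟩
    norm_num
    linarith
  | succ i ih =>
    obtain ⟨s, hs, ⟨l, hl1, hl2⟩, hs2⟩ := ih
    obtain ⟨f, hf⟩ : ∃ f : ℝ, f = (n : ℝ) / 10 / 10 ^ (2 ^ i) := ⟨_, rfl⟩
    rw [← hf] at hs2
    have hf0 : 0 < f := by rw [hf]; positivity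
    have hf1 : f ≤ n / 100 := by
      rw [hf, div_le_div_iff₀ (by positivity) (by norm_num)]
      have h10 : (10 : ℝ) ^ 1 ≤ 10 ^ (2 ^ i) :=
        pow_le_pow_right₀ (by norm_num) Nat.one_le_two_pow
      nlinarith
    have hf2 : (n : ℝ) / 10 / 10 ^ (2 ^ (i + 1)) = 10 * (f * f / n) := by
      rw [hf, pow_succ 2 i, pow_mul]
      field_simp
    have hp0 : (0 : ℝ) ≤ sp s := Nat.cast_nonneg _
    have h3 : 3 * (s : Perm (Fin n)).support.card ≤ n := by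
      have : (3 : ℝ) * sp s ≤ n := by linarith
      unfold sp at this
      exact_mod_cast this
    obtain ⟨v, hv1, hv2⟩ := exists_step (by omega : 100 ≤ n) (fun v => (g v : Perm (Fin n))) hg
      (s : Perm (Fin n)) (coe_ne hs) h3
    refine ⟨cmA g s v, cmA_ne hv1, ⟨4 * l + 4 * h, ?_, Len_cmA hl hl2 v⟩, ?_⟩
    · rw [pow_succ]
      nlinarith
    · have h5 : (sp (cmA g s v) : ℝ) ≤ 5 * (1 + (sp s : ℝ) * sp s / n) := by
        unfold sp
        rw [cmA_coe]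
        exact hv2
      refine h5.trans ?_
      rw [hf2]
      have h6 : (sp s : ℝ) * sp s ≤ 100 + 20 * f + f * f := by nlinarith
      have h7 : (sp s : ℝ) * sp s / n ≤ (100 + 20 * f + f * f) / n :=
        div_le_div_of_nonneg_right h6 hn0.le
      have h8 : (100 + 20 * f + f * f) / n = 100 / n + 20 * (f / n) + f * f / n := by ring
      have h9 : (100 : ℝ) / n ≤ 1 / 10 := by
        rw [div_le_div_iff₀ hn0 (by norm_num)]; linarith
      have h10 : f / n ≤ 1 / 100 := by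
        rw [div_le_div_iff₀ hn0 (by norm_num)]; linarith
      have h11 : 0 ≤ f * f / n := by positivity
      rw [h8] at h7
      linarith

/-- phases 1, 2 and 3 -/
theorem chain (η : ℝ) (hη : 0 < η) (hη1 : η ≤ 1 / 10) : ∃ C : ℝ, 0 < C ∧ ∀ᶠ n : ℕ in atTop,
    ∀ (k : ℕ) (y : Fin k → Alt n) (K : Type) [Fintype K] [Nonempty K] (g : K → Alt n) (h L : ℕ),
    Mix2 (fun v => (g v : Perm (Fin n))) → (∀ v, Len y h (g v)) →
    ∀ σ : Alt n, σ ≠ 1 → (sp σ : ℝ) ≤ (1 / 3 - η) * n → Len y L σ →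
    ∃ (t : Tup 3 n) (L' : ℕ), Len y L' (c3 t) ∧ (L' : ℝ) ≤ C * Real.log n ^ 2 * (L + h) := by
  obtain ⟨R, hR⟩ : ∃ R : ℕ, (1 - 2 * η) ^ R < 3 / 100 :=
    exists_pow_lt_of_lt_one (by norm_num) (by linarith)
  refine ⟨4 ^ R * 128, by positivity, ?_⟩
  filter_upwards [eventually_ge_atTop 1000, eventually_ge_atTop ⌈80 / η ^ 2⌉₊,
    eventually_ge_atTop ⌈80000 / η ^ 2⌉₊] with n hn hn1 hn2
  intro k y K _ _ g h L hg hl σ hσ hσ2 hL
  have hn1' : 80 / η ^ 2 ≤ n := (Nat.le_ceil _).trans (by exact_mod_cast hn1)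
  have hn2' : 80000 / η ^ 2 ≤ n := (Nat.le_ceil _).trans (by exact_mod_cast hn2)
  have hnR : (1000 : ℝ) ≤ n := by exact_mod_cast hn
  have hn0 : (0 : ℝ) < n := by linarith
  obtain ⟨s, hs, ⟨l, hl1, hl2⟩, hs2⟩ := phase1 η hη hη1 n k (by omega) hn1' hn2' y K g h L hg hl
    σ hσ hσ2 hL R
  have hs3 : (sp s : ℝ) ≤ n / 100 := by
    rcases hs2 with h1 | h1
    · exact h1
    · refine h1.trans ?_
      have h2 : (1 / 3 - η) * (n : ℝ) ≤ 1 / 3 * n := by nlinarith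
      have h3 : 0 ≤ (1 / 3 - η) * (n : ℝ) := mul_nonneg (by linarith) hn0.le
      calc (1 - 2 * η) ^ R * ((1 / 3 - η) * (n : ℝ)) ≤ 3 / 100 * ((1 / 3 - η) * n) :=
            mul_le_mul_of_nonneg_right hR.le h3
        _ ≤ 3 / 100 * (1 / 3 * n) := mul_le_mul_of_nonneg_left h2 (by norm_num)
        _ = n / 100 := by ring
  -- the number of rounds of phase 2
  have hlog : 3 ≤ Real.log n := by
    rw [Real.le_log_iff_exp_le hn0]
    have h1 : Real.exp 3 = Real.exp 1 ^ 3 := by rw [← Real.exp_nat_mul]; norm_num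
    rw [h1]
    have h2 : Real.exp 1 ≤ 3 := by linarith [Real.exp_one_lt_d9]
    calc Real.exp 1 ^ 3 ≤ 3 ^ 3 := pow_le_pow_left₀ (Real.exp_pos 1).le h2 3
      _ ≤ n := by linarith
  obtain ⟨c, hc⟩ : ∃ c : ℕ, c = ⌈Real.log n⌉₊ := ⟨_, rfl⟩
  have hc1 : Real.log n ≤ c := by rw [hc]; exact Nat.le_ceil _
  have hc2 : (c : ℝ) ≤ 2 * Real.log n := by
    have := (Nat.ceil_lt_add_one (by linarith : (0 : ℝ) ≤ Real.log n)).le
    rw [← hc] at this
    linarith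
  have hc3 : 1 < c := by
    have : (3 : ℝ) ≤ c := hlog.trans hc1
    have : 3 ≤ c := by exact_mod_cast this
    omega
  obtain ⟨R2, hR2⟩ : ∃ R2 : ℕ, R2 = Nat.clog 2 c := ⟨_, rfl⟩
  have hR2a : c ≤ 2 ^ R2 := by rw [hR2]; exact Nat.le_pow_clog (by norm_num) c
  have hR2b : 2 ^ R2 ≤ 2 * c := by
    have h1 := Nat.pow_pred_clog_lt_self (b := 2) (by norm_num) hc3
    rw [← hR2] at h1
    have h2 : 1 ≤ R2 := by
      by_contra h3
      have h4 : R2 = 0 := by omega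
      rw [h4, pow_zero] at hR2a
      omega
    obtain ⟨q, rfl⟩ : ∃ q, R2 = q + 1 := ⟨R2 - 1, by omega⟩
    rw [Nat.pred_succ] at h1
    rw [pow_succ]
    omega
  obtain ⟨u, hu, ⟨l', hl1', hl2'⟩, hu2⟩ := phase2 n k hn y K g h L hg hl s hs hs3
    (4 ^ R * (L + 2 * h)) l hl2 hl1 R2
  have hu3 : (sp u : ℝ) ≤ 11 := by
    refine hu2.trans ?_
    have h1 : (n : ℝ) ≤ 10 ^ (2 ^ R2) := by
      have h2 : (n : ℝ) = Real.exp (Real.log n) := (Real.exp_log hn0).symm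
      have h3 : Real.exp (Real.log n) ≤ Real.exp (((2 ^ R2 : ℕ) : ℝ)) := by
        apply Real.exp_le_exp.mpr
        refine hc1.trans ?_
        exact_mod_cast hR2a
      have h4 : Real.exp (((2 ^ R2 : ℕ) : ℝ)) = Real.exp 1 ^ (2 ^ R2) := by
        rw [← Real.exp_nat_mul, mul_one]
      rw [h2]
      refine h3.trans ?_
      rw [h4]
      exact pow_le_pow_left₀ (Real.exp_pos 1).le (by linarith [Real.exp_one_lt_d9]) _
    have h5 : (n : ℝ) / 10 / 10 ^ (2 ^ R2) ≤ 1 := by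
      rw [div_le_one (by positivity)]
      linarith
    linarith
  have hu4 : (u : Perm (Fin n)).support.card ≤ 11 := by
    unfold sp at hu3
    exact_mod_cast hu3
  obtain ⟨v, hv⟩ := exists_one (by omega : 100 ≤ n) (fun v => (g v : Perm (Fin n))) hg
    (u : Perm (Fin n)) (coe_ne hu) (by nlinarith)
  obtain ⟨t, ht⟩ := comm_three (u : Perm (Fin n)) ((g v : Perm (Fin n)) * u * (g v : Perm (Fin n))⁻¹)
    hv
  have ht2 : cmA g u v = c3 t := by
    apply Subtype.ext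
    rw [cmA_coe]
    exact ht
  refine ⟨t, 4 * l' + 4 * h, ?_, ?_⟩
  · rw [← ht2]
    exact Len_cmA hl hl2' v
  · have h1 : ((4 * l' + 4 * h : ℕ) : ℝ) ≤ 4 * (4 ^ R2 * (4 ^ R * (L + 2 * h))) := by
      have : 4 * l' + 4 * h ≤ 4 * (4 ^ R2 * (4 ^ R * (L + 2 * h))) := by omega
      exact_mod_cast this
    refine h1.trans ?_
    have h2 : (4 : ℝ) ^ R2 ≤ 16 * Real.log n ^ 2 := by
      have h3 : (4 : ℝ) ^ R2 = ((2 ^ R2 : ℕ) : ℝ) ^ 2 := by
        push_cast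
        rw [← pow_mul, mul_comm R2 2, pow_mul]
        norm_num
      have h4 : ((2 ^ R2 : ℕ) : ℝ) ≤ 4 * Real.log n := by
        have : ((2 ^ R2 : ℕ) : ℝ) ≤ 2 * c := by exact_mod_cast hR2b
        linarith
      rw [h3]
      calc ((2 ^ R2 : ℕ) : ℝ) ^ 2 ≤ (4 * Real.log n) ^ 2 := pow_le_pow_left₀ (by positivity) h4 2
        _ = _ := by ring
    have h5 : (L : ℝ) + 2 * h ≤ 2 * (L + h) := by
      have : (0 : ℝ) ≤ L := Nat.cast_nonneg _
      linarith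
    have h6 : (0 : ℝ) ≤ (L : ℝ) + 2 * h := by positivity
    calc 4 * ((4 : ℝ) ^ R2 * (4 ^ R * (L + 2 * h)))
        ≤ 4 * ((16 * Real.log n ^ 2) * (4 ^ R * (2 * (L + h)))) := by gcongr
      _ = 4 ^ R * 128 * Real.log n ^ 2 * (L + h) := by ring

end Q102.AS
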