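import Pool.Agent.Q102.AS.Three
import Pool.Agent.Q102.AS.Chain
import Pool.Agent.H20R2.RC.FRLOW
import Pool.Agent.H852R2.TE.Defs
import Pool.Agent.H852R2.DM.S.PAIRMIX

/-!
The deterministic part: a gap for the functions of low level and a word with small support give a
gap for all functions.
-/

set_option autoImplicit false

namespace Q102.AS
open RC14 RC852 DM852 Finset Filter Equiv

/-- every even permutation is a product of few 3-cycles -/
theorem prod_three {n : ℕ} (N : ℕ) : ∀ g : Alt n, sp g ≤ N →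
    ∃ l : List (Tup 3 n), l.length ≤ N ∧ (l.map c3).prod = g := by
  classical
  induction N with
  | zero =>
    intro g hg
    refine ⟨[], le_rfl, ?_⟩
    unfold sp at hg
    have h1 : (g : Perm (Fin n)).support = ∅ := Finset.card_eq_zero.mp (by omega)
    rw [Perm.support_eq_empty_iff] at h1
    exact (Subtype.ext h1).symm
  | succ N ih =>
    intro g hg
    by_cases hg1 : g = 1
    · exact ⟨[], by simp, by simp [hg1]⟩
    have hne : (g : Perm (Fin n)) ≠ 1 := coe_ne hg1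
    have h2 : 2 ≤ (g : Perm (Fin n)).support.card := Perm.two_le_card_support_of_ne_one hne
    have h3 : (g : Perm (Fin n)).support.card ≠ 2 := by
      intro h4
      rw [Perm.card_support_eq_two] at h4
      obtain ⟨a, b, hab, h5⟩ := h4
      have h6 := Perm.mem_alternatingGroup.mp g.2
      rw [h5, Perm.sign_swap hab] at h6
      exact absurd h6 (by decide)
    obtain ⟨a, ha⟩ : ((g : Perm (Fin n)).support).Nonempty := by
      rw [← Finset.card_pos]; omega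
    obtain ⟨b, hb⟩ : ∃ b, b = (g : Perm (Fin n)) a := ⟨_, rfl⟩
    have hab : b ≠ a := by rw [hb]; exact Perm.mem_support.mp ha
    have hbs : b ∈ (g : Perm (Fin n)).support := by rw [hb]; exact Perm.apply_mem_support.mpr ha
    obtain ⟨z, hz⟩ : ((g : Perm (Fin n)).support \ {a, b}).Nonempty := by
      rw [← Finset.card_pos]
      have h4 := Finset.le_card_sdiff ({a, b} : Finset (Fin n)) (g : Perm (Fin n)).support
      have h5 : ({a, b} : Finset (Fin n)).card ≤ 2 := Finset.card_le_two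
      omega
    rw [Finset.mem_sdiff, Finset.mem_insert, Finset.mem_singleton, not_or] at hz
    obtain ⟨hzs, hza, hzb⟩ := hz
    have hinj : Function.Injective (![b, a, z] : Fin 3 → Fin n) :=
      HIGHA.inj3 hab (Ne.symm hza) (Ne.symm hzb)
    obtain ⟨t, ht⟩ : ∃ t : Tup 3 n, t = ⟨![b, a, z], hinj⟩ := ⟨_, rfl⟩
    have ht0 : t 0 = b := by rw [ht]; rfl
    have ht1 : t 1 = a := by rw [ht]; rfl
    have ht2 : t 2 = z := by rw [ht]; rfl
    have hcv : ∀ q, ((c3 t : Alt n) : Perm (Fin n)) q = swap b a (swap a z q) := by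
      intro q
      show (swap (t 0) (t 1) * swap (t 1) (t 2)) q = _
      rw [ht0, ht1, ht2, Perm.mul_apply]
    have hfix : ((c3 t * g : Alt n) : Perm (Fin n)) a = a := by
      rw [Subgroup.coe_mul, Perm.mul_apply, ← hb, hcv, swap_apply_of_ne_of_ne hab (Ne.symm hzb),
        swap_apply_left]
    have hsub : ((c3 t * g : Alt n) : Perm (Fin n)).support ⊆
        (g : Perm (Fin n)).support.erase a := by
      intro q hq
      rw [Finset.mem_erase]
      refine ⟨?_, ?_⟩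
      · intro h4
        rw [h4, Perm.mem_support] at hq
        exact hq hfix
      · by_contra h4
        rw [Perm.mem_support] at hq
        apply hq
        have hqa : q ≠ a := fun h5 => h4 (h5 ▸ ha)
        have hqb : q ≠ b := fun h5 => h4 (h5 ▸ hbs)
        have hqz : q ≠ z := fun h5 => h4 (h5 ▸ hzs)
        rw [Subgroup.coe_mul, Perm.mul_apply, Perm.notMem_support.mp h4, hcv,
          swap_apply_of_ne_of_ne hqa hqz, swap_apply_of_ne_of_ne hqb hqa]
    have hcard : sp (c3 t * g) ≤ N := by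
      have h4 := Finset.card_le_card hsub
      rw [Finset.card_erase_of_mem ha] at h4
      unfold sp at hg ⊢
      omega
    obtain ⟨l, hl1, hl2⟩ := ih (c3 t * g) hcard
    refine ⟨HIGHE.rev3 t :: l, by simpa using hl1, ?_⟩
    rw [List.map_cons, List.prod_cons, hl2, HIGHE.c3_rev, inv_mul_cancel_left]

lemma sp_le {n : ℕ} (g : Alt n) : sp g ≤ n := by
  unfold sp
  have := Finset.card_le_univ (g : Perm (Fin n)).support
  rwa [Fintype.card_fin] at this

/-- displacement of a word -/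
lemma disp_len {G : Type*} [Group G] {V : Type*} [NormedAddCommGroup V] [InnerProductSpace ℂ V]
    {k : ℕ} (ρ : G →* (V ≃ₗᵢ[ℂ] V)) (y : Fin k → G) (v : V) {L : ℕ} {g : G} (h : Len y L g) :
    ‖ρ g v - v‖ ^ 2 ≤ (L : ℝ) ^ 2 * En ρ y v := by
  obtain ⟨l, hl1, hl2⟩ := h
  have hEn0 : 0 ≤ En ρ y v := En_nonneg _ _ _
  have hlet : ∀ a : Fin k × Bool, ‖ρ (sl y a) v - v‖ ≤ √(En ρ y v) := by
    intro a
    have h1 : ‖ρ (y a.1) v - v‖ ≤ √(En ρ y v) := by
      apply Real.le_sqrt_of_sq_le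
      unfold En
      exact Finset.single_le_sum (f := fun i => ‖ρ (y i) v - v‖ ^ 2) (fun i _ => by positivity)
        (Finset.mem_univ a.1)
    unfold sl
    split_ifs
    · exact h1
    · rw [HIGHA.disp_inv]; exact h1
  have key : ∀ l : List (Fin k × Bool), ‖ρ (l.map (sl y)).prod v - v‖ ≤ l.length * √(En ρ y v) := by
    intro l
    induction l with
    | nil =>
      simp
    | cons a l ih =>
      rw [List.map_cons, List.prod_cons, List.length_cons]
      refine (HIGHA.disp_mul ρ _ _ v).trans ?_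
      have := hlet a
      push_cast
      linarith
  have h2 := key l
  rw [hl2] at h2
  have h3 : (l.length : ℝ) ≤ L := by exact_mod_cast hl1
  calc ‖ρ g v - v‖ ^ 2 ≤ (L * √(En ρ y v)) ^ 2 := by
        refine pow_le_pow_left₀ (norm_nonneg _) (h2.trans ?_) 2
        exact mul_le_mul_of_nonneg_right h3 (Real.sqrt_nonneg _)
    _ = (L : ℝ) ^ 2 * En ρ y v := by rw [mul_pow, Real.sq_sqrt hEn0]

/-- if all 3-cycles are short words, the functions of high level have a gap -/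
theorem high_of_three {n m k : ℕ} (hn : 1000 ≤ n) (y : Fin k → Alt n) (L : ℕ) (hL1 : 1 ≤ L)
    (hL : ∀ t : Tup 3 n, Len y L (c3 t)) (v : FA n) (hv : v ∈ HH m n) :
    (m : ℝ) / (7 * n) / (L : ℝ) ^ 2 * ‖v‖ ^ 2 ≤ En (RR n) y v := by
  have h1 := energy_HH n m hn v hv
  have hX : (0 : ℝ) < Fintype.card (Tup 3 n) := by exact_mod_cast card_Tup_pos (by omega)
  have hL0 : (0 : ℝ) < L := by exact_mod_cast hL1
  have h2 : ∑ s : Tup 3 n, ‖RR n (c3 s) v - v‖ ^ 2 ≤
      Fintype.card (Tup 3 n) * ((L : ℝ) ^ 2 * En (RR n) y v) := by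
    refine (Finset.sum_le_sum fun s _ => disp_len (RR n) y v (hL s)).trans (le_of_eq ?_)
    rw [Finset.sum_const, Finset.card_univ, nsmul_eq_mul]
  have h3 : (m : ℝ) / (7 * n) * ‖v‖ ^ 2 ≤ (L : ℝ) ^ 2 * En (RR n) y v := by
    refine le_of_mul_le_mul_right ?_ hX
    calc (m : ℝ) / (7 * n) * ‖v‖ ^ 2 * Fintype.card (Tup 3 n)
        = (m : ℝ) / (7 * n) * Fintype.card (Tup 3 n) * ‖v‖ ^ 2 := by ring
      _ ≤ _ := h1.trans h2
      _ = _ := by ring
  rw [div_mul_eq_mul_div, div_le_iff₀ (by positivity)]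
  linarith

/-- all 3-cycles are short words -/
theorem all_three (η : ℝ) (hη : 0 < η) (hη1 : η ≤ 1 / 10) (k : ℕ) (hk : 1 ≤ k) (c : ℝ)
    (hc : 0 < c) : ∃ C : ℝ, 0 < C ∧ ∀ᶠ n : ℕ in atTop, ∀ (y : Fin k → Alt n), Good1 n 3 c y →
    ∀ σ : Alt n, σ ≠ 1 → (sp σ : ℝ) ≤ (1 / 3 - η) * n → ∀ L : ℕ, 1 ≤ L → Len y L σ →
    ∃ M : ℕ, 1 ≤ M ∧ (M : ℝ) ≤ C * Real.log n ^ 3 * L ∧ ∀ t : Tup 3 n, Len y M (c3 t) := by
  obtain ⟨C1, hC1, hPM⟩ := PAIRMIX k hk c hc
  obtain ⟨C2, hC2, hch⟩ := chain η hη hη1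
  have hk0 : (0 : ℝ) < k := by exact_mod_cast hk
  refine ⟨C2 * (1 + 2 * (C1 + 1)) + 2 * (8 * k / c * 4 + 2), by positivity, ?_⟩
  filter_upwards [hPM, hch, ev_loggt 1, eventually_ge_atTop 1000] with n hPM hch hlog hn
  intro y hy σ hσ hσ2 L hL1 hL
  set l : ℝ := Real.log n with hl
  have hl0 : 0 < l := by linarith
  set m : ℕ := ⌈C1 * l⌉₊ with hm
  have hmle : (m : ℝ) ≤ (C1 + 1) * l := by
    have := (Nat.ceil_lt_add_one (by positivity : 0 ≤ C1 * l)).le
    rw [← hm] at this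
    linarith
  have hmix : Mix2 (gx (xl y) m) :=
    (hPM y (fun j hj1 hj2 => hy j hj1 (hj2.trans (by norm_num))) m (Nat.le_ceil _)).1
  have : Nonempty (Fin (2 * m) → Fin (k + k) × Bool) :=
    ⟨fun _ => (⟨0, by omega⟩, true)⟩
  obtain ⟨t, L', hL', hL'2⟩ := hch k y (Fin (2 * m) → Fin (k + k) × Bool)
    (fun v => wrd (xl y) v) (2 * m) L hmix
    (fun v => Len_xl y _ (fun i => Len.letter _) (2 * m) v) σ hσ hσ2 hL
  obtain ⟨Lc, hLcdef⟩ : ∃ Lc : ℕ, Lc = ⌈8 * (k : ℝ) / c * (((3 : ℕ) : ℝ) * l + 1) + 1⌉₊ := ⟨_, rfl⟩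
  have hLc1 : 8 * (k : ℝ) / c * (((3 : ℕ) : ℝ) * l + 1) + 1 ≤ Lc := by
    rw [hLcdef]; exact Nat.le_ceil _
  have hA : 0 < 8 * (k : ℝ) / c := by positivity
  have hLc2 : (Lc : ℝ) ≤ (8 * k / c * 4 + 2) * l := by
    have h1 := (Nat.ceil_lt_add_one (by positivity :
      0 ≤ 8 * (k : ℝ) / c * (((3 : ℕ) : ℝ) * l + 1) + 1)).le
    rw [← hLcdef] at h1
    push_cast at h1
    have h2 : 8 * (k : ℝ) / c * (3 * l + 1) ≤ 8 * (k : ℝ) / c * (4 * l) :=
      mul_le_mul_of_nonneg_left (by linarith) hA.le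
    nlinarith
  have hconn : ∀ a a' : Tup 3 n, ∃ g : Alt n, Len y Lc g ∧ mv (g : Perm (Fin n)) a = a' :=
    fun a a' => CONN n 3 k (by omega) hk c hc y hy Lc hLc1 a a'
  have hLcpos : 1 ≤ Lc := by
    have : (1 : ℝ) ≤ Lc := by
      refine le_trans ?_ hLc1
      have : 0 ≤ 8 * (k : ℝ) / c * (((3 : ℕ) : ℝ) * l + 1) := by positivity
      linarith
    exact_mod_cast this
  refine ⟨L' + 2 * Lc, by omega, ?_, fun s => ?_⟩
  · have hLr : (1 : ℝ) ≤ L := by exact_mod_cast hL1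
    have h1 : (L' : ℝ) ≤ C2 * l ^ 2 * ((1 + 2 * (C1 + 1)) * l * L) := by
      refine hL'2.trans ?_
      refine mul_le_mul_of_nonneg_left ?_ (by positivity)
      push_cast
      have h2 : (L : ℝ) ≤ l * L := by nlinarith
      have h3 : 2 * (m : ℝ) ≤ 2 * ((C1 + 1) * l) := by linarith
      have h4 : 2 * ((C1 + 1) * l) ≤ 2 * ((C1 + 1) * l) * L := by
        have : 0 ≤ 2 * ((C1 + 1) * l) := by positivity
        nlinarith
      calc (L : ℝ) + 2 * m ≤ l * L + 2 * ((C1 + 1) * l) * L := by linarith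
        _ = (1 + 2 * (C1 + 1)) * l * L := by ring
    have h5 : l ≤ l ^ 3 := by
      have h6 : 1 ≤ l ^ 2 := one_le_pow₀ hlog
      calc l = l * 1 := (mul_one l).symm
        _ ≤ l * l ^ 2 := mul_le_mul_of_nonneg_left h6 hl0.le
        _ = l ^ 3 := by ring
    have h6 : 2 * (Lc : ℝ) ≤ 2 * (8 * k / c * 4 + 2) * l ^ 3 * L := by
      have h7 : 0 ≤ 2 * (8 * k / c * 4 + 2) := by positivity
      calc 2 * (Lc : ℝ) ≤ 2 * (8 * k / c * 4 + 2) * l := by linarith
        _ ≤ 2 * (8 * k / c * 4 + 2) * l ^ 3 := mul_le_mul_of_nonneg_left h5 h7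
        _ = 2 * (8 * k / c * 4 + 2) * l ^ 3 * 1 := (mul_one _).symm
        _ ≤ 2 * (8 * k / c * 4 + 2) * l ^ 3 * L := mul_le_mul_of_nonneg_left hLr (by positivity)
    push_cast
    calc (L' : ℝ) + 2 * Lc ≤ C2 * l ^ 2 * ((1 + 2 * (C1 + 1)) * l * L) +
          2 * (8 * k / c * 4 + 2) * l ^ 3 * L := add_le_add h1 h6
      _ = _ := by ring
  · obtain ⟨w, hw, hwt⟩ := hconn t s
    have h1 : c3 s = w * c3 t * w⁻¹ := by rw [← hwt, HIGHE.c3_conj]
    rw [h1]
    exact ((hw.mul hL').mul hw.inv).mono (by omega)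

lemma expanding_mono {G : Type*} [Group G] [Fintype G] {k : ℕ} {ε ε' : ℝ} {x : Fin k → G}
    (h : Expanding ε' x) (hε : ε ≤ ε') : Expanding ε x := by
  refine ⟨h.1, fun f hf => (h.2 f hf).trans ?_⟩
  have : 0 ≤ ∑ g, f g ^ 2 := Finset.sum_nonneg fun _ _ => by positivity
  nlinarith

/-- the deterministic theorem -/
theorem core (δ η : ℝ) (hδ : 0 < δ) (hδ1 : δ ≤ 1 / 2) (hη : 0 < η) (k : ℕ) (hk : 1 ≤ k)
    (c : ℝ) (hc : 0 < c) : ∀ᶠ n : ℕ in atTop, ∀ (y : Fin k → Alt n),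
    Good1 n (TE852.Rr (1 - δ) n) c y →
    ∀ σ : Alt n, σ ≠ 1 → (sp σ : ℝ) ≤ (1 / 3 - η) * n → ∀ L : ℕ, 1 ≤ L → Len y L σ →
    Expanding ((n : ℝ) ^ (-(2 * δ)) / (L : ℝ) ^ 2) y ∧
      ∀ g : Alt n, ∃ M : ℕ, (M : ℝ) ≤ n * Real.log n ^ 4 * L ∧ Len y M g := by
  obtain ⟨C, hC, hall⟩ := all_three (min η (1 / 10)) (lt_min hη (by norm_num)) (min_le_right _ _)
    k hk c hc
  have hk0 : (0 : ℝ) < k := by exact_mod_cast hk
  filter_upwards [hall, ev_const (1 - δ) 4 (by linarith), eventually_ge_atTop 1000,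
    ev_loggt (max 1 C), ev_const δ (1 / (14 * C ^ 2) / c) hδ, ev_log 0 (δ / 12) 1 (by linarith),
    ev_le (δ / 2) δ (28 * k * C ^ 2) (by linarith)] with n hall hm4 hn hlog hcc hl12 hkC
  intro y hy σ hσ hσ2 L hL1 hL
  have hnR : (1000 : ℝ) ≤ n := by exact_mod_cast hn
  have hn0 : (0 : ℝ) < n := by linarith
  set l : ℝ := Real.log n with hl
  have hl1 : 1 ≤ l := (le_max_left _ _).trans hlog
  have hlC : C ≤ l := (le_max_right _ _).trans hlog
  have hl0 : 0 < l := by linarith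
  obtain ⟨m, hm⟩ : ∃ m : ℕ, m = TE852.Rr (1 - δ) n := ⟨_, rfl⟩
  rw [← hm] at hy
  have hm1 : (n : ℝ) ^ (1 - δ) / 2 ≤ m := by
    have h1 : (n : ℝ) ^ (1 - δ) < (m : ℝ) + 1 := by
      rw [hm]; exact Nat.lt_floor_add_one _
    linarith
  have hm3 : 3 ≤ m := by
    have h1 : (n : ℝ) ^ (1 - δ) < (m : ℝ) + 1 := by
      rw [hm]; exact Nat.lt_floor_add_one _
    have h2 : (3 : ℝ) < m := by linarith
    exact_mod_cast h2.le
  have hσ3 : (sp σ : ℝ) ≤ (1 / 3 - min η (1 / 10)) * n := by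
    refine hσ2.trans ?_
    have := min_le_left η (1 / 10 : ℝ)
    nlinarith
  obtain ⟨M, hM1, hM2, hM3⟩ := hall y (fun j hj1 hj2 => hy j hj1 (hj2.trans hm3)) σ hσ hσ3 L hL1 hL
  have hLr : (1 : ℝ) ≤ L := by exact_mod_cast hL1
  have hL0 : (0 : ℝ) < L := by linarith
  have hM0 : (0 : ℝ) < M := by exact_mod_cast hM1
  constructor
  · obtain ⟨c', hc'⟩ : ∃ c' : ℝ, c' = (n : ℝ) ^ (-δ) / (14 * C ^ 2 * l ^ 6 * (L : ℝ) ^ 2) := ⟨_, rfl⟩
    have hnδ : 0 < (n : ℝ) ^ (-δ) := Real.rpow_pos_of_pos hn0 _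
    have hc'0 : 0 < c' := by rw [hc']; positivity
    have hc'1 : c' ≤ c := by
      have h1 : (n : ℝ) ^ (-δ) ≤ 14 * C ^ 2 * c := by
        rw [Real.rpow_neg hn0.le]
        rw [div_div, div_le_iff₀ (by positivity)] at hcc
        rw [inv_le_iff_one_le_mul₀ (Real.rpow_pos_of_pos hn0 _)]
        linarith
      rw [hc', div_le_iff₀ (by positivity)]
      have h2 : (1 : ℝ) ≤ l ^ 6 * (L : ℝ) ^ 2 := by
        have h3 : (1 : ℝ) ≤ l ^ 6 := one_le_pow₀ hl1
        have h4 : (1 : ℝ) ≤ (L : ℝ) ^ 2 := one_le_pow₀ hLr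
        nlinarith
      calc (n : ℝ) ^ (-δ) ≤ 14 * C ^ 2 * c * 1 := by rw [mul_one]; exact h1
        _ ≤ 14 * C ^ 2 * c * (l ^ 6 * (L : ℝ) ^ 2) := mul_le_mul_of_nonneg_left h2 (by positivity)
        _ = _ := by ring
    have hc'2 : c' ≤ (m : ℝ) / (7 * n) / (M : ℝ) ^ 2 := by
      have h1 : (M : ℝ) ^ 2 ≤ (C * l ^ 3 * L) ^ 2 := pow_le_pow_left₀ hM0.le hM2 2
      have h2 : (n : ℝ) ^ (-δ) / 14 ≤ (m : ℝ) / (7 * n) := by
        rw [div_le_div_iff₀ (by norm_num) (by positivity)]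
        have h3 : (n : ℝ) ^ (-δ) * n = (n : ℝ) ^ (1 - δ) := by
          rw [show (1 : ℝ) - δ = -δ + 1 by ring, Real.rpow_add hn0, Real.rpow_one]
        nlinarith
      have h4 : c' = (n : ℝ) ^ (-δ) / 14 / (C * l ^ 3 * L) ^ 2 := by
        rw [hc', div_div]
        congr 1
        ring
      rw [h4]
      exact div_le_div₀ (by positivity) h2 (by positivity) h1
    have hE := FRALL n m k hk y c' hc'0
      (fun j hj1 hj2 f hf => (mul_le_mul_of_nonneg_right hc'1 (by positivity)).trans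
        (hy j hj1 hj2 f hf))
      (fun f hf => (mul_le_mul_of_nonneg_right hc'2 (by positivity)).trans
        (high_of_three hn y M hM1 hM3 f hf))
    refine expanding_mono hE ?_
    rw [hc', div_div, div_le_div_iff₀ (by positivity) (by positivity)]
    have h5 : l ^ 6 ≤ (n : ℝ) ^ (δ / 2) := by
      have h6 : l ≤ (n : ℝ) ^ (δ / 12) := by simpa using hl12
      calc l ^ 6 ≤ ((n : ℝ) ^ (δ / 12)) ^ 6 := pow_le_pow_left₀ hl0.le h6 6
        _ = (n : ℝ) ^ (δ / 2) := by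
          rw [← Real.rpow_natCast, ← Real.rpow_mul hn0.le]
          congr 1
          push_cast
          ring
    have h7 : 28 * k * C ^ 2 * l ^ 6 ≤ (n : ℝ) ^ δ :=
      (mul_le_mul_of_nonneg_left h5 (by positivity)).trans hkC
    have h8 : (n : ℝ) ^ (-(2 * δ)) * (n : ℝ) ^ δ = (n : ℝ) ^ (-δ) := by
      rw [← Real.rpow_add hn0]
      congr 1
      ring
    have h9 : 0 < (n : ℝ) ^ (-(2 * δ)) := Real.rpow_pos_of_pos hn0 _
    calc (n : ℝ) ^ (-(2 * δ)) * (14 * C ^ 2 * l ^ 6 * (L : ℝ) ^ 2 * (2 * k))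
        = (n : ℝ) ^ (-(2 * δ)) * (28 * k * C ^ 2 * l ^ 6) * (L : ℝ) ^ 2 := by ring
      _ ≤ (n : ℝ) ^ (-(2 * δ)) * (n : ℝ) ^ δ * (L : ℝ) ^ 2 := by
          refine mul_le_mul_of_nonneg_right ?_ (by positivity)
          exact mul_le_mul_of_nonneg_left h7 h9.le
      _ = (n : ℝ) ^ (-δ) * (L : ℝ) ^ 2 := by rw [h8]
  · intro g
    obtain ⟨l', hl', hl'2⟩ := prod_three n g (sp_le g)
    refine ⟨n * M, ?_, ?_⟩
    · push_cast
      have h1 : (M : ℝ) ≤ l ^ 4 * L := by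
        refine hM2.trans ?_
        refine mul_le_mul_of_nonneg_right ?_ hL0.le
        calc C * l ^ 3 ≤ l * l ^ 3 := mul_le_mul_of_nonneg_right hlC (by positivity)
          _ = l ^ 4 := by ring
      calc (n : ℝ) * M ≤ n * (l ^ 4 * L) := mul_le_mul_of_nonneg_left h1 hn0.le
        _ = _ := by ring
    · have h1 := Len.list (y := y) (L := M) (l'.map c3) (by
        intro g hg
        rw [List.mem_map] at hg
        obtain ⟨t, -, rfl⟩ := hg
        exact hM3 t)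
      rw [hl'2, List.length_map] at h1
      exact h1.mono (Nat.mul_le_mul_right _ hl')

end Q102.AS
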