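import Pool.Agent.H959R2.DM.SHRINK

/-!
Commutators of a permutation and a random conjugate: from a permutation moving at most
`(1/3 - η) n` points to a 3-cycle.
-/

set_option autoImplicit false

namespace Q102.AS
open RC14 RC852 DM852 Finset Filter Equiv

section Moments
variable {n : ℕ} {K : Type} [Fintype K] [Nonempty K]

/-- the number of common points of the supports of `s` and of its conjugate -/
noncomputable def II (g : K → Perm (Fin n)) (s : Perm (Fin n)) (v : K) : ℝ :=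
  ((s.support ∩ (g v * s * (g v)⁻¹).support).card : ℝ)

/-- the number of those `q` among them for which `s⁻¹ q` is moved by the conjugate too -/
noncomputable def DD (g : K → Perm (Fin n)) (s : Perm (Fin n)) (v : K) : ℝ :=
  (((s.support ∩ (g v * s * (g v)⁻¹).support).filter
      (fun q => ¬ s⁻¹ q ∉ (g v * s * (g v)⁻¹).support)).card : ℝ)

omit [Nonempty K] [Fintype K] in
lemma DD_nonneg (g : K → Perm (Fin n)) (s : Perm (Fin n)) (v : K) : 0 ≤ DD g s v := by
  unfold DD; positivity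

/-- the commutator -/
def cm (g : K → Perm (Fin n)) (s : Perm (Fin n)) (v : K) : Perm (Fin n) :=
  s⁻¹ * (g v * s * (g v)⁻¹)⁻¹ * s * (g v * s * (g v)⁻¹)

omit [Nonempty K] [Fintype K] in
lemma cm_upper (g : K → Perm (Fin n)) (s : Perm (Fin n)) (v : K) :
    ((cm g s v).support.card : ℝ) ≤ 3 * II g s v := by
  unfold II cm
  exact_mod_cast SHRINK.comm_upper s (g v * s * (g v)⁻¹)

omit [Nonempty K] [Fintype K] in
lemma cm_lower (g : K → Perm (Fin n)) (s : Perm (Fin n)) (v : K) :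
    II g s v - DD g s v ≤ ((cm g s v).support.card : ℝ) := by
  have hsplit := Finset.card_filter_add_card_filter_not
    (s := s.support ∩ (g v * s * (g v)⁻¹).support)
    (fun q => s⁻¹ q ∉ (g v * s * (g v)⁻¹).support)
  have hsplit' : (((s.support ∩ (g v * s * (g v)⁻¹).support).filter
      (fun q => s⁻¹ q ∉ (g v * s * (g v)⁻¹).support)).card : ℝ) + DD g s v = II g s v := by
    unfold DD II
    exact_mod_cast hsplit
  have : (((s.support ∩ (g v * s * (g v)⁻¹).support).filter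
      (fun q => s⁻¹ q ∉ (g v * s * (g v)⁻¹).support)).card : ℝ) ≤
      ((cm g s v).support.card : ℝ) := by
    unfold cm
    exact_mod_cast SHRINK.comm_lower s (g v * s * (g v)⁻¹)
  linarith

/-- the moments of the number of common points -/
theorem moments (hn : 100 ≤ n) (g : K → Perm (Fin n)) (hg : Mix2 g) (s : Perm (Fin n)) (k μ ρ : ℝ)
    (hk : k = Fintype.card K) (hρ : ρ = s.support.card) (hμ : μ = ρ * ρ / n) :
    (1 - 1 / (n : ℝ)) * k * μ ≤ ∑ v, II g s v ∧ ∑ v, II g s v ≤ (1 + 1 / (n : ℝ)) * k * μ ∧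
    ∑ v, (II g s v) ^ 2 ≤ ∑ v, II g s v + (1 + 3 / (n : ℝ)) * k * μ ^ 2 ∧
    ∑ v, DD g s v ≤ (1 + 3 / (n : ℝ)) * k * μ * (ρ / n) := by
  classical
  have hn2 : 2 ≤ n := by omega
  have hnR : (100 : ℝ) ≤ n := by exact_mod_cast hn
  have hn0 : (0 : ℝ) < n := by linarith
  have hk0 : 0 < k := by rw [hk]; exact_mod_cast Fintype.card_pos
  have hρ0 : 0 ≤ ρ := by rw [hρ]; exact Nat.cast_nonneg _
  have hμ0 : 0 ≤ μ := by rw [hμ]; positivity
  have hαρ : ρ * ρ = μ * n := by rw [hμ, div_mul_cancel₀ _ hn0.ne']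
  obtain ⟨c2, hc2⟩ : ∃ c2 : ℝ, c2 = (1 + 1 / (n : ℝ)) * k / (n * (n - 1)) := ⟨_, rfl⟩
  have hn1 : (0 : ℝ) < n - 1 := by linarith
  have hc20 : 0 ≤ c2 := by rw [hc2]; positivity
  have hc2n : c2 * (n : ℝ) ^ 2 ≤ (1 + 3 / (n : ℝ)) * k := by
    rw [hc2]; exact SHRINK.c2_le hnR hk0
  obtain ⟨P, hP⟩ : ∃ P, P = s.support ×ˢ s.support := ⟨_, rfl⟩
  have hPcard : (P.card : ℝ) = μ * n := by
    rw [hP, card_product]; push_cast; rw [← hρ, hαρ]
  have hI : ∀ v, II g s v = ∑ x ∈ P, SHRINK.e g x v := by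
    intro v
    unfold II
    rw [SHRINK.I_eq g s s v, hP]
  have hD : ∀ v, DD g s v = ∑ q ∈ s.support, ∑ b ∈ s.support,
      ∑ b' ∈ s.support, SHRINK.e g (q, b) v * SHRINK.e g (s⁻¹ q, b') v := by
    intro v
    unfold DD
    rw [SHRINK.D_eq g s s v]
  have hM : ∀ x y : Fin n × Fin n, ∑ v, SHRINK.e g x v * SHRINK.e g y v ≤
      (if x = y then ∑ v, SHRINK.e g x v else 0) + c2 := by
    intro x y
    have := SHRINK.M_le hn2 hg x y
    rwa [← hk, ← hc2] at this
  -- first moment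
  have hS1 : ∑ v, II g s v = ∑ x ∈ P, ∑ v, SHRINK.e g x v := by
    rw [Finset.sum_congr rfl fun v _ => hI v, Finset.sum_comm]
  refine ⟨?_, ?_, ?_, ?_⟩
  · rw [hS1]
    have h3 := Finset.card_nsmul_le_sum P _ _ (fun x _ => (SHRINK.N1 hn2 hg x).1)
    rw [nsmul_eq_mul, hPcard, ← hk] at h3
    refine le_trans (le_of_eq ?_) h3
    rw [mul_div_assoc', mul_assoc μ, mul_div_assoc, mul_div_cancel_left₀ _ hn0.ne']
    ring
  · rw [hS1]
    have h3 := Finset.sum_le_card_nsmul P _ _ (fun x _ => (SHRINK.N1 hn2 hg x).2)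
    rw [nsmul_eq_mul, hPcard, ← hk] at h3
    refine le_trans h3 (le_of_eq ?_)
    rw [mul_div_assoc', mul_assoc μ, mul_div_assoc, mul_div_cancel_left₀ _ hn0.ne']
    ring
  · have e1 : ∑ v, (II g s v) ^ 2 = ∑ x ∈ P, ∑ y ∈ P, ∑ v, SHRINK.e g x v * SHRINK.e g y v := by
      have : ∀ v, (II g s v) ^ 2 = ∑ x ∈ P, ∑ y ∈ P, SHRINK.e g x v * SHRINK.e g y v := by
        intro v
        rw [hI, sq, Finset.sum_mul_sum]
      rw [Finset.sum_congr rfl fun v _ => this v, Finset.sum_comm]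
      refine Finset.sum_congr rfl fun x _ => ?_
      rw [Finset.sum_comm]
    rw [e1]
    calc ∑ x ∈ P, ∑ y ∈ P, ∑ v, SHRINK.e g x v * SHRINK.e g y v
        ≤ ∑ x ∈ P, ∑ y ∈ P, ((if x = y then ∑ v, SHRINK.e g x v else 0) + c2) :=
          Finset.sum_le_sum fun x _ => Finset.sum_le_sum fun y _ => hM x y
      _ = ∑ x ∈ P, (∑ v, SHRINK.e g x v + P.card * c2) := by
          refine Finset.sum_congr rfl fun x hx => ?_
          rw [Finset.sum_add_distrib, Finset.sum_ite_eq, if_pos hx, Finset.sum_const,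
            nsmul_eq_mul]
      _ = ∑ v, II g s v + μ ^ 2 * (c2 * (n : ℝ) ^ 2) := by
          rw [Finset.sum_add_distrib, Finset.sum_const, nsmul_eq_mul, hPcard, hS1]
          ring
      _ ≤ ∑ v, II g s v + (1 + 3 / (n : ℝ)) * k * μ ^ 2 := by
          have := mul_le_mul_of_nonneg_left hc2n (sq_nonneg μ)
          linarith
  · have e1 : ∑ v, DD g s v = ∑ q ∈ s.support, ∑ b ∈ s.support, ∑ b' ∈ s.support,
        ∑ v, SHRINK.e g (q, b) v * SHRINK.e g (s⁻¹ q, b') v := by
      rw [Finset.sum_congr rfl fun v _ => hD v, Finset.sum_comm]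
      refine Finset.sum_congr rfl fun q _ => ?_
      rw [Finset.sum_comm]
      refine Finset.sum_congr rfl fun b _ => ?_
      rw [Finset.sum_comm]
    rw [e1]
    calc ∑ q ∈ s.support, ∑ b ∈ s.support, ∑ b' ∈ s.support,
        ∑ v, SHRINK.e g (q, b) v * SHRINK.e g (s⁻¹ q, b') v
        ≤ ∑ _q ∈ s.support, ∑ _b ∈ s.support, ∑ _b' ∈ s.support, c2 := by
          refine Finset.sum_le_sum fun q hq => Finset.sum_le_sum fun b _ =>
            Finset.sum_le_sum fun b' _ => ?_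
          have h1 : ((q, b) : Fin n × Fin n) ≠ (s⁻¹ q, b') := by
            intro h
            have h2 : q = s⁻¹ q := congrArg Prod.fst h
            rw [Perm.mem_support] at hq
            exact hq ((Perm.eq_inv_iff_eq.mp h2))
          have h2 := hM (q, b) (s⁻¹ q, b')
          rw [if_neg h1, zero_add] at h2
          exact h2
      _ = μ * (ρ / n) * (c2 * (n : ℝ) ^ 2) := by
          simp only [Finset.sum_const, nsmul_eq_mul, ← hρ]
          have : ρ * (ρ * (ρ * c2)) = (ρ * ρ) * ρ * c2 := by ring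
          rw [this, hαρ]
          field_simp
      _ ≤ μ * (ρ / n) * ((1 + 3 / (n : ℝ)) * k) :=
          mul_le_mul_of_nonneg_left hc2n (by positivity)
      _ = _ := by ring

/-- some conjugate has exactly one common point -/
theorem exists_one (hn : 100 ≤ n) (g : K → Perm (Fin n)) (hg : Mix2 g) (s : Perm (Fin n))
    (hs : s ≠ 1) (hp : 4 * (s.support.card * s.support.card) ≤ n) :
    ∃ v, (s.support ∩ (g v * s * (g v)⁻¹).support).card = 1 := by
  classical
  obtain ⟨k, hk⟩ : ∃ k : ℝ, k = Fintype.card K := ⟨_, rfl⟩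
  obtain ⟨ρ, hρ⟩ : ∃ ρ : ℝ, ρ = s.support.card := ⟨_, rfl⟩
  obtain ⟨μ, hμ⟩ : ∃ μ : ℝ, μ = ρ * ρ / n := ⟨_, rfl⟩
  obtain ⟨h1, -, h2, -⟩ := moments hn g hg s k μ ρ hk hρ hμ
  have hnR : (100 : ℝ) ≤ n := by exact_mod_cast hn
  have hn0 : (0 : ℝ) < n := by linarith
  have hk0 : 0 < k := by rw [hk]; exact_mod_cast Fintype.card_pos
  have hρ1 : 0 < ρ := by
    rw [hρ]
    have : s.support.Nonempty := by
      rw [Finset.nonempty_iff_ne_empty, ne_eq, Perm.support_eq_empty_iff]
      exact hs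
    exact_mod_cast this.card_pos
  have hμ0 : 0 < μ := by rw [hμ]; positivity
  have hμ1 : μ ≤ 1 / 4 := by
    rw [hμ, div_le_iff₀ hn0, hρ]
    have : (4 : ℝ) * (s.support.card * s.support.card) ≤ n := by exact_mod_cast hp
    linarith
  by_contra hcon
  push Not at hcon
  have h3 : ∀ v, 2 * II g s v ≤ (II g s v) ^ 2 := by
    intro v
    have h4 := hcon v
    unfold II
    set a := (s.support ∩ (g v * s * (g v)⁻¹).support).card with ha
    rcases Nat.lt_or_ge a 2 with h5 | h5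
    · have : a = 0 := by omega
      rw [this]; norm_num
    · have h6 : (2 : ℝ) ≤ a := by exact_mod_cast h5
      nlinarith
  have h4 : 2 * ∑ v, II g s v ≤ ∑ v, (II g s v) ^ 2 := by
    rw [Finset.mul_sum]
    exact Finset.sum_le_sum fun v _ => h3 v
  have h5 : (1 - 1 / (n : ℝ)) * k * μ ≤ (1 + 3 / (n : ℝ)) * k * μ ^ 2 := by linarith
  have hinv : 1 / (n : ℝ) ≤ 1 / 100 := one_div_le_one_div_of_le (by norm_num) hnR
  have hkμ : 0 < k * μ := mul_pos hk0 hμ0
  have h6 : (1 + 3 / (n : ℝ)) * k * μ ^ 2 ≤ (1 + 3 / 100) * (k * μ) * (1 / 4) := by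
    have e : (3 : ℝ) / n = 3 * (1 / n) := by ring
    have e2 : (1 + 3 / (n : ℝ)) * k * μ ^ 2 = (1 + 3 * (1 / (n : ℝ))) * ((k * μ) * μ) := by
      rw [e]; ring
    rw [e2]
    have h7 : (k * μ) * μ ≤ (k * μ) * (1 / 4) := mul_le_mul_of_nonneg_left hμ1 hkμ.le
    have h8 : 0 ≤ (k * μ) * μ := by positivity
    calc (1 + 3 * (1 / (n : ℝ))) * ((k * μ) * μ) ≤ (1 + 3 / 100) * ((k * μ) * μ) :=
          mul_le_mul_of_nonneg_right (by linarith) h8
      _ ≤ (1 + 3 / 100) * ((k * μ) * (1 / 4)) := mul_le_mul_of_nonneg_left h7 (by norm_num)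
      _ = _ := by ring
  have h7 : (1 - 1 / 100) * (k * μ) ≤ (1 - 1 / (n : ℝ)) * k * μ := by
    rw [mul_assoc]
    exact mul_le_mul_of_nonneg_right (by linarith) hkμ.le
  nlinarith

/-- a nontrivial commutator with support at most `5 (1 + p² / n)` -/
theorem exists_step (hn : 100 ≤ n) (g : K → Perm (Fin n)) (hg : Mix2 g) (s : Perm (Fin n))
    (hs : s ≠ 1) (hp : 3 * s.support.card ≤ n) :
    ∃ v, cm g s v ≠ 1 ∧ ((cm g s v).support.card : ℝ) ≤
      5 * (1 + (s.support.card : ℝ) * s.support.card / n) := by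
  classical
  obtain ⟨k, hk⟩ : ∃ k : ℝ, k = Fintype.card K := ⟨_, rfl⟩
  obtain ⟨ρ, hρ⟩ : ∃ ρ : ℝ, ρ = s.support.card := ⟨_, rfl⟩
  obtain ⟨μ, hμ⟩ : ∃ μ : ℝ, μ = ρ * ρ / n := ⟨_, rfl⟩
  obtain ⟨h1, h1', h2, h3⟩ := moments hn g hg s k μ ρ hk hρ hμ
  rw [← hρ, ← hμ]
  have hnR : (100 : ℝ) ≤ n := by exact_mod_cast hn
  have hn0 : (0 : ℝ) < n := by linarith
  have hk0 : 0 < k := by rw [hk]; exact_mod_cast Fintype.card_pos
  have hρ1 : 0 < ρ := by
    rw [hρ]
    have : s.support.Nonempty := by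
      rw [Finset.nonempty_iff_ne_empty, ne_eq, Perm.support_eq_empty_iff]
      exact hs
    exact_mod_cast this.card_pos
  have hμ0 : 0 < μ := by rw [hμ]; positivity
  have hα : ρ / n ≤ 1 / 3 := by
    rw [div_le_iff₀ hn0, hρ]
    have : (3 : ℝ) * s.support.card ≤ n := by exact_mod_cast hp
    linarith
  have hkμ : 0 < k * μ := mul_pos hk0 hμ0
  by_contra hcon
  push Not at hcon
  have hT : 0 < 5 * (1 + μ) := by positivity
  have h4 : ∀ v, II g s v - DD g s v ≤ 3 / (5 * (1 + μ)) * (II g s v) ^ 2 := by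
    intro v
    have hsq : 0 ≤ 3 / (5 * (1 + μ)) * (II g s v) ^ 2 := by positivity
    by_cases h5 : cm g s v = 1
    · have h6 := cm_lower g s v
      rw [h5, Perm.support_one, Finset.card_empty, Nat.cast_zero] at h6
      linarith
    · have h6 := hcon v h5
      have h7 := cm_upper g s v
      have h8 : 5 * (1 + μ) < 3 * II g s v := lt_of_lt_of_le h6 h7
      have h9 : II g s v ≤ 3 / (5 * (1 + μ)) * (II g s v) ^ 2 := by
        rw [div_mul_eq_mul_div, le_div_iff₀ hT]
        have h10 : 0 ≤ II g s v := by unfold II; positivity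
        nlinarith
      have := DD_nonneg g s v
      linarith
  have h5 : ∑ v, II g s v - ∑ v, DD g s v ≤ 3 / (5 * (1 + μ)) * ∑ v, (II g s v) ^ 2 := by
    rw [← Finset.sum_sub_distrib, Finset.mul_sum]
    exact Finset.sum_le_sum fun v _ => h4 v
  have hinv : 1 / (n : ℝ) ≤ 1 / 100 := one_div_le_one_div_of_le (by norm_num) hnR
  have hinv0 : 0 < 1 / (n : ℝ) := by positivity
  have e : (3 : ℝ) / n = 3 * (1 / n) := by ring
  rw [e] at h2 h3
  have h6 : ∑ v, DD g s v ≤ (103 / 300) * (k * μ) := by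
    refine h3.trans ?_
    calc (1 + 3 * (1 / (n : ℝ))) * k * μ * (ρ / n) = (1 + 3 * (1 / (n : ℝ))) * ((k * μ) * (ρ / n)) := by
          ring
      _ ≤ (103 / 100) * ((k * μ) * (1 / 3)) := by
          refine mul_le_mul (by linarith) (mul_le_mul_of_nonneg_left hα hkμ.le) (by positivity)
            (by norm_num)
      _ = _ := by ring
  have h7 : (99 / 100) * (k * μ) ≤ ∑ v, II g s v := by
    refine le_trans ?_ h1
    rw [mul_assoc (1 - 1 / (n : ℝ))]
    exact mul_le_mul_of_nonneg_right (by linarith) hkμ.le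
  have h8 : ∑ v, (II g s v) ^ 2 ≤ (103 / 100) * (k * μ) * (1 + μ) := by
    refine h2.trans ?_
    have h9 : ∑ v, II g s v ≤ (103 / 100) * (k * μ) := by
      refine h1'.trans ?_
      rw [mul_assoc (1 + 1 / (n : ℝ))]
      exact mul_le_mul_of_nonneg_right (by linarith) hkμ.le
    have h10 : (1 + 3 * (1 / (n : ℝ))) * k * μ ^ 2 ≤ (103 / 100) * (k * μ) * μ := by
      have : (1 + 3 * (1 / (n : ℝ))) * k * μ ^ 2 = (1 + 3 * (1 / (n : ℝ))) * ((k * μ) * μ) := by ring
      rw [this, mul_assoc (103 / 100 : ℝ)]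
      exact mul_le_mul_of_nonneg_right (by linarith) (by positivity)
    linarith
  have h9 : 3 / (5 * (1 + μ)) * ∑ v, (II g s v) ^ 2 ≤ 309 / 500 * (k * μ) := by
    calc 3 / (5 * (1 + μ)) * ∑ v, (II g s v) ^ 2
        ≤ 3 / (5 * (1 + μ)) * ((103 / 100) * (k * μ) * (1 + μ)) :=
          mul_le_mul_of_nonneg_left h8 (by positivity)
      _ = 309 / 500 * (k * μ) := by field_simp; norm_num
  linarith

/-- a nontrivial commutator with support at most `3 (1 + η) p² / n` -/
theorem exists_contract (η : ℝ) (hη : 0 < η) (hη1 : η ≤ 1 / 10) (hn : 100 ≤ n)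
    (g : K → Perm (Fin n)) (hg : Mix2 g) (s : Perm (Fin n))
    (hp : 3 * s.support.card ≤ n)
    (hp1 : 8 / η ^ 2 ≤ (s.support.card : ℝ) * s.support.card / n) (hn1 : 80 / η ^ 2 ≤ n) :
    ∃ v, cm g s v ≠ 1 ∧ ((cm g s v).support.card : ℝ) ≤
      3 * (1 + η) * ((s.support.card : ℝ) * s.support.card / n) := by
  classical
  obtain ⟨k, hk⟩ : ∃ k : ℝ, k = Fintype.card K := ⟨_, rfl⟩
  obtain ⟨ρ, hρ⟩ : ∃ ρ : ℝ, ρ = s.support.card := ⟨_, rfl⟩
  obtain ⟨μ, hμ⟩ : ∃ μ : ℝ, μ = ρ * ρ / n := ⟨_, rfl⟩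
  obtain ⟨h1, h1', h2, h3⟩ := moments hn g hg s k μ ρ hk hρ hμ
  rw [← hρ, ← hμ] at hp1
  rw [← hρ, ← hμ]
  have hnR : (100 : ℝ) ≤ n := by exact_mod_cast hn
  have hn0 : (0 : ℝ) < n := by linarith
  have hk0 : 0 < k := by rw [hk]; exact_mod_cast Fintype.card_pos
  have hη2 : 0 < η ^ 2 := by positivity
  have hρ0 : 0 ≤ ρ := by rw [hρ]; exact Nat.cast_nonneg _
  have hμ0 : 0 < μ := lt_of_lt_of_le (by positivity) hp1
  have hα : ρ / n ≤ 1 / 3 := by
    rw [div_le_iff₀ hn0, hρ]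
    have : (3 : ℝ) * s.support.card ≤ n := by exact_mod_cast hp
    linarith
  have hkμ : 0 < k * μ := mul_pos hk0 hμ0
  have hinv : 1 / (n : ℝ) ≤ 1 / 100 := one_div_le_one_div_of_le (by norm_num) hnR
  have hinv0 : 0 < 1 / (n : ℝ) := by positivity
  have e : (3 : ℝ) / n = 3 * (1 / n) := by ring
  rw [e] at h2 h3
  have hnη : 1 / (n : ℝ) ≤ η ^ 2 / 80 := by
    rw [div_le_div_iff₀ hn0 (by norm_num), one_mul, mul_comm]
    rwa [div_le_iff₀ hη2] at hn1
  have hμη : 1 / μ ≤ η ^ 2 / 8 := by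
    rw [div_le_div_iff₀ hμ0 (by norm_num), one_mul, mul_comm]
    rwa [div_le_iff₀ hη2] at hp1
  have h6 : ∑ v, DD g s v ≤ (103 / 300) * (k * μ) := by
    refine h3.trans ?_
    calc (1 + 3 * (1 / (n : ℝ))) * k * μ * (ρ / n) = (1 + 3 * (1 / (n : ℝ))) * ((k * μ) * (ρ / n)) := by
          ring
      _ ≤ (103 / 100) * ((k * μ) * (1 / 3)) := by
          refine mul_le_mul (by linarith) (mul_le_mul_of_nonneg_left hα hkμ.le) (by positivity)
            (by norm_num)
      _ = _ := by ring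
  have hvar : ∑ v, (II g s v - μ) ^ 2 ≤ η ^ 2 / 4 * (k * μ ^ 2) := by
    have e1 : ∑ v, (II g s v - μ) ^ 2 = ∑ v, (II g s v) ^ 2 - 2 * μ * ∑ v, II g s v + k * μ ^ 2 := by
      have : ∀ v, (II g s v - μ) ^ 2 = (II g s v) ^ 2 - 2 * μ * II g s v + μ ^ 2 := fun v => by ring
      rw [Finset.sum_congr rfl fun v _ => this v, Finset.sum_add_distrib,
        Finset.sum_sub_distrib, ← Finset.mul_sum, Finset.sum_const, nsmul_eq_mul, card_univ, hk]
    rw [e1]
    have h7 : 2 * μ * ((1 - 1 / (n : ℝ)) * k * μ) ≤ 2 * μ * ∑ v, II g s v :=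
      mul_le_mul_of_nonneg_left h1 (by positivity)
    have h8 : k * μ = (1 / μ) * (k * μ ^ 2) := by field_simp
    have h9 : 0 < k * μ ^ 2 := by positivity
    have h10 : (1 + 1 / (n : ℝ)) * k * μ ≤ (101 / 100) * (η ^ 2 / 8) * (k * μ ^ 2) := by
      rw [mul_assoc, h8, mul_assoc (101 / 100 : ℝ)]
      refine mul_le_mul (by linarith) (mul_le_mul_of_nonneg_right hμη h9.le) (by positivity)
        (by norm_num)
    have h11 : 1 / (n : ℝ) * (k * μ ^ 2) ≤ η ^ 2 / 80 * (k * μ ^ 2) :=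
      mul_le_mul_of_nonneg_right hnη h9.le
    have h12 : ∑ v, (II g s v) ^ 2 - 2 * μ * ∑ v, II g s v + k * μ ^ 2 ≤
        (1 + 1 / (n : ℝ)) * k * μ + 5 * (1 / (n : ℝ) * (k * μ ^ 2)) := by
      have e2 : (1 + 3 * (1 / (n : ℝ))) * k * μ ^ 2 = k * μ ^ 2 + 3 * (1 / (n : ℝ) * (k * μ ^ 2)) := by
        ring
      have e3 : 2 * μ * ((1 - 1 / (n : ℝ)) * k * μ) =
          2 * (k * μ ^ 2) - 2 * (1 / (n : ℝ) * (k * μ ^ 2)) := by ring
      rw [e2] at h2
      rw [e3] at h7
      linarith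
    nlinarith
  -- choose `v`
  have hη3 : 0 < 1 - η := by linarith
  have hsum : ∑ v, (1 / (η ^ 2 * μ ^ 2) * (II g s v - μ) ^ 2 + 1 / ((1 - η) * μ) * DD g s v) <
      ∑ _v : K, (1 : ℝ) := by
    have hRHS : ∑ _v : K, (1 : ℝ) = k := by
      rw [Finset.sum_const, nsmul_eq_mul, mul_one, card_univ, hk]
    rw [hRHS, Finset.sum_add_distrib, ← Finset.mul_sum, ← Finset.mul_sum]
    have h7 : 1 / (η ^ 2 * μ ^ 2) * ∑ v, (II g s v - μ) ^ 2 ≤ k / 4 := by
      calc 1 / (η ^ 2 * μ ^ 2) * ∑ v, (II g s v - μ) ^ 2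
          ≤ 1 / (η ^ 2 * μ ^ 2) * (η ^ 2 / 4 * (k * μ ^ 2)) :=
            mul_le_mul_of_nonneg_left hvar (by positivity)
        _ = k / 4 := by field_simp
    have h8 : 1 / ((1 - η) * μ) * ∑ v, DD g s v ≤ k / 2 := by
      have h9 : 0 ≤ 1 / ((1 - η) * μ) := (one_div_pos.mpr (mul_pos hη3 hμ0)).le
      calc 1 / ((1 - η) * μ) * ∑ v, DD g s v ≤ 1 / ((1 - η) * μ) * ((103 / 300) * (k * μ)) :=
            mul_le_mul_of_nonneg_left h6 h9
        _ = (103 / 300) * k / (1 - η) := by field_simp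
        _ ≤ k / 2 := by
            rw [div_le_iff₀ hη3]
            nlinarith
    linarith
  obtain ⟨v, _, hv⟩ := Finset.exists_lt_of_sum_lt hsum
  refine ⟨v, ?_⟩
  have hD0 := DD_nonneg g s v
  have hsq0 : 0 ≤ 1 / (η ^ 2 * μ ^ 2) * (II g s v - μ) ^ 2 := by positivity
  have hDl0 : 0 ≤ 1 / ((1 - η) * μ) * DD g s v :=
    mul_nonneg (one_div_pos.mpr (mul_pos hη3 hμ0)).le hD0
  have hv1 : 1 / (η ^ 2 * μ ^ 2) * (II g s v - μ) ^ 2 < 1 := by linarith
  have hv2 : 1 / ((1 - η) * μ) * DD g s v < 1 := by linarith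
  have hv3 : (II g s v - μ) ^ 2 < (η * μ) ^ 2 := by
    rw [div_mul_eq_mul_div, div_lt_one (by positivity), one_mul] at hv1
    rw [mul_pow]; exact hv1
  have hv4 : |II g s v - μ| < η * μ := abs_lt_of_sq_lt_sq hv3 (by positivity)
  rw [abs_lt] at hv4
  have hv5 : DD g s v < (1 - η) * μ := by
    rw [div_mul_eq_mul_div, div_lt_one (by positivity), one_mul] at hv2
    exact hv2
  constructor
  · intro h
    have h7 := cm_lower g s v
    rw [h, Perm.support_one, Finset.card_empty, Nat.cast_zero] at h7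
    linarith
  · refine (cm_upper g s v).trans ?_
    nlinarith

end Moments

/-- the commutator of two permutations whose supports have one common point is a 3-cycle -/
theorem comm_three {n : ℕ} (s r : Perm (Fin n)) (h : (s.support ∩ r.support).card = 1) :
    ∃ t : Tup 3 n, s⁻¹ * r⁻¹ * s * r = swap (t 0) (t 1) * swap (t 1) (t 2) := by
  classical
  obtain ⟨x, hx⟩ := Finset.card_eq_one.mp h
  have hmem : ∀ q, q ∈ s.support → q ∈ r.support → q = x := by
    intro q h1 h2
    have : q ∈ s.support ∩ r.support := Finset.mem_inter.mpr ⟨h1, h2⟩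
    rw [hx, Finset.mem_singleton] at this
    exact this
  have hxm : x ∈ s.support ∧ x ∈ r.support := by
    have : x ∈ s.support ∩ r.support := by rw [hx]; exact Finset.mem_singleton_self x
    exact Finset.mem_inter.mp this
  obtain ⟨hxs, hxr⟩ := hxm
  have hsx : s x ≠ x := Perm.mem_support.mp hxs
  have hrx : r x ≠ x := Perm.mem_support.mp hxr
  -- the other two points
  obtain ⟨b, hb⟩ : ∃ b, b = s⁻¹ x := ⟨_, rfl⟩
  obtain ⟨c, hc⟩ : ∃ c, c = r⁻¹ x := ⟨_, rfl⟩
  have hsb : s b = x := by rw [hb]; simp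
  have hrc : r c = x := by rw [hc]; simp
  have hbx : b ≠ x := fun h1 => hsx (by rw [h1] at hsb; exact hsb)
  have hcx : c ≠ x := fun h1 => hrx (by rw [h1] at hrc; exact hrc)
  have hbs : b ∈ s.support := Perm.mem_support.mpr (by rw [hsb]; exact hbx.symm)
  have hcr : c ∈ r.support := Perm.mem_support.mpr (by rw [hrc]; exact hcx.symm)
  have hbr : r b = b := by
    by_contra h1
    exact hbx (hmem b hbs (Perm.mem_support.mpr h1))
  have hcs : s c = c := by
    by_contra h1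
    exact hcx (hmem c (Perm.mem_support.mpr h1) hcr)
  have hbc : b ≠ c := by
    intro h1
    rw [← h1] at hcs
    rw [hsb] at hcs
    exact hbx hcs.symm
  have hinvs : ∀ y z, s y = z → s⁻¹ z = y := fun y z h1 => by rw [← h1]; simp
  have hinvr : ∀ y z, r y = z → r⁻¹ z = y := fun y z h1 => by rw [← h1]; simp
  have hsxr : r (s x) = s x := by
    by_contra h1
    have h2 : s x ∈ s.support := Perm.apply_mem_support.mpr hxs
    exact hsx (hmem _ h2 (Perm.mem_support.mpr h1))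
  have hrxs : s (r x) = r x := by
    by_contra h1
    have h2 : r x ∈ r.support := Perm.apply_mem_support.mpr hxr
    exact hrx (hmem _ (Perm.mem_support.mpr h1) h2)
  refine ⟨⟨![x, b, c], ?_⟩, ?_⟩
  · intro i j hij
    fin_cases i <;> fin_cases j <;> simp_all
  · show s⁻¹ * r⁻¹ * s * r = swap x b * swap b c
    ext1 q
    simp only [Perm.mul_apply]
    by_cases hqx : q = x
    · subst hqx
      rw [hrxs, hinvr q (r q) rfl, ← hb, swap_apply_of_ne_of_ne hbx.symm hcx.symm,
        swap_apply_left]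
    · by_cases hqb : q = b
      · subst hqb
        rw [hbr, hsb, ← hc, hinvs c c hcs, swap_apply_left, swap_apply_of_ne_of_ne hcx hbc.symm]
      · by_cases hqc : q = c
        · subst hqc
          rw [hrc, hinvr (s x) (s x) hsxr, hinvs x (s x) rfl, swap_apply_right, swap_apply_right]
        · rw [swap_apply_of_ne_of_ne hqb hqc, swap_apply_of_ne_of_ne hqx hqb]
          -- `q` is fixed
          by_cases hA : q ∈ s.support
          · have hB : r q = q := by
              by_contra h1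
              exact hqx (hmem q hA (Perm.mem_support.mpr h1))
            have h1 : r (s q) = s q := by
              by_contra h2
              have h3 := hmem (s q) (Perm.apply_mem_support.mpr hA) (Perm.mem_support.mpr h2)
              exact hqb (by rw [hb, ← h3]; simp)
            rw [hB, hinvr _ _ h1, hinvs q (s q) rfl]
          · have hs' : s q = q := Perm.notMem_support.mp hA
            have h1 : s (r q) = r q := by
              by_contra h2
              have h4 : r q ∈ r.support := by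
                rw [Perm.apply_mem_support, Perm.mem_support]
                intro h5
                rw [h5] at h2
                exact h2 hs'
              have h3 := hmem (r q) (Perm.mem_support.mpr h2) h4
              exact hqc (by rw [hc, ← h3]; simp)
            rw [h1, hinvr q (r q) rfl, hinvs q q hs']

end Q102.AS
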