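import Pool.Agent.H754R2.RC.HIGHA
import Pool.Agent.H754R2.RC.HIGHE
import Pool.Agent.H14R2.RC.Util

/-!
A unitary representation of `A_n` without vectors fixed by the stabiliser of some set of at most
`m` points has dimension at least `2 ^ (m / 3)`.
-/

set_option autoImplicit false

namespace Q102.AS
open scoped InnerProductSpace
open RC14 Finset

section
variable {V : Type*} [NormedAddCommGroup V] [InnerProductSpace ℂ V]

/-- many disjoint triples -/
theorem exists_T (n m : ℕ) (ρ : Alt n →* (V ≃ₗᵢ[ℂ] V)) (hV : ∃ v : V, v ≠ 0)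
    (hno : ∀ K : Finset (Fin n), K.card ≤ m → ∀ v : V,
      (∀ h : Alt n, (∀ a ∈ K, (h : Equiv.Perm (Fin n)) a = a) → ρ h v = v) → v = 0) :
    ∃ (T : Finset (Tup 3 n)) (v : V), m < 3 * T.card ∧ v ≠ 0 ∧
      (∀ s ∈ T, ∀ t ∈ T, s ≠ t → ∀ i j, s i ≠ t j) ∧
      ∀ s ∈ T, v + ρ (c3 s) v + ρ (c3 s) (ρ (c3 s) v) = 0 := by
  classical
  let Good : Finset (Tup 3 n) → Prop := fun T =>
    (∀ s ∈ T, ∀ t ∈ T, s ≠ t → ∀ i j, s i ≠ t j) ∧
      ∃ v : V, v ≠ 0 ∧ ∀ s ∈ T, v + ρ (c3 s) v + ρ (c3 s) (ρ (c3 s) v) = 0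
  obtain ⟨T, hT, hmax⟩ := Finset.exists_max_image (univ.filter Good) card
    ⟨∅, by
      rw [mem_filter]
      obtain ⟨v, hv⟩ := hV
      exact ⟨mem_univ _, by simp, v, hv, by simp⟩⟩
  rw [mem_filter] at hT
  obtain ⟨-, hTd, v, hv, hTv⟩ := hT
  refine ⟨T, v, ?_, hv, hTd, hTv⟩
  by_contra hlt
  push Not at hlt
  refine hv (hno (T.biUnion fun s => univ.image s) ?_ v ?_)
  · have h1 : (T.biUnion fun s => univ.image s).card ≤ T.card * 3 := by
      refine card_biUnion_le_card_mul _ _ _ fun s _ => ?_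
      refine card_image_le.trans ?_
      simp
    omega
  · refine HIGHA.fixed_of_c3 ρ _ v fun s hs => ?_
    have hsT : ∀ t ∈ T, ∀ i j, s i ≠ t j := by
      intro t ht i j hij
      refine hs i ?_
      rw [mem_biUnion]
      exact ⟨t, ht, mem_image.2 ⟨j, mem_univ _, hij.symm⟩⟩
    by_contra hne
    have hw : ρ (c3 s) v - v ≠ 0 := sub_ne_zero.2 hne
    have hsn : s ∉ T := fun hsT' => hsT s hsT' 0 0 rfl
    have hgood : Good (insert s T) := by
      refine ⟨?_, ρ (c3 s) v - v, hw, ?_⟩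
      · intro a ha b hb hab i j
        rw [mem_insert] at ha hb
        rcases ha with rfl | ha <;> rcases hb with rfl | hb
        · exact absurd rfl hab
        · exact hsT b hb i j
        · exact (hsT a ha j i).symm
        · exact hTd a ha b hb hab i j
      · intro t ht
        rw [mem_insert] at ht
        rcases ht with rfl | ht
        · have h3 : ρ (c3 t) (ρ (c3 t) (ρ (c3 t) v)) = v := by
            have e1 : ρ ((c3 t) ^ 3) v = v := by
              rw [HIGHA.c3_three, map_one]; rfl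
            rw [pow_succ, pow_succ, pow_one, map_mul, map_mul] at e1
            exact e1
          simp only [map_sub]
          rw [h3]
          abel
        · have hc : c3 t * c3 s = c3 s * c3 t :=
            HIGHA.c3_comm t s fun i j => (hsT t ht j i).symm
          have e1 : ∀ u : V, ρ (c3 t) (ρ (c3 s) u) = ρ (c3 s) (ρ (c3 t) u) := by
            intro u
            have := congrArg (fun g => ρ g u) hc
            simp only [map_mul] at this
            exact this
          have e2 := hTv t ht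
          have e3 := congrArg (ρ (c3 s)) e2
          rw [map_add, map_add, map_zero] at e3
          simp only [map_sub, e1]
          rw [sub_add_sub_comm, sub_add_sub_comm, e2, e3, sub_zero]
    have h1 := hmax (insert s T) (mem_filter.2 ⟨mem_univ _, hgood⟩)
    rw [card_insert_of_notMem hsn] at h1
    omega

/-- a primitive third root of unity -/
theorem exists_omega : ∃ ω : ℂ, ω ^ 2 + ω + 1 = 0 := by
  refine ⟨-1 / 2 + (√3 / 2 : ℝ) * Complex.I, ?_⟩
  have h1 : ((√3 / 2 : ℝ) : ℂ) ^ 2 = 3 / 4 := by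
    rw [← Complex.ofReal_pow, div_pow, Real.sq_sqrt (by norm_num)]
    norm_num
  have h2 : (-1 / 2 + ((√3 / 2 : ℝ) : ℂ) * Complex.I) ^ 2 +
      (-1 / 2 + ((√3 / 2 : ℝ) : ℂ) * Complex.I) + 1 =
      3 / 4 + ((√3 / 2 : ℝ) : ℂ) ^ 2 * Complex.I ^ 2 := by ring
  rw [h2, h1, Complex.I_sq]
  norm_num

/-- a joint eigenvector -/
theorem joint {n : ℕ} (ρ : Alt n →* (V ≃ₗᵢ[ℂ] V)) (T : Finset (Tup 3 n))
    (hT : ∀ s ∈ T, ∀ t ∈ T, s ≠ t → ∀ i j, s i ≠ t j) (v : V) (hv : v ≠ 0)
    (hTv : ∀ s ∈ T, v + ρ (c3 s) v + ρ (c3 s) (ρ (c3 s) v) = 0) :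
    ∀ T' : Finset (Tup 3 n), T' ⊆ T → ∃ (w : V) (ζ : Tup 3 n → ℂ), w ≠ 0 ∧
      (∀ s, ζ s ^ 2 + ζ s + 1 = 0) ∧ (∀ s ∈ T', ρ (c3 s) w = ζ s • w) ∧
      ∀ s ∈ T, w + ρ (c3 s) w + ρ (c3 s) (ρ (c3 s) w) = 0 := by
  classical
  obtain ⟨ω, hω⟩ := exists_omega
  intro T'
  induction T' using Finset.induction_on with
  | empty => exact fun _ => ⟨v, fun _ => ω, hv, fun _ => hω, by simp, hTv⟩
  | insert s T' hs ih =>
    intro hsub
    have hsT : s ∈ T := hsub (mem_insert_self _ _)
    obtain ⟨w, ζ, hw, hζ, h1, h2⟩ := ih fun t ht => hsub (mem_insert_of_mem ht)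
    have hcomm : ∀ t ∈ T, ∀ u : V, ρ (c3 t) (ρ (c3 s) u) = ρ (c3 s) (ρ (c3 t) u) := by
      intro t ht u
      by_cases hts : t = s
      · rw [hts]
      · have hc : c3 t * c3 s = c3 s * c3 t := HIGHA.c3_comm t s (hT t ht s hsT hts)
        have := congrArg (fun g => ρ g u) hc
        simp only [map_mul] at this
        exact this
    have hrel := h2 s hsT
    by_cases hw' : ρ (c3 s) w = (-1 - ω) • w
    · refine ⟨w, Function.update ζ s (-1 - ω), hw, ?_, ?_, h2⟩
      · intro t
        by_cases hts : t = s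
        · subst hts
          rw [Function.update_self]
          linear_combination hω
        · rw [Function.update_of_ne hts]
          exact hζ t
      · intro t ht
        rw [mem_insert] at ht
        rcases ht with rfl | ht
        · rw [Function.update_self]; exact hw'
        · have hts : t ≠ s := fun h => hs (h ▸ ht)
          rw [Function.update_of_ne hts]
          exact h1 t ht
    · refine ⟨ρ (c3 s) w - (-1 - ω) • w, Function.update ζ s ω, sub_ne_zero.2 hw', ?_, ?_, ?_⟩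
      · intro t
        by_cases hts : t = s
        · subst hts
          rw [Function.update_self]; exact hω
        · rw [Function.update_of_ne hts]
          exact hζ t
      · intro t ht
        rw [mem_insert] at ht
        rcases ht with rfl | ht
        · rw [Function.update_self, map_sub, map_smul]
          have e1 : ρ (c3 t) (ρ (c3 t) w) = -w - ρ (c3 t) w := by
            rw [← sub_eq_zero]
            rw [← hrel]
            abel
          rw [e1, smul_sub, smul_smul]
          have e2 : ω * (-1 - ω) = 1 := by linear_combination -hω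
          rw [e2, one_smul]
          have e3 : (-1 - ω) • ρ (c3 t) w = -ρ (c3 t) w - ω • ρ (c3 t) w := by
            rw [sub_smul, neg_one_smul]
          rw [e3]
          abel
        · have hts : t ≠ s := fun h => hs (h ▸ ht)
          rw [Function.update_of_ne hts, map_sub, map_smul,
            hcomm t (hsub (mem_insert_of_mem ht)), h1 t ht, map_smul, smul_sub, smul_comm]
      · intro t ht
        have e2 := h2 t ht
        have e3 := congrArg (ρ (c3 s)) e2
        rw [map_add, map_add, map_zero] at e3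
        simp only [map_sub, map_smul, hcomm t ht]
        have e4 : ρ (c3 s) w - (-1 - ω) • w + (ρ (c3 s) (ρ (c3 t) w) - (-1 - ω) • ρ (c3 t) w) +
            (ρ (c3 s) (ρ (c3 t) (ρ (c3 t) w)) - (-1 - ω) • ρ (c3 t) (ρ (c3 t) w)) =
            (ρ (c3 s) w + ρ (c3 s) (ρ (c3 t) w) + ρ (c3 s) (ρ (c3 t) (ρ (c3 t) w))) -
            (-1 - ω) • (w + ρ (c3 t) w + ρ (c3 t) (ρ (c3 t) w)) := by
          rw [smul_add, smul_add]
          abel
        rw [e4, e2, e3, smul_zero, sub_zero]

/-- the element which inverts the 3-cycle of `s` and of `r` -/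
def flip2 {n : ℕ} (s r : Tup 3 n) : Alt n :=
  ⟨Equiv.swap (s 0) (s 2) * Equiv.swap (r 0) (r 1), by
    have h1 : s 0 ≠ s 2 := fun h => by simpa using s.injective h
    have h2 : r 0 ≠ r 1 := fun h => by simpa using r.injective h
    simp [Equiv.Perm.mem_alternatingGroup, Equiv.Perm.sign_mul, Equiv.Perm.sign_swap h1,
      Equiv.Perm.sign_swap h2]⟩

lemma flip2_self {n : ℕ} (s r : Tup 3 n) (h : ∀ i j, s i ≠ r j) :
    mv (flip2 s r : Equiv.Perm (Fin n)) s = HIGHE.rev3 s := by
  have hs : ∀ i j : Fin 3, i ≠ j → s i ≠ s j := fun i j hij => s.injective.ne hij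
  ext i
  rw [mv_apply]
  show ((Equiv.swap (s 0) (s 2) * Equiv.swap (r 0) (r 1)) (s i) : Fin n).val = _
  rw [Equiv.Perm.mul_apply, Equiv.swap_apply_of_ne_of_ne (h i 0) (h i 1)]
  fin_cases i
  · show (Equiv.swap (s 0) (s 2) (s 0)).val = (s 2).val
    rw [Equiv.swap_apply_left]
  · show (Equiv.swap (s 0) (s 2) (s 1)).val = (s 1).val
    rw [Equiv.swap_apply_of_ne_of_ne (hs 1 0 (by decide)) (hs 1 2 (by decide))]
  · show (Equiv.swap (s 0) (s 2) (s 2)).val = (s 0).val
    rw [Equiv.swap_apply_right]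

lemma flip2_other {n : ℕ} (s r t : Tup 3 n) (h : ∀ i j, t i ≠ s j) (h' : ∀ i j, t i ≠ r j) :
    mv (flip2 s r : Equiv.Perm (Fin n)) t = t := by
  ext i
  rw [mv_apply]
  show ((Equiv.swap (s 0) (s 2) * Equiv.swap (r 0) (r 1)) (t i) : Fin n).val = _
  rw [Equiv.Perm.mul_apply, Equiv.swap_apply_of_ne_of_ne (h' i 0) (h' i 1),
    Equiv.swap_apply_of_ne_of_ne (h i 0) (h i 2)]

lemma zeta_ne {z : ℂ} (hz : z ^ 2 + z + 1 = 0) : z ≠ 0 ∧ z⁻¹ ≠ z := by
  have h0 : z ≠ 0 := by
    rintro rfl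
    norm_num at hz
  refine ⟨h0, fun h => ?_⟩
  have h1 : z * z = 1 := by
    nth_rewrite 1 [← h]
    exact inv_mul_cancel₀ h0
  have h2 : z = -2 := by linear_combination hz - h1
  rw [h2] at h1
  norm_num at h1

/-- all sign patterns occur -/
theorem signs {n : ℕ} (ρ : Alt n →* (V ≃ₗᵢ[ℂ] V)) (T : Finset (Tup 3 n))
    (hT : ∀ s ∈ T, ∀ t ∈ T, s ≠ t → ∀ i j, s i ≠ t j) (r : Tup 3 n) (hr : r ∈ T) (w : V)
    (hw : w ≠ 0) (ζ : Tup 3 n → ℂ) (hζ : ∀ s ∈ T, ρ (c3 s) w = ζ s • w) (hζ0 : ∀ s, ζ s ≠ 0) :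
    ∀ B : Finset (Tup 3 n), B ⊆ T.erase r → ∃ u : V, u ≠ 0 ∧
      ∀ s ∈ T.erase r, ρ (c3 s) u = (if s ∈ B then (ζ s)⁻¹ else ζ s) • u := by
  classical
  intro B
  induction B using Finset.induction_on with
  | empty =>
    intro _
    refine ⟨w, hw, fun s hs => ?_⟩
    rw [if_neg (by simp)]
    exact hζ s (mem_of_mem_erase hs)
  | insert a B ha ih =>
    intro hsub
    obtain ⟨u, hu, hu2⟩ := ih fun t ht => hsub (mem_insert_of_mem ht)
    have haT : a ∈ T.erase r := hsub (mem_insert_self _ _)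
    have haT' : a ∈ T := mem_of_mem_erase haT
    have har : a ≠ r := ne_of_mem_erase haT
    refine ⟨ρ (flip2 a r) u, ?_, fun s hs => ?_⟩
    · intro h
      apply hu
      rw [← norm_eq_zero, LinearIsometryEquiv.norm_map, norm_eq_zero] at h
      exact h
    · have hsT : s ∈ T := mem_of_mem_erase hs
      have hsr : s ≠ r := ne_of_mem_erase hs
      have e0 : ρ (c3 s) (ρ (flip2 a r) u) = ρ (c3 s * flip2 a r) u := by rw [map_mul]; rfl
      by_cases hsa : s = a
      · subst hsa
        rw [if_pos (mem_insert_self _ _)]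
        have e1 : c3 s * flip2 s r = flip2 s r * (c3 s)⁻¹ := by
          have e2 := HIGHE.c3_conj (flip2 s r) s
          rw [flip2_self s r (hT s hsT r hr hsr), HIGHE.c3_rev] at e2
          -- `(c3 s)⁻¹ = f c3 s f⁻¹`
          have e3 : (c3 s)⁻¹ * flip2 s r = flip2 s r * c3 s := by
            rw [e2]; group
          calc c3 s * flip2 s r = c3 s * (flip2 s r * c3 s) * (c3 s)⁻¹ := by group
            _ = c3 s * ((c3 s)⁻¹ * flip2 s r) * (c3 s)⁻¹ := by rw [e3]
            _ = flip2 s r * (c3 s)⁻¹ := by group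
        rw [e0, e1, map_mul]
        have e4 := hu2 s hs
        rw [if_neg ha] at e4
        have e5 : ρ (c3 s)⁻¹ u = (ζ s)⁻¹ • u := by
          have e6 : ρ (c3 s)⁻¹ (ρ (c3 s) u) = u := by
            have : ρ ((c3 s)⁻¹ * c3 s) u = u := by rw [inv_mul_cancel, map_one]; rfl
            rw [map_mul] at this
            exact this
          rw [e4, map_smul] at e6
          calc ρ (c3 s)⁻¹ u = (ζ s)⁻¹ • (ζ s • ρ (c3 s)⁻¹ u) := by
                rw [smul_smul, inv_mul_cancel₀ (hζ0 s), one_smul]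
            _ = _ := by rw [e6]
        show ρ (flip2 s r) (ρ (c3 s)⁻¹ u) = _
        rw [e5, map_smul]
      · have e1 : c3 s * flip2 a r = flip2 a r * c3 s := by
          have e2 := HIGHE.c3_conj (flip2 a r) s
          rw [flip2_other a r s (hT s hsT a haT' hsa) (hT s hsT r hr hsr)] at e2
          calc c3 s * flip2 a r = (flip2 a r * c3 s * (flip2 a r)⁻¹) * flip2 a r := by rw [← e2]
            _ = _ := by group
        rw [e0, e1, map_mul]
        show ρ (flip2 a r) (ρ (c3 s) u) = _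
        rw [hu2 s hs, map_smul]
        congr 1
        simp [mem_insert, hsa]

/-- the dimension of a representation without vectors invariant under large stabilisers -/
theorem dim_lower [FiniteDimensional ℂ V] (n m : ℕ) (ρ : Alt n →* (V ≃ₗᵢ[ℂ] V))
    (hV : ∃ v : V, v ≠ 0)
    (hno : ∀ K : Finset (Fin n), K.card ≤ m → ∀ v : V,
      (∀ h : Alt n, (∀ a ∈ K, (h : Equiv.Perm (Fin n)) a = a) → ρ h v = v) → v = 0) :
    2 ^ (m / 3) ≤ Module.finrank ℂ V := by
  classical
  obtain ⟨T, v, hcard, hv, hT, hTv⟩ := exists_T n m ρ hV hno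
  obtain ⟨w, ζ, hw, hζ, hζ1, -⟩ := joint ρ T hT v hv hTv T (Finset.Subset.refl _)
  obtain ⟨r, hr⟩ : T.Nonempty := by rw [← card_pos]; omega
  have hS := signs ρ T hT r hr w hw ζ hζ1 (fun s => (zeta_ne (hζ s)).1)
  choose! u hu hu2 using hS
  let I := {B : Finset (Tup 3 n) // B ∈ (T.erase r).powerset}
  have horth : ∀ B B' : I, B ≠ B' → ⟪u B.1, u B'.1⟫_ℂ = 0 := by
    rintro ⟨B, hB⟩ ⟨B', hB'⟩ hne
    rw [mem_powerset] at hB hB'
    have hne' : B ≠ B' := fun h => hne (Subtype.ext h)
    obtain ⟨s, hs⟩ : ∃ s, ¬ (s ∈ B ↔ s ∈ B') := by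
      by_contra hcon
      push Not at hcon
      exact hne' (Finset.ext hcon)
    have hsT : s ∈ T.erase r := by
      by_cases h1 : s ∈ B
      · exact hB h1
      · have : s ∈ B' := by
          by_contra h2
          exact hs ⟨fun h => absurd h h1, fun h => absurd h h2⟩
        exact hB' this
    have e1 := hu2 B hB s hsT
    have e2 := hu2 B' hB' s hsT
    obtain ⟨h0, hne2⟩ := zeta_ne (hζ s)
    show ⟪u B, u B'⟫_ℂ = 0
    set a : ℂ := if s ∈ B then (ζ s)⁻¹ else ζ s with ha
    set b : ℂ := if s ∈ B' then (ζ s)⁻¹ else ζ s with hb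
    have hab : a ≠ b := by
      rw [ha, hb]
      by_cases h1 : s ∈ B
      · have h2 : s ∉ B' := fun h => hs ⟨fun _ => h, fun _ => h1⟩
        rw [if_pos h1, if_neg h2]; exact hne2
      · have h2 : s ∈ B' := by
          by_contra h2
          exact hs ⟨fun h => absurd h h1, fun h => absurd h h2⟩
        rw [if_neg h1, if_pos h2]; exact hne2.symm
    have hnorm : ‖a‖ = 1 := by
      have h1 : ‖ρ (c3 s) (u B)‖ = ‖u B‖ := (ρ (c3 s)).norm_map _
      rw [e1, norm_smul] at h1
      have h2 : 0 < ‖u B‖ := norm_pos_iff.mpr (hu B hB)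
      exact mul_right_cancel₀ h2.ne' (by rw [h1, one_mul])
    have h3 : ⟪ρ (c3 s) (u B), ρ (c3 s) (u B')⟫_ℂ = ⟪u B, u B'⟫_ℂ := (ρ (c3 s)).inner_map_map _ _
    rw [e1, e2, inner_smul_left, inner_smul_right, ← mul_assoc] at h3
    by_contra hne3
    have h4 : (starRingEnd ℂ) a * b = 1 := by
      have : ((starRingEnd ℂ) a * b) * ⟪u B, u B'⟫_ℂ = 1 * ⟪u B, u B'⟫_ℂ := by rw [one_mul]; exact h3
      exact mul_right_cancel₀ hne3 this
    have h5 : a * (starRingEnd ℂ) a = 1 := by
      rw [Complex.mul_conj, Complex.normSq_eq_norm_sq, hnorm]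
      norm_num
    apply hab
    calc a = a * ((starRingEnd ℂ) a * b) := by rw [h4, mul_one]
      _ = (a * (starRingEnd ℂ) a) * b := by ring
      _ = b := by rw [h5, one_mul]
  have hli : LinearIndependent ℂ (fun B : I => u B.1) := by
    refine linearIndependent_of_ne_zero_of_inner_eq_zero (fun B => ?_) fun B B' h => horth B B' h
    exact hu B.1 (mem_powerset.mp B.2)
  have h1 := hli.fintype_card_le_finrank
  have h2 : Fintype.card I = 2 ^ (T.erase r).card := by
    rw [Fintype.card_coe, card_powerset]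
  rw [h2, card_erase_of_mem hr] at h1
  refine le_trans (Nat.pow_le_pow_right (by norm_num) ?_) h1
  omega

end

end Q102.AS
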