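import Pool.Agent.Q102.AS.Mixr

/-!
The product of an involution with many fixed points and a random conjugate of it has a power which
is not the identity and moves few points.
-/

set_option autoImplicit false

namespace Q102.AS
open RC14 RC852 DM852 Finset Filter Equiv

section Alg
variable {α : Type*} {σ τ : Perm α}

lemma inv_self' {σ : Perm α} (hσ : σ * σ = 1) : σ⁻¹ = σ := inv_eq_of_mul_eq_one_right hσ

lemma tau_zpow (hσ : σ * σ = 1) (hτ : τ * τ = 1) (k : ℤ) :
    τ * (σ * τ) ^ k = (σ * τ) ^ (-k) * τ := by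
  have h1 : τ * (σ * τ) * τ⁻¹ = (σ * τ)⁻¹ := by
    rw [mul_inv_rev, inv_self' hσ, inv_self' hτ, mul_assoc, mul_assoc, hτ, mul_one]
  have h2 : τ * (σ * τ) ^ k * τ⁻¹ = (σ * τ) ^ (-k) := by
    rw [← conj_zpow, h1, inv_zpow, zpow_neg]
  rw [← h2, inv_mul_cancel_right]

lemma sigma_zpow (hσ : σ * σ = 1) (hτ : τ * τ = 1) (k : ℤ) :
    σ * (σ * τ) ^ k = (σ * τ) ^ (-k) * σ := by
  have h1 : σ * (σ * τ) * σ⁻¹ = (σ * τ)⁻¹ := by
    rw [mul_inv_rev, inv_self' hσ, inv_self' hτ, ← mul_assoc, hσ, one_mul]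
  have h2 : σ * (σ * τ) ^ k * σ⁻¹ = (σ * τ) ^ (-k) := by
    rw [← conj_zpow, h1, inv_zpow, zpow_neg]
  rw [← h2, inv_mul_cancel_right]

/-- the vertices of the alternating walk from a point -/
def YP (σ τ : Perm α) {t : ℕ} (ib : Fin t × Bool) : Perm α :=
  if ib.2 then τ * (σ * τ) ^ (ib.1 : ℕ) else (σ * τ) ^ (ib.1 : ℕ)

lemma zpow_diff (w : Perm α) (p : α) (a b : ℤ) (h : (w ^ a) p = (w ^ b) p) :
    (w ^ (b - a)) p = p := by
  rw [show b - a = -a + b by ring, zpow_add, Perm.mul_apply, ← h, ← Perm.mul_apply, ← zpow_add,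
    neg_add_cancel, zpow_zero, Perm.one_apply]

lemma rel_of_not_inj (hσ : σ * σ = 1) (hτ : τ * τ = 1) (t : ℕ) (p : α)
    (h : ¬ Function.Injective fun ib : Fin t × Bool => YP σ τ ib p) :
    (∃ e : ℤ, 1 ≤ e ∧ e ≤ t ∧ ((σ * τ) ^ e) p = p) ∨
      ∃ e : ℤ, 0 ≤ e ∧ e ≤ 2 * t ∧ τ p = ((σ * τ) ^ e) p := by
  unfold Function.Injective at h
  push Not at h
  obtain ⟨⟨i, b⟩, ⟨j, c⟩, heq, hne⟩ := h
  have hi := i.2
  have hj := j.2
  obtain ⟨w, hw⟩ : ∃ w, w = σ * τ := ⟨_, rfl⟩
  have key : ∀ i j : Fin t, i ≠ j → (w ^ (i : ℕ)) p = (w ^ (j : ℕ)) p →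
      ∃ e : ℤ, 1 ≤ e ∧ e ≤ t ∧ (w ^ e) p = p := by
    intro i j hij h
    have hi := i.2
    have hj := j.2
    have hne' : (i : ℕ) ≠ (j : ℕ) := fun h' => hij (Fin.ext h')
    rw [← zpow_natCast, ← zpow_natCast] at h
    rcases lt_or_gt_of_ne hne' with h1 | h1
    · exact ⟨(j : ℤ) - i, by omega, by omega, zpow_diff w p _ _ h⟩
    · exact ⟨(i : ℤ) - j, by omega, by omega, zpow_diff w p _ _ h.symm⟩
  have key2 : ∀ i j : Fin t, (w ^ (i : ℕ)) p = τ ((w ^ (j : ℕ)) p) →
      ∃ e : ℤ, 0 ≤ e ∧ e ≤ 2 * t ∧ τ p = (w ^ e) p := by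
    intro i j h
    have hi := i.2
    have hj := j.2
    rw [← zpow_natCast, ← zpow_natCast, ← Perm.mul_apply, hw, tau_zpow hσ hτ, ← hw,
      Perm.mul_apply] at h
    refine ⟨(j : ℤ) + i, by omega, by omega, ?_⟩
    rw [zpow_add, Perm.mul_apply, h, ← Perm.mul_apply, ← zpow_add, add_neg_cancel, zpow_zero,
      Perm.one_apply]
  simp only [YP] at heq
  rw [← hw] at heq ⊢
  cases b <;> cases c
  · left
    refine key i j (fun h => hne (by rw [h])) ?_
    simpa using heq
  · right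
    refine key2 i j ?_
    simpa [Perm.mul_apply] using heq
  · right
    refine key2 j i ?_
    simpa [Perm.mul_apply] using heq.symm
  · left
    refine key i j (fun h => hne (by rw [h])) ?_
    have h1 : τ ((w ^ (i : ℕ)) p) = τ ((w ^ (j : ℕ)) p) := by
      simpa [Perm.mul_apply] using heq
    exact τ.injective h1

theorem short_cycle (hσ : σ * σ = 1) (hτ : τ * τ = 1) (t : ℕ) (p : α)
    (h1 : ¬ Function.Injective fun ib : Fin t × Bool => YP σ τ ib p)
    (h2 : ¬ Function.Injective fun ib : Fin t × Bool => YP σ τ ib (σ p)) :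
    ((σ * τ) ^ (4 * t + 2).factorial) p = p := by
  obtain ⟨w, hw⟩ : ∃ w, w = σ * τ := ⟨_, rfl⟩
  have main : ∃ e : ℤ, 1 ≤ e ∧ e ≤ 4 * t + 2 ∧ (w ^ e) p = p := by
    have hsw : ∀ e : ℤ, (w ^ e) (σ p) = σ ((w ^ (-e)) p) := by
      intro e
      have h3 := sigma_zpow hσ hτ (-e)
      rw [neg_neg, ← hw] at h3
      rw [← Perm.mul_apply, ← h3, Perm.mul_apply]
    rcases rel_of_not_inj hσ hτ t p h1 with ⟨e, he1, he2, he3⟩ | ⟨e, he1, he2, he3⟩
    · rw [← hw] at he3
      exact ⟨e, he1, by omega, he3⟩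
    rw [← hw] at he3
    rcases rel_of_not_inj hσ hτ t (σ p) h2 with ⟨e', he1', he2', he3'⟩ | ⟨e', he1', he2', he3'⟩
    · rw [← hw, hsw] at he3'
      refine ⟨e', he1', by omega, ?_⟩
      have h3 := σ.injective he3'
      have h4 := zpow_diff w p (-e') 0 (by rw [h3, zpow_zero, Perm.one_apply])
      simpa using h4
    · rw [← hw, hsw] at he3'
      refine ⟨e + e' + 2, by omega, by omega, ?_⟩
      -- `τ (σ p) = w⁻¹ p`
      have h3 : τ (σ p) = (w ^ (-1 : ℤ)) p := by
        rw [zpow_neg, zpow_one, hw, mul_inv_rev, inv_self' hσ, inv_self' hτ, Perm.mul_apply]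
      have h4 : σ ((w ^ (-e')) p) = (w ^ (e' + 1)) (τ p) := by
        have h5 := tau_zpow hσ hτ (-e')
        rw [neg_neg, ← hw] at h5
        have h6 : σ = w * τ := by rw [hw, mul_assoc, hτ, mul_one]
        calc σ ((w ^ (-e')) p) = (w * τ) ((w ^ (-e')) p) := by rw [← h6]
          _ = w ((τ * w ^ (-e')) p) := rfl
          _ = w ((w ^ e' * τ) p) := by rw [h5]
          _ = (w ^ (e' + 1)) (τ p) := by
              rw [add_comm, zpow_add, zpow_one]; rfl
      rw [h3, h4, he3, ← Perm.mul_apply, ← zpow_add] at he3'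
      have h7 := zpow_diff w p (-1) (e' + 1 + e) he3'
      rw [show e + e' + 2 = e' + 1 + e - -1 by ring]
      exact h7
  rw [← hw]
  obtain ⟨e, he1, he2, he3⟩ := main
  obtain ⟨m, rfl⟩ : ∃ m : ℕ, e = m := ⟨e.toNat, by omega⟩
  have hm1 : 0 < m := by omega
  have hm2 : m ≤ 4 * t + 2 := by omega
  obtain ⟨k, hk⟩ := Nat.dvd_factorial hm1 hm2
  rw [hk, pow_mul]
  rw [zpow_natCast] at he3
  have h5 : ∀ k : ℕ, ((w ^ m) ^ k) p = p := by
    intro k
    induction k with
    | zero => rfl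
    | succ k ih => rw [pow_succ, Perm.mul_apply, he3, ih]
  exact h5 k

end Alg

section
variable {n : ℕ}

/-- the previous points of the special path -/
def pv (σ : Perm (Fin n)) (a : ℕ → Fin n) (b0 : Fin n) : ℕ → Fin n
  | 0 => b0
  | j + 1 => σ (a j)

lemma nontriv (σ h : Perm (Fin n)) (N : ℕ) (hN : 1 ≤ N) (a : ℕ → Fin n)
    (b0 : Fin n) (hb0 : ∀ j < N, σ (a j) ≠ b0)
    (hE : ∀ j < N, h (a j) = pv σ a b0 j ∧ h (σ (a j)) = a j) :
    (σ * (h * σ * h⁻¹)) ^ N ≠ 1 := by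
  have key : ∀ j ≤ N, ((σ * (h * σ * h⁻¹)) ^ j) b0 = pv σ a b0 j := by
    intro j
    induction j with
    | zero => intro _; rfl
    | succ j ih =>
      intro hj
      obtain ⟨h1, h2⟩ := hE j (by omega)
      rw [pow_succ', Perm.mul_apply, ih (by omega), ← h1]
      show σ (h (σ (h⁻¹ (h (a j))))) = σ (a j)
      have h3 : h⁻¹ (h (a j)) = a j := by simp
      rw [h3, h2]
  intro hcon
  have h1 := key N le_rfl
  rw [hcon, Perm.one_apply] at h1
  obtain ⟨j, rfl⟩ : ∃ j, N = j + 1 := ⟨N - 1, by omega⟩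
  exact hb0 j (by omega) h1.symm

/-- the domain of the tuple event -/
def Dm (σ : Perm (Fin n)) {t : ℕ} (a : Fin t → Fin n) (ib : Fin t × Bool) : Fin n :=
  if ib.2 then σ (a ib.1) else a ib.1

/-- the range of the tuple event -/
def Rn (σ : Perm (Fin n)) {t : ℕ} (p : Fin n) (z : Fin t → Fin n) (ib : Fin t × Bool) : Fin n :=
  if ib.2 then z ib.1 else
    if h : (ib.1 : ℕ) = 0 then p else σ (z ⟨(ib.1 : ℕ) - 1, by have := ib.1.2; omega⟩)

lemma Rn_eq (σ h : Perm (Fin n)) (t : ℕ) (p : Fin n) (ib : Fin t × Bool) :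
    Rn σ p (fun i : Fin t => (h * σ * h⁻¹) (((σ * (h * σ * h⁻¹)) ^ (i : ℕ)) p)) ib =
      YP σ (h * σ * h⁻¹) ib p := by
  obtain ⟨i, b⟩ := ib
  unfold Rn YP
  cases b
  · simp only [Bool.false_eq_true, if_false]
    split_ifs with h0
    · rw [h0, pow_zero, Perm.one_apply]
    · obtain ⟨m, hm⟩ : ∃ m, (i : ℕ) = m + 1 := ⟨(i : ℕ) - 1, by omega⟩
      rw [hm, pow_succ']
      rfl
  · simp only [if_true]
    rfl

variable {K : Type} [Fintype K]

open Classical in
/-- the count of the words for which the walk from `p` is injective and avoids the special path -/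
theorem count_p (g : K → Perm (Fin n)) (R N t : ℕ) (hg : MixR R g) (hR : N * 2 + t * 2 ≤ R)
    (σ : Perm (Fin n)) (D0 R0 : Fin N × Bool → Fin n)
    (hR0 : Function.Injective R0) (p : Fin n) :
    (#{v : K | (∀ i, g v (D0 i) = R0 i) ∧
      (Function.Injective fun ib : Fin t × Bool => YP σ (g v * σ * (g v)⁻¹) ib p) ∧
      ∀ (ib : Fin t × Bool) (i : Fin N × Bool), R0 i ≠ YP σ (g v * σ * (g v)⁻¹) ib p} : ℝ) *
        n.descFactorial (N * 2 + t * 2) ≤
      (σ.support.card : ℝ) ^ t * (n : ℝ) ^ t * (2 * Fintype.card K) := by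
  let ι := (Fin N × Bool) ⊕ (Fin t × Bool)
  have hι : Fintype.card ι = N * 2 + t * 2 := by simp [ι]
  let dom : (Fin t → Fin n) → ι → Fin n := fun a => Sum.elim D0 (Dm σ a)
  let ran : (Fin t → Fin n) → ι → Fin n := fun z => Sum.elim R0 (Rn σ p z)
  let Pr : Finset ((Fin t → Fin n) × (Fin t → Fin n)) :=
    ((Fintype.piFinset fun _ => σ.support) ×ˢ (univ : Finset (Fin t → Fin n))).filter
      fun q => Function.Injective (dom q.1) ∧ Function.Injective (ran q.2)
  let Ev : (Fin t → Fin n) × (Fin t → Fin n) → Finset K := fun q =>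
    univ.filter fun v => ∀ i, g v (dom q.1 i) = ran q.2 i
  have hsub : (univ.filter fun v : K => (∀ i, g v (D0 i) = R0 i) ∧
      (Function.Injective fun ib : Fin t × Bool => YP σ (g v * σ * (g v)⁻¹) ib p) ∧
      ∀ (ib : Fin t × Bool) (i : Fin N × Bool), R0 i ≠ YP σ (g v * σ * (g v)⁻¹) ib p) ⊆
      Pr.biUnion Ev := by
    intro v hv
    rw [mem_filter] at hv
    obtain ⟨-, hE, hinj, hav⟩ := hv
    obtain ⟨w, hw⟩ : ∃ w, w = σ * (g v * σ * (g v)⁻¹) := ⟨_, rfl⟩
    obtain ⟨a, ha⟩ : ∃ a : Fin t → Fin n, a = fun i : Fin t => (g v)⁻¹ ((w ^ (i : ℕ)) p) := ⟨_, rfl⟩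
    obtain ⟨z, hz⟩ : ∃ z : Fin t → Fin n, z = fun i : Fin t =>
      (g v * σ * (g v)⁻¹) ((w ^ (i : ℕ)) p) := ⟨_, rfl⟩
    have hran : ∀ ib, Rn σ p z ib = YP σ (g v * σ * (g v)⁻¹) ib p := by
      intro ib
      rw [hz, hw]
      exact Rn_eq σ (g v) t p ib
    have hgd : ∀ i, g v (dom a i) = ran z i := by
      intro i
      rcases i with i | ⟨i, b⟩
      · exact hE i
      · show g v (Dm σ a (i, b)) = Rn σ p z (i, b)
        rw [hran]
        unfold Dm YP
        rw [← hw]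
        cases b
        · simp only [Bool.false_eq_true, if_false]
          rw [ha]
          show g v ((g v)⁻¹ ((w ^ (i : ℕ)) p)) = _
          simp
        · simp only [if_true]
          rw [ha]
          rfl
    have hraninj : Function.Injective (ran z) := by
      refine Function.Injective.sumElim hR0 ?_ ?_
      · intro x y hxy
        rw [hran, hran] at hxy
        exact hinj hxy
      · intro i ib h
        rw [hran] at h
        exact hav ib i h
    have hdominj : Function.Injective (dom a) := by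
      intro x y hxy
      apply hraninj
      rw [← hgd, ← hgd, hxy]
    have hasupp : ∀ i, a i ∈ σ.support := by
      intro i
      rw [Perm.mem_support]
      intro h
      have h1 : dom a (Sum.inr (i, true)) = dom a (Sum.inr (i, false)) := by
        show Dm σ a (i, true) = Dm σ a (i, false)
        unfold Dm
        simpa using h
      have h2 := Sum.inr_injective (hdominj h1)
      exact absurd (congrArg Prod.snd h2) (by simp)
    rw [mem_biUnion]
    refine ⟨(a, z), ?_, ?_⟩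
    · rw [mem_filter, mem_product]
      exact ⟨⟨Fintype.mem_piFinset.mpr hasupp, mem_univ _⟩, hdominj, hraninj⟩
    · rw [mem_filter]
      exact ⟨mem_univ _, hgd⟩
  have hEv : ∀ q ∈ Pr, (#(Ev q) : ℝ) * n.descFactorial (N * 2 + t * 2) ≤ 2 * Fintype.card K := by
    intro q hq
    rw [mem_filter] at hq
    have h1 := (hg ι (by rw [hι]; exact hR) (dom q.1) (ran q.2) hq.2.1 hq.2.2).1
    rw [hι] at h1
    convert h1 using 3
  have hPr : (#Pr : ℝ) ≤ (σ.support.card : ℝ) ^ t * (n : ℝ) ^ t := by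
    have h1 : #Pr ≤ #((Fintype.piFinset fun _ : Fin t => σ.support) ×ˢ
        (univ : Finset (Fin t → Fin n))) := card_filter_le _ _
    rw [card_product, Fintype.card_piFinset_const, card_univ, Fintype.card_fun, Fintype.card_fin,
      Fintype.card_fin] at h1
    exact_mod_cast h1
  have h1 : (#(univ.filter fun v : K => (∀ i, g v (D0 i) = R0 i) ∧
      (Function.Injective fun ib : Fin t × Bool => YP σ (g v * σ * (g v)⁻¹) ib p) ∧
      ∀ (ib : Fin t × Bool) (i : Fin N × Bool), R0 i ≠ YP σ (g v * σ * (g v)⁻¹) ib p) : ℝ) ≤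
      ∑ q ∈ Pr, (#(Ev q) : ℝ) := by
    have := (card_le_card hsub).trans card_biUnion_le
    exact_mod_cast this
  calc _ ≤ (∑ q ∈ Pr, (#(Ev q) : ℝ)) * n.descFactorial (N * 2 + t * 2) :=
        mul_le_mul_of_nonneg_right h1 (by positivity)
    _ = ∑ q ∈ Pr, (#(Ev q) : ℝ) * n.descFactorial (N * 2 + t * 2) := by rw [sum_mul]
    _ ≤ ∑ _q ∈ Pr, (2 * Fintype.card K : ℝ) := sum_le_sum hEv
    _ = #Pr * (2 * Fintype.card K) := by rw [sum_const, nsmul_eq_mul]
    _ ≤ _ := mul_le_mul_of_nonneg_right hPr (by positivity)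

lemma descFact_add (n d m : ℕ) (h : d + m ≤ n) :
    (n - d - m) ^ m * n.descFactorial d ≤ n.descFactorial (d + m) := by
  induction m with
  | zero => simp
  | succ m ih =>
    have h1 := ih (by omega)
    rw [← Nat.add_assoc, Nat.descFactorial_succ, pow_succ]
    have h2 : n - d - (m + 1) ≤ n - d - m := by omega
    have h3 : (n - d - (m + 1)) ^ m ≤ (n - d - m) ^ m := Nat.pow_le_pow_left h2 m
    calc (n - d - (m + 1)) ^ m * (n - d - (m + 1)) * n.descFactorial d
        ≤ (n - d - m) ^ m * (n - (d + m)) * n.descFactorial d := by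
          refine Nat.mul_le_mul_right _ (Nat.mul_le_mul h3 ?_)
          omega
      _ = (n - (d + m)) * ((n - d - m) ^ m * n.descFactorial d) := by ring
      _ ≤ _ := Nat.mul_le_mul_left _ h1

end

end Q102.AS
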