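import Pool.Agent.Q102.AS.Invol
import Pool.Agent.Q102.AS.Core

/-!
From an involution with many fixed points to a short word of small support.
-/

set_option autoImplicit false

namespace Q102.AS
open RC14 RC852 DM852 Finset Filter Equiv

section
variable {n : ℕ} {K : Type} [Fintype K]

open Classical in
/-- a word for which the special path is right and few walks are long -/
theorem exists_good [Nonempty K] (g : K → Perm (Fin n)) (R N t : ℕ) (hg : MixR R g)
    (hR : N * 2 + t * 2 ≤ R) (σ : Perm (Fin n)) (D0 R0 : Fin N × Bool → Fin n)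
    (hD0 : Function.Injective D0) (hR0 : Function.Injective R0) (η : ℝ) (hη : 0 < η)
    (hη1 : η ≤ 1) (hn0 : 1 ≤ n) (hsupp : (σ.support.card : ℝ) ≤ (1 - η) * n)
    (hn : ((N * 2 + t * 2 : ℕ) : ℝ) ≤ η / 4 * n) (ht : 4 * (1 - η / 2) ^ t ≤ 1 / 32)
    (hn2 : 128 * (t * N) ≤ n) :
    ∃ v : K, (∀ i, g v (D0 i) = R0 i) ∧
      (#{p | Function.Injective fun ib : Fin t × Bool => YP σ (g v * σ * (g v)⁻¹) ib p} : ℝ) ≤
        n / 16 := by
  have hnR : (1 : ℝ) ≤ n := by exact_mod_cast hn0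
  have hnpos : (0 : ℝ) < n := by linarith
  have hle : N * 2 + t * 2 ≤ n := by
    have : ((N * 2 + t * 2 : ℕ) : ℝ) ≤ n := by nlinarith
    exact_mod_cast this
  let E : Finset K := univ.filter fun v => ∀ i, g v (D0 i) = R0 i
  let F : K → Finset (Fin n) := fun v =>
    univ.filter fun p => Function.Injective fun ib : Fin t × Bool => YP σ (g v * σ * (g v)⁻¹) ib p
  let A : K → Fin n → Prop := fun v p =>
    ∀ (ib : Fin t × Bool) (i : Fin N × Bool), R0 i ≠ YP σ (g v * σ * (g v)⁻¹) ib p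
  have hcI : Fintype.card (Fin N × Bool) = N * 2 := by simp
  have hE1 := (hg (Fin N × Bool) (by rw [hcI]; omega) D0 R0 hD0 hR0).2
  rw [hcI] at hE1
  obtain ⟨e0, he0⟩ : ∃ e0 : ℝ, e0 = #E := ⟨_, rfl⟩
  obtain ⟨Kc, hKc⟩ : ∃ Kc : ℝ, Kc = Fintype.card K := ⟨_, rfl⟩
  have hK0 : 0 < Kc := by rw [hKc]; exact_mod_cast Fintype.card_pos
  have hE2 : Kc ≤ 2 * (e0 * n.descFactorial (N * 2)) := by
    rw [hKc, he0]
    convert hE1 using 4
  obtain ⟨d1, hd1⟩ : ∃ d1 : ℝ, d1 = n.descFactorial (N * 2) := ⟨_, rfl⟩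
  rw [← hd1] at hE2
  have hd1pos : 0 < d1 := by
    rw [hd1]
    have : 0 < n.descFactorial (N * 2) := Nat.descFactorial_pos.mpr (by omega)
    exact_mod_cast this
  have he0pos : 0 < e0 := by
    by_contra h
    push Not at h
    have : e0 * d1 ≤ 0 := mul_nonpos_of_nonpos_of_nonneg h hd1pos.le
    linarith
  have hEne : E.Nonempty := by
    rw [← card_pos]
    rw [he0] at he0pos
    exact_mod_cast he0pos
  -- the walks which avoid the special path
  have hS : ∀ p : Fin n, (#(E.filter fun v => p ∈ F v ∧ A v p) : ℝ) ≤ e0 / 32 := by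
    intro p
    have h1 := count_p g R N t hg hR σ D0 R0 hR0 p
    have hset : (E.filter fun v => p ∈ F v ∧ A v p) =
        univ.filter fun v : K => (∀ i, g v (D0 i) = R0 i) ∧
      (Function.Injective fun ib : Fin t × Bool => YP σ (g v * σ * (g v)⁻¹) ib p) ∧
      ∀ (ib : Fin t × Bool) (i : Fin N × Bool), R0 i ≠ YP σ (g v * σ * (g v)⁻¹) ib p := by
      ext v
      simp only [E, F, A, mem_filter, mem_univ, true_and]
    rw [← hset] at h1
    obtain ⟨S, hSdef⟩ : ∃ S : ℝ, S = #(E.filter fun v => p ∈ F v ∧ A v p) := ⟨_, rfl⟩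
    rw [← hSdef, ← hKc] at h1
    rw [← hSdef]
    have hS0 : 0 ≤ S := by rw [hSdef]; positivity
    have h2 := descFact_add n (N * 2) (t * 2) hle
    obtain ⟨q, hq⟩ : ∃ q : ℝ, q = ((n - N * 2 - t * 2 : ℕ) : ℝ) := ⟨_, rfl⟩
    have h3 : q ^ (t * 2) * d1 ≤ n.descFactorial (N * 2 + t * 2) := by
      rw [hq, hd1]; exact_mod_cast h2
    have hq1 : (1 - η / 4) * n ≤ q := by
      rw [hq, Nat.sub_sub, Nat.cast_sub hle]
      linarith
    have hq0 : 0 ≤ (1 - η / 4) * (n : ℝ) := mul_nonneg (by linarith) hnpos.le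
    have h4 : ((1 - η / 2) * (n : ℝ) ^ 2) ^ t ≤ q ^ (t * 2) := by
      rw [mul_comm t 2, pow_mul]
      refine pow_le_pow_left₀ (mul_nonneg (by linarith) (by positivity)) ?_ t
      calc (1 - η / 2) * (n : ℝ) ^ 2 ≤ ((1 - η / 4) * n) ^ 2 := by
            rw [mul_pow]
            refine mul_le_mul_of_nonneg_right ?_ (by positivity)
            nlinarith
        _ ≤ q ^ 2 := pow_le_pow_left₀ hq0 hq1 2
    have h5 : (σ.support.card : ℝ) ^ t * (n : ℝ) ^ t ≤
        (1 - η / 2) ^ t * ((1 - η / 2) * (n : ℝ) ^ 2) ^ t := by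
      rw [← mul_pow, ← mul_pow]
      refine pow_le_pow_left₀ (by positivity) ?_ t
      calc (σ.support.card : ℝ) * n ≤ (1 - η) * n * n :=
            mul_le_mul_of_nonneg_right hsupp hnpos.le
        _ = (1 - η) * (n : ℝ) ^ 2 := by ring
        _ ≤ (1 - η / 2) * (1 - η / 2) * (n : ℝ) ^ 2 := by
            refine mul_le_mul_of_nonneg_right ?_ (by positivity)
            nlinarith
        _ = _ := by ring
    obtain ⟨B, hB⟩ : ∃ B : ℝ, B = ((1 - η / 2) * (n : ℝ) ^ 2) ^ t := ⟨_, rfl⟩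
    rw [← hB] at h4 h5
    have hBpos : 0 < B := by
      rw [hB]
      have : 0 < 1 - η / 2 := by linarith
      positivity
    have hβ0 : 0 ≤ (1 - η / 2) ^ t := pow_nonneg (by linarith) t
    have h6 : S * (B * d1) ≤ e0 / 32 * (B * d1) := by
      calc S * (B * d1) ≤ S * (q ^ (t * 2) * d1) :=
            mul_le_mul_of_nonneg_left (mul_le_mul_of_nonneg_right h4 hd1pos.le) hS0
        _ ≤ S * n.descFactorial (N * 2 + t * 2) := mul_le_mul_of_nonneg_left h3 hS0
        _ ≤ (σ.support.card : ℝ) ^ t * (n : ℝ) ^ t * (2 * Kc) := h1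
        _ ≤ ((1 - η / 2) ^ t * B) * (2 * (2 * (e0 * d1))) :=
            mul_le_mul h5 (by linarith) (by positivity) (mul_nonneg hβ0 hBpos.le)
        _ = (4 * (1 - η / 2) ^ t) * (e0 * (B * d1)) := by ring
        _ ≤ 1 / 32 * (e0 * (B * d1)) := mul_le_mul_of_nonneg_right ht (by positivity)
        _ = _ := by ring
    exact le_of_mul_le_mul_right h6 (by positivity)
  -- the walks which meet the special path
  have hH : ∀ v : K, (#(univ.filter fun p => ¬ A v p) : ℝ) ≤ n / 32 := by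
    intro v
    have h1 : (univ.filter fun p => ¬ A v p) ⊆ (univ : Finset (Fin t × Bool)).biUnion fun ib =>
        (univ.image R0).image (YP σ (g v * σ * (g v)⁻¹) ib).symm := by
      intro p hp
      rw [mem_filter] at hp
      have h2 := hp.2
      simp only [A] at h2
      push Not at h2
      obtain ⟨ib, i, h3⟩ := h2
      rw [mem_biUnion]
      refine ⟨ib, mem_univ _, ?_⟩
      rw [mem_image]
      refine ⟨R0 i, mem_image_of_mem _ (mem_univ _), ?_⟩
      rw [h3, Equiv.symm_apply_apply]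
    have h2 : #(univ.filter fun p => ¬ A v p) ≤ t * 2 * (N * 2) := by
      refine (card_le_card h1).trans ?_
      refine (card_biUnion_le_card_mul _ _ (N * 2) fun ib _ => ?_).trans (le_of_eq ?_)
      · refine card_image_le.trans (card_image_le.trans ?_)
        rw [card_univ, hcI]
      · rw [card_univ]
        simp
    have h3 : ((t * 2 * (N * 2) : ℕ) : ℝ) ≤ n / 32 := by
      rw [le_div_iff₀ (by norm_num)]
      have : t * 2 * (N * 2) * 32 ≤ n := by nlinarith
      exact_mod_cast this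
    have h4 : (#(univ.filter fun p => ¬ A v p) : ℝ) ≤ ((t * 2 * (N * 2) : ℕ) : ℝ) := by
      exact_mod_cast h2
    exact h4.trans h3
  -- the average
  have hsum : ∑ v ∈ E, (#(F v) : ℝ) ≤ ∑ _v ∈ E, (n / 16 : ℝ) := by
    have h1 : ∀ v, (#(F v) : ℝ) ≤ #((F v).filter fun p => A v p) + n / 32 := by
      intro v
      have h2 := card_filter_add_card_filter_not (s := F v) (fun p => A v p)
      have h3 : #((F v).filter fun p => ¬ A v p) ≤ #(univ.filter fun p => ¬ A v p) :=
        card_le_card (filter_subset_filter _ (subset_univ _))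
      have h4 : (#((F v).filter fun p => A v p) : ℝ) + #((F v).filter fun p => ¬ A v p) =
          #(F v) := by exact_mod_cast h2
      have h5 : (#((F v).filter fun p => ¬ A v p) : ℝ) ≤ #(univ.filter fun p => ¬ A v p) := by
        exact_mod_cast h3
      have := hH v
      linarith
    have h6 : ∑ v ∈ E, (#((F v).filter fun p => A v p) : ℝ) =
        ∑ p : Fin n, (#(E.filter fun v => p ∈ F v ∧ A v p) : ℝ) := by
      have e1 : ∀ v, (#((F v).filter fun p => A v p) : ℝ) =
          ∑ p : Fin n, if p ∈ F v ∧ A v p then (1 : ℝ) else 0 := by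
        intro v
        rw [sum_boole]
        congr 2
        ext p
        simp only [mem_filter, mem_univ, true_and]
      have e2 : ∀ p, (#(E.filter fun v => p ∈ F v ∧ A v p) : ℝ) =
          ∑ v ∈ E, if p ∈ F v ∧ A v p then (1 : ℝ) else 0 := by
        intro p
        rw [sum_boole]
      rw [sum_congr rfl fun v _ => e1 v, sum_congr rfl fun p _ => e2 p, sum_comm]
    calc ∑ v ∈ E, (#(F v) : ℝ) ≤ ∑ v ∈ E, ((#((F v).filter fun p => A v p) : ℝ) + n / 32) :=
          sum_le_sum fun v _ => h1 v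
      _ = ∑ p : Fin n, (#(E.filter fun v => p ∈ F v ∧ A v p) : ℝ) + e0 * (n / 32) := by
          rw [sum_add_distrib, h6, sum_const, nsmul_eq_mul, he0]
      _ ≤ ∑ _p : Fin n, e0 / 32 + e0 * (n / 32) := by
          have := sum_le_sum (s := univ) fun p _ => hS p
          linarith
      _ = _ := by
          rw [sum_const, sum_const, card_univ, Fintype.card_fin, nsmul_eq_mul, nsmul_eq_mul, ← he0]
          ring
  obtain ⟨v, hv, hv2⟩ := exists_le_of_sum_le hEne hsum
  exact ⟨v, (mem_filter.mp hv).2, hv2⟩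

end

/-- many disjoint 2-cycles and a further point -/
theorem exists_pairs {n : ℕ} (σ : Perm (Fin n)) (hσ : σ * σ = 1) (N : ℕ)
    (h : 2 * N ≤ σ.support.card) (hn : 2 * N < n) : ∃ (a : ℕ → Fin n) (b0 : Fin n),
    (Function.Injective fun jb : Fin N × Bool => if jb.2 then σ (a jb.1) else a jb.1) ∧
      (∀ j < N, σ (a j) ≠ b0) ∧ ∀ j < N, a j ≠ b0 := by
  classical
  have hσσ : ∀ x, σ (σ x) = x := fun x => by
    rw [← Perm.mul_apply, hσ, Perm.one_apply]
  obtain ⟨B, hB, hmax⟩ := Finset.exists_max_image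
    ((σ.support.powerset).filter fun B => ∀ x ∈ B, σ x ∉ B) card
    ⟨∅, by rw [mem_filter]; exact ⟨empty_mem_powerset _, by simp⟩⟩
  rw [mem_filter, mem_powerset] at hB
  obtain ⟨hBs, hBσ⟩ := hB
  have hcov : σ.support ⊆ B ∪ B.image σ := by
    intro x hx
    by_contra hcon
    rw [mem_union, not_or] at hcon
    obtain ⟨h1, h2⟩ := hcon
    have h3 : σ x ∉ B := by
      intro h4
      exact h2 (mem_image.mpr ⟨σ x, h4, hσσ x⟩)
    have h4 := hmax (insert x B) (by
      rw [mem_filter, mem_powerset]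
      refine ⟨insert_subset hx hBs, ?_⟩
      intro y hy
      rw [mem_insert] at hy
      rw [mem_insert, not_or]
      rcases hy with rfl | hy
      · exact ⟨Perm.mem_support.mp hx, h3⟩
      · refine ⟨fun h5 => h2 (mem_image.mpr ⟨y, hy, h5⟩), hBσ y hy⟩)
    rw [card_insert_of_notMem h1] at h4
    omega
  have hcard : N ≤ B.card := by
    have h1 := card_le_card hcov
    have h2 := card_union_le B (B.image σ)
    have h3 : (B.image σ).card ≤ B.card := card_image_le
    omega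
  let e := B.equivFin
  have hn0 : 0 < n := by omega
  let a : ℕ → Fin n := fun j => if hj : j < B.card then (e.symm ⟨j, hj⟩ : Fin n) else ⟨0, hn0⟩
  have haB : ∀ j < N, a j ∈ B := by
    intro j hj
    simp only [a]
    rw [dif_pos (by omega)]
    exact (e.symm _).2
  have hainj : ∀ i < N, ∀ j < N, a i = a j → i = j := by
    intro i hi j hj hij
    simp only [a] at hij
    rw [dif_pos (by omega), dif_pos (by omega)] at hij
    have h1 := e.symm.injective (Subtype.ext hij)
    exact congrArg Fin.val h1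
  have hinj : Function.Injective fun jb : Fin N × Bool => if jb.2 then σ (a jb.1) else a jb.1 := by
    rintro ⟨i, b⟩ ⟨j, c⟩ hij
    have hi := i.2
    have hj := j.2
    cases b <;> cases c
    · simp only [Bool.false_eq_true, if_false] at hij
      have := hainj i i.2 j j.2 hij
      rw [Fin.ext this]
    · simp only [Bool.false_eq_true, if_false, if_true] at hij
      exact absurd (hij ▸ haB i i.2) (hBσ _ (haB j j.2))
    · simp only [Bool.false_eq_true, if_false, if_true] at hij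
      exact absurd (hij ▸ haB j j.2) (hBσ _ (haB i i.2))
    · simp only [if_true] at hij
      have := hainj i i.2 j j.2 (σ.injective hij)
      rw [Fin.ext this]
  obtain ⟨b0, hb0⟩ : ∃ b0, b0 ∉ univ.image fun jb : Fin N × Bool =>
      if jb.2 then σ (a jb.1) else a jb.1 := by
    by_contra hcon
    push Not at hcon
    have h1 : (univ : Finset (Fin n)) ⊆ univ.image fun jb : Fin N × Bool =>
      if jb.2 then σ (a jb.1) else a jb.1 := fun x _ => hcon x
    have h2 := (card_le_card h1).trans card_image_le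
    rw [card_univ, card_univ, Fintype.card_fin, Fintype.card_prod, Fintype.card_fin,
      Fintype.card_bool] at h2
    omega
  refine ⟨a, b0, hinj, ?_, ?_⟩
  · intro j hj h1
    refine hb0 (mem_image.mpr ⟨(⟨j, hj⟩, true), mem_univ _, ?_⟩)
    simpa using h1
  · intro j hj h1
    refine hb0 (mem_image.mpr ⟨(⟨j, hj⟩, false), mem_univ _, ?_⟩)
    simpa using h1

/-- a power of the product of an involution and a conjugate moves few points -/
theorem inv_small (η : ℝ) (hη : 0 < η) (hη1 : η ≤ 1) : ∃ R N : ℕ, 1 ≤ N ∧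
    ∀ᶠ n : ℕ in atTop, ∀ (K : Type) [Fintype K] [Nonempty K] (g : K → Perm (Fin n)), MixR R g →
    ∀ σ : Perm (Fin n), σ * σ = 1 → (n : ℝ) / 4 ≤ σ.support.card →
    (σ.support.card : ℝ) ≤ (1 - η) * n →
    ∃ v, (σ * (g v * σ * (g v)⁻¹)) ^ N ≠ 1 ∧
      (((σ * (g v * σ * (g v)⁻¹)) ^ N).support.card : ℝ) ≤ n / 8 := by
  classical
  obtain ⟨t, ht⟩ : ∃ t : ℕ, 4 * (1 - η / 2) ^ t ≤ 1 / 32 := by
    obtain ⟨t, ht⟩ := exists_pow_lt_of_lt_one (show (0 : ℝ) < 1 / 128 by norm_num)
      (show 1 - η / 2 < 1 by linarith)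
    exact ⟨t, by linarith⟩
  obtain ⟨N, hN⟩ : ∃ N : ℕ, N = (4 * t + 2).factorial := ⟨_, rfl⟩
  have hN1 : 1 ≤ N := by rw [hN]; exact Nat.factorial_pos _
  refine ⟨N * 2 + t * 2, N, hN1, ?_⟩
  filter_upwards [ev_const 1 (((N * 2 + t * 2 : ℕ) : ℝ) / (η / 4)) one_pos,
    eventually_ge_atTop (128 * (t * N) + 8 * N + 1)] with n hn1 hn2
  rw [Real.rpow_one, div_le_iff₀ (by positivity)] at hn1
  intro K _ _ g hg σ hσ hs1 hs2
  have hσσ : ∀ x, σ (σ x) = x := fun x => by
    rw [← Perm.mul_apply, hσ, Perm.one_apply]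
  have hsN : 2 * N ≤ σ.support.card := by
    have h1 : ((8 * N : ℕ) : ℝ) ≤ n := by exact_mod_cast (by omega : 8 * N ≤ n)
    push_cast at h1
    have h2 : ((2 * N : ℕ) : ℝ) ≤ σ.support.card := by push_cast; linarith
    exact_mod_cast h2
  obtain ⟨a, b0, hinj, hb1, hb2⟩ := exists_pairs σ hσ N hsN (by omega)
  obtain ⟨D0, hD0⟩ : ∃ D0 : Fin N × Bool → Fin n, D0 = fun jb =>
    if jb.2 then σ (a jb.1) else a jb.1 := ⟨_, rfl⟩
  obtain ⟨R0, hR0⟩ : ∃ R0 : Fin N × Bool → Fin n, R0 = fun jb =>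
    if jb.2 then a jb.1 else pv σ a b0 jb.1 := ⟨_, rfl⟩
  rw [← hD0] at hinj
  have hDt : ∀ (j : ℕ) (hj : j < N), D0 (⟨j, hj⟩, true) = σ (a j) := fun j hj => by rw [hD0]; simp
  have hDf : ∀ (j : ℕ) (hj : j < N), D0 (⟨j, hj⟩, false) = a j := fun j hj => by rw [hD0]; simp
  have hR0inj : Function.Injective R0 := by
    have hpv : ∀ i < N, ∀ j < N, pv σ a b0 i = pv σ a b0 j → i = j := by
      intro i hi j hj hij
      rcases i with _ | i <;> rcases j with _ | j
      · rfl
      · exact absurd hij.symm (hb1 j (by omega))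
      · exact absurd hij (hb1 i (by omega))
      · have h1 : D0 (⟨i, by omega⟩, true) = D0 (⟨j, by omega⟩, true) := by
          rw [hDt, hDt]; exact hij
        have h2 := congrArg (fun q => (q.1 : ℕ)) (hinj h1)
        simpa using h2
    have hpa : ∀ i < N, ∀ j < N, pv σ a b0 i ≠ a j := by
      intro i hi j hj hij
      rcases i with _ | i
      · exact hb2 j hj hij.symm
      · have h1 : D0 (⟨i, by omega⟩, true) = D0 (⟨j, hj⟩, false) := by
          rw [hDt, hDf]; exact hij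
        have h2 := congrArg Prod.snd (hinj h1)
        simp at h2
    rintro ⟨⟨i, hi⟩, b⟩ ⟨⟨j, hj⟩, c⟩ hij
    rw [hR0] at hij
    cases b <;> cases c
    · simp only [Bool.false_eq_true, if_false] at hij
      have := hpv i hi j hj hij
      subst this
      rfl
    · simp only [Bool.false_eq_true, if_false, if_true] at hij
      exact absurd hij (hpa i hi j hj)
    · simp only [Bool.false_eq_true, if_false, if_true] at hij
      exact absurd hij.symm (hpa j hj i hi)
    · simp only [if_true] at hij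
      have h1 : D0 (⟨i, hi⟩, false) = D0 (⟨j, hj⟩, false) := by rw [hDf, hDf]; exact hij
      have h2 := congrArg (fun q => (q.1 : ℕ)) (hinj h1)
      simp only at h2
      subst h2
      rfl
  obtain ⟨v, hv1, hv2⟩ := exists_good g (N * 2 + t * 2) N t hg le_rfl σ D0 R0 hinj hR0inj η hη hη1
    (by omega) hs2 (by linarith) ht (by omega)
  refine ⟨v, ?_, ?_⟩
  · refine nontriv σ (g v) N hN1 a b0 hb1 ?_
    intro j hj
    have h1 := hv1 (⟨j, hj⟩, false)
    have h2 := hv1 (⟨j, hj⟩, true)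
    rw [hDf, hR0] at h1
    rw [hDt, hR0] at h2
    exact ⟨by simpa using h1, by simpa using h2⟩
  · have hτ : (g v * σ * (g v)⁻¹) * (g v * σ * (g v)⁻¹) = 1 := by
      have h1 : (g v * σ * (g v)⁻¹) * (g v * σ * (g v)⁻¹) = g v * (σ * σ) * (g v)⁻¹ := by
        simp only [mul_assoc, inv_mul_cancel_left]
      rw [h1, hσ, mul_one, mul_inv_cancel]
    obtain ⟨F, hF⟩ : ∃ F : Finset (Fin n), F = univ.filter fun p => Function.Injective
      fun ib : Fin t × Bool => YP σ (g v * σ * (g v)⁻¹) ib p := ⟨_, rfl⟩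
    have hsub : ((σ * (g v * σ * (g v)⁻¹)) ^ N).support ⊆ F ∪ F.image σ := by
      intro p hp
      rw [Perm.mem_support] at hp
      by_contra hcon
      rw [mem_union, not_or] at hcon
      obtain ⟨h1, h2⟩ := hcon
      apply hp
      rw [hN]
      refine short_cycle hσ hτ t p (fun h3 => h1 ?_) (fun h3 => h2 ?_)
      · rw [hF, mem_filter]; exact ⟨mem_univ _, h3⟩
      · rw [mem_image]
        refine ⟨σ p, ?_, hσσ p⟩
        rw [hF, mem_filter]; exact ⟨mem_univ _, h3⟩
    have h1 := card_le_card hsub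
    have h2 := card_union_le F (F.image σ)
    have h3 : (F.image σ).card ≤ F.card := card_image_le
    have h4 : (((σ * (g v * σ * (g v)⁻¹)) ^ N).support.card : ℝ) ≤ 2 * (F.card : ℝ) := by
      exact_mod_cast (by omega : ((σ * (g v * σ * (g v)⁻¹)) ^ N).support.card ≤ 2 * F.card)
    have h5 : (F.card : ℝ) ≤ n / 16 := by
      rw [hF]; exact hv2
    linarith

/-- from an involution with many fixed points to a short word of small support -/
theorem inv_word (η : ℝ) (hη : 0 < η) (hη1 : η ≤ 1) : ∃ R : ℕ, 3 ≤ R ∧ ∀ k : ℕ, 1 ≤ k →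
    ∀ c : ℝ, 0 < c → ∃ C : ℝ, 0 < C ∧ ∀ᶠ n : ℕ in atTop, ∀ (y : Fin k → Alt n), Good1 n R c y →
    ∀ σ : Alt n, σ ≠ 1 → σ * σ = 1 → (sp σ : ℝ) ≤ (1 - η) * n → ∀ L : ℕ, 1 ≤ L → Len y L σ →
    ∃ (σ' : Alt n) (L' : ℕ), σ' ≠ 1 ∧ (sp σ' : ℝ) ≤ (1 / 3 - 1 / 12) * n ∧ 1 ≤ L' ∧
      (L' : ℝ) ≤ C * Real.log n * L ∧ Len y L' σ' := by
  obtain ⟨R, N, hN1, hsm⟩ := inv_small η hη hη1
  refine ⟨max R 3, le_max_right _ _, fun k hk c hc => ?_⟩
  obtain ⟨C1, hC1, hMR⟩ := MIXR R k hk c hc
  refine ⟨N * (2 + 4 * (C1 + 1)) + 1, by positivity, ?_⟩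
  filter_upwards [hsm, hMR, ev_loggt 1, eventually_ge_atTop 2] with n hsm hMR hlog hn
  intro y hy σ hσ1 hσ2 hsp L hL1 hL
  obtain ⟨l, hl⟩ : ∃ l : ℝ, l = Real.log n := ⟨_, rfl⟩
  rw [← hl] at hMR hlog ⊢
  have hl0 : 0 < l := by linarith
  have hLr : (1 : ℝ) ≤ L := by exact_mod_cast hL1
  rcases le_total ((sp σ : ℝ)) (n / 4) with hcase | hcase
  · refine ⟨σ, L, hσ1, by linarith, hL1, ?_, hL⟩
    have h1 : (1 : ℝ) ≤ (N * (2 + 4 * (C1 + 1)) + 1) * l := by
      have : (0 : ℝ) ≤ N * (2 + 4 * (C1 + 1)) := by positivity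
      nlinarith
    calc (L : ℝ) = 1 * L := (one_mul _).symm
      _ ≤ _ := mul_le_mul_of_nonneg_right h1 (by positivity)
  obtain ⟨m, hm⟩ : ∃ m : ℕ, m = ⌈C1 * l⌉₊ := ⟨_, rfl⟩
  have hm1 : C1 * l ≤ m := by rw [hm]; exact Nat.le_ceil _
  have hm2 : (m : ℝ) ≤ (C1 + 1) * l := by
    have := (Nat.ceil_lt_add_one (by positivity : 0 ≤ C1 * l)).le
    rw [← hm] at this
    linarith
  have hmix : MixR R (gx (xl y) m) :=
    hMR y (fun j hj1 hj2 => hy j hj1 (hj2.trans (le_max_left _ _))) m hm1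
  have : Nonempty (Fin (2 * m) → Fin (k + k) × Bool) := ⟨fun _ => (⟨0, by omega⟩, true)⟩
  obtain ⟨v, hv1, hv2⟩ := hsm (Fin (2 * m) → Fin (k + k) × Bool) (gx (xl y) m) hmix
    (σ : Perm (Fin n)) (by rw [← Subgroup.coe_mul, hσ2, Subgroup.coe_one]) hcase hsp
  obtain ⟨h, hh⟩ : ∃ h : Alt n, h = wrd (xl y) v := ⟨_, rfl⟩
  have hcoe : (((σ * (h * σ * h⁻¹)) ^ N : Alt n) : Perm (Fin n)) =
      ((σ : Perm (Fin n)) * (gx (xl y) m v * σ * (gx (xl y) m v)⁻¹)) ^ N := by
    rw [hh]
    simp [gx]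
  have hlh : Len y (2 * m) h := by
    rw [hh]; exact Len_xl y _ (fun i => Len.letter _) (2 * m) v
  have hl1 : Len y (L + (2 * m + L + 2 * m)) (σ * (h * σ * h⁻¹)) :=
    hL.mul ((hlh.mul hL).mul hlh.inv)
  have hl2 : Len y (N * (L + (2 * m + L + 2 * m))) ((σ * (h * σ * h⁻¹)) ^ N) := by
    have h1 := Len.list (y := y) (L := L + (2 * m + L + 2 * m))
      (List.replicate N (σ * (h * σ * h⁻¹))) (by
        intro g hg
        rw [List.eq_of_mem_replicate hg]
        exact hl1)
    rw [List.prod_replicate, List.length_replicate] at h1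
    exact h1
  refine ⟨(σ * (h * σ * h⁻¹)) ^ N, N * (L + (2 * m + L + 2 * m)), ?_, ?_, ?_, ?_, hl2⟩
  · intro hcon
    apply hv1
    rw [← hcoe, hcon, Subgroup.coe_one]
  · unfold sp
    rw [hcoe]
    have hn0 : (0 : ℝ) ≤ n := Nat.cast_nonneg n
    linarith
  · have : 1 * 1 ≤ N * (L + (2 * m + L + 2 * m)) := Nat.mul_le_mul hN1 (by omega)
    omega
  · push_cast
    have h1 : (L : ℝ) + (2 * m + L + 2 * m) ≤ (2 + 4 * (C1 + 1)) * l * L := by
      have h2 : (m : ℝ) ≤ (C1 + 1) * l * L := by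
        refine hm2.trans ?_
        have : 0 ≤ (C1 + 1) * l := by positivity
        nlinarith
      have h3 : (L : ℝ) ≤ l * L := by nlinarith
      calc (L : ℝ) + (2 * m + L + 2 * m) = 2 * L + 4 * m := by ring
        _ ≤ 2 * (l * L) + 4 * ((C1 + 1) * l * L) := by linarith
        _ = _ := by ring
    calc (N : ℝ) * (L + (2 * m + L + 2 * m)) ≤ N * ((2 + 4 * (C1 + 1)) * l * L) :=
          mul_le_mul_of_nonneg_left h1 (by positivity)
      _ = N * (2 + 4 * (C1 + 1)) * (l * L) := by ring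
      _ ≤ (N * (2 + 4 * (C1 + 1)) + 1) * (l * L) := by
          refine mul_le_mul_of_nonneg_right (by linarith) (by positivity)
      _ = _ := by ring

end Q102.AS
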