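import Pool.Agent.H265R2.DM.PAIRMIX
import Pool.Agent.H852R2.DM.CORE
import Pool.Agent.H20R2.RC.FRLOW
import Pool.Agent.H14R2.RC.Asy

/-!
From the gap on the levels `≤ R` to mixing on tuples of at most `R` points, with both bounds.
-/

set_option autoImplicit false

namespace Q102.AS
open RC14 RC852 DM852 DM852.PAIRMIX Finset Filter Equiv

variable {n r a : ℕ}

lemma T_upper' (R : ℕ) (ha : 1 ≤ a) (hn : R + 2 ≤ n) (hr : r ≤ R) (x : Fin a → Alt n) (c : ℝ)
    (hx : Good1 n R c x) (f : Tup r n → ℝ) (hf : ∑ p, f p = 0) :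
    ∑ p, f p * T x f p ≤ (1 - c / (4 * a)) * ∑ p, f p ^ 2 := by
  have h1 : ∀ p, f p * T x f p = (f p ^ 2 + f p * P x f p) / 2 := by
    intro p; unfold T; ring
  simp only [h1]
  rw [← Finset.sum_div, Finset.sum_add_distrib]
  have h2 := FRSCH n R a hn ha x c hx r hr f hf
  have h3 : ∑ p, f p * P x f p ≤ (1 - c / (2 * a)) * ∑ p, f p ^ 2 := h2
  have h4 : c / (2 * a) = 2 * (c / (4 * a)) := by
    have ha' : (0 : ℝ) < a := by exact_mod_cast ha
    field_simp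
    norm_num
  rw [h4] at h3
  linarith

lemma T_contr' (R : ℕ) (ha : 1 ≤ a) (hn : R + 2 ≤ n) (hr : r ≤ R) (x : Fin a → Alt n) (c : ℝ)
    (hx : Good1 n R c x) (hc : 0 < 1 - c / (4 * a)) (f : Tup r n → ℝ) (hf : ∑ p, f p = 0) :
    ∑ p, T x f p ^ 2 ≤ (1 - c / (4 * a)) ^ 2 * ∑ p, f p ^ 2 := by
  obtain ⟨l, hl⟩ : ∃ l : ℝ, l = 1 - c / (4 * a) := ⟨_, rfl⟩
  have hg : ∑ p, T x f p = 0 := by rw [T_sum ha, hf]
  have h1 := T_upper' R ha hn hr x c hx f hf
  have h2 := T_upper' R ha hn hr x c hx (T x f) hg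
  have h3 := T_nonneg ha x fun p => f p - l⁻¹ * T x f p
  rw [T_sub] at h3
  rw [← hl] at h1 h2 hc ⊢
  have e1 : ∑ p, (f p - l⁻¹ * T x f p) * (T x f p - l⁻¹ * T x (T x f) p) =
      ∑ p, f p * T x f p - l⁻¹ * ∑ p, f p * T x (T x f) p - l⁻¹ * ∑ p, T x f p ^ 2 +
        l⁻¹ ^ 2 * ∑ p, T x f p * T x (T x f) p := by
    rw [Finset.mul_sum, Finset.mul_sum, Finset.mul_sum, ← Finset.sum_sub_distrib,
      ← Finset.sum_sub_distrib, ← Finset.sum_add_distrib]
    exact Finset.sum_congr rfl fun p _ => by ring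
  have e2 : ∑ p, f p * T x (T x f) p = ∑ p, T x f p ^ 2 := by
    rw [T_symm x f (T x f)]
    exact Finset.sum_congr rfl fun p _ => by ring
  rw [e1, e2] at h3
  have h4 : l⁻¹ ^ 2 * ∑ p, T x f p * T x (T x f) p ≤ l⁻¹ ^ 2 * (l * ∑ p, T x f p ^ 2) :=
    mul_le_mul_of_nonneg_left h2 (by positivity)
  have h5 : l⁻¹ ^ 2 * (l * ∑ p, T x f p ^ 2) = l⁻¹ * ∑ p, T x f p ^ 2 := by
    field_simp
  have h6 : l⁻¹ * ∑ p, T x f p ^ 2 ≤ ∑ p, f p * T x f p := by linarith
  have h7 : ∑ p, T x f p ^ 2 ≤ l * ∑ p, f p * T x f p := by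
    have := mul_le_mul_of_nonneg_left h6 hc.le
    rwa [← mul_assoc, mul_inv_cancel₀ hc.ne', one_mul] at this
  calc ∑ p, T x f p ^ 2 ≤ l * ∑ p, f p * T x f p := h7
    _ ≤ l * (l * ∑ p, f p ^ 2) := mul_le_mul_of_nonneg_left h1 hc.le
    _ = l ^ 2 * ∑ p, f p ^ 2 := by ring

lemma T_iter' (R : ℕ) (ha : 1 ≤ a) (hn : R + 2 ≤ n) (hr : r ≤ R) (x : Fin a → Alt n) (c : ℝ)
    (hx : Good1 n R c x) (hc : 0 < 1 - c / (4 * a)) (M : ℕ) : ∀ (f : Tup r n → ℝ),
    ∑ p, f p = 0 → ∑ p, ((T x)^[M] f) p ^ 2 ≤ ((1 - c / (4 * a)) ^ M) ^ 2 * ∑ p, f p ^ 2 := by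
  induction M with
  | zero => intro f _; simp
  | succ M ih =>
    intro f hf
    rw [Function.iterate_succ_apply]
    refine le_trans (ih (T x f) (by rw [T_sum ha, hf])) ?_
    have h1 := T_contr' R ha hn hr x c hx hc f hf
    calc ((1 - c / (4 * a)) ^ M) ^ 2 * ∑ p, T x f p ^ 2 ≤
        ((1 - c / (4 * a)) ^ M) ^ 2 * ((1 - c / (4 * a)) ^ 2 * ∑ p, f p ^ 2) :=
          mul_le_mul_of_nonneg_left h1 (by positivity)
      _ = _ := by rw [pow_succ]; ring

/-- mixing on tuples -/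
lemma mixing' (R : ℕ) (ha : 1 ≤ a) (hn : R + 2 ≤ n) (hr : r ≤ R) (x : Fin a → Alt n) (c : ℝ)
    (hx : Good1 n R c x) (hc : 0 < 1 - c / (4 * a)) (M : ℕ) (p q : Tup r n) :
    |(#{v : Fin M → Fin (a + a) × Bool | mv ((wrd (xl x) v : Alt n) : Perm (Fin n)) p = q} : ℝ) -
      (Fintype.card (Fin M → Fin (a + a) × Bool) : ℝ) / Fintype.card (Tup r n)| ≤
      (1 - c / (4 * a)) ^ M * Fintype.card (Fin M → Fin (a + a) × Bool) := by
  classical
  have hN : (0 : ℝ) < Fintype.card (Tup r n) := by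
    have : Nonempty (Tup r n) := ⟨p⟩
    exact_mod_cast Fintype.card_pos
  obtain ⟨N, hNe⟩ : ∃ N : ℝ, N = Fintype.card (Tup r n) := ⟨_, rfl⟩
  rw [← hNe] at hN ⊢
  have hK : (Fintype.card (Fin M → Fin (a + a) × Bool) : ℝ) = (2 * (a + a)) ^ M := by
    simp [mul_comm]
  have hK0 : (0 : ℝ) ≤ (2 * (a + a)) ^ M := by positivity
  set f : Tup r n → ℝ := fun u => (if u = q then 1 else 0) - 1 / N with hf
  have hf0 : ∑ u, f u = 0 := by
    rw [hf, Finset.sum_sub_distrib, Finset.sum_ite_eq' Finset.univ q, if_pos (Finset.mem_univ q),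
      Finset.sum_const, Finset.card_univ, nsmul_eq_mul, ← hNe]
    field_simp
    norm_num
  have hf2 : ∑ u, f u ^ 2 ≤ 1 := by
    have e1 : ∀ u, f u ^ 2 = (if u = q then 1 - 2 / N else 0) + 1 / N ^ 2 := by
      intro u
      simp only [hf]
      split_ifs
      · field_simp; ring
      · field_simp; ring
    simp only [e1]
    rw [Finset.sum_add_distrib, Finset.sum_ite_eq' Finset.univ q, if_pos (Finset.mem_univ q),
      Finset.sum_const, Finset.card_univ, nsmul_eq_mul, ← hNe]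
    have e2 : 1 - 2 / N + N * (1 / N ^ 2) = 1 - 1 / N := by field_simp; ring
    rw [e2]
    have : 0 < 1 / N := by positivity
    linarith
  have h1 := words ha x M f p
  have h2 : ∑ v : Fin M → Fin (a + a) × Bool, f (mv ((wrd (xl x) v : Alt n) : Perm (Fin n)) p) =
      (#{v : Fin M → Fin (a + a) × Bool | mv ((wrd (xl x) v : Alt n) : Perm (Fin n)) p = q} : ℝ) -
      (Fintype.card (Fin M → Fin (a + a) × Bool) : ℝ) / N := by
    simp only [hf]
    rw [Finset.sum_sub_distrib, Finset.sum_boole, Finset.sum_const, Finset.card_univ,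
      nsmul_eq_mul]
    ring
  rw [← h2, h1, hK, abs_mul, abs_of_nonneg hK0, mul_comm]
  apply mul_le_mul_of_nonneg_right _ hK0
  have h3 := T_iter' R ha hn hr x c hx hc M f hf0
  have h4 : ((T x)^[M] f) p ^ 2 ≤ ∑ u, ((T x)^[M] f) u ^ 2 :=
    Finset.single_le_sum (f := fun u => ((T x)^[M] f) u ^ 2) (fun u _ => sq_nonneg _)
      (Finset.mem_univ p)
  have h5 : ((T x)^[M] f) p ^ 2 ≤ ((1 - c / (4 * a)) ^ M) ^ 2 := by
    refine le_trans (le_trans h4 h3) ?_
    have : ((1 - c / (4 * a)) ^ M) ^ 2 * ∑ p, f p ^ 2 ≤ ((1 - c / (4 * a)) ^ M) ^ 2 * 1 :=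
      mul_le_mul_of_nonneg_left hf2 (by positivity)
    linarith
  exact abs_le_of_sq_le_sq h5 (by positivity)

/-- the family `g` moves every list of at most `R` points to every other one with probability
uniform up to a factor 2 -/
def MixR (R : ℕ) {n : ℕ} {K : Type} [Fintype K] (g : K → Perm (Fin n)) : Prop :=
  ∀ (ι : Type) [Fintype ι], Fintype.card ι ≤ R → ∀ y z : ι → Fin n, Function.Injective y →
    Function.Injective z →
    (#{v | ∀ i, g v (y i) = z i} : ℝ) * n.descFactorial (Fintype.card ι) ≤ 2 * Fintype.card K ∧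
    (Fintype.card K : ℝ) ≤ 2 * ((#{v | ∀ i, g v (y i) = z i} : ℝ) *
      n.descFactorial (Fintype.card ι))

theorem MIXR (R a : ℕ) (ha : 1 ≤ a) (c : ℝ) (hc : 0 < c) : ∃ C : ℝ, 0 < C ∧
    ∀ᶠ n : ℕ in atTop, ∀ x : Fin a → Alt n, Good1 n R c x → ∀ m : ℕ, C * Real.log n ≤ m →
      MixR R (gx (xl x) m) := by
  have ha' : (1 : ℝ) ≤ a := by exact_mod_cast ha
  obtain ⟨d, hd, hd0, hd1, hdc⟩ : ∃ d : ℝ, d = min c 1 ∧ 0 < d ∧ d ≤ 1 ∧ d ≤ c :=
    ⟨_, rfl, lt_min hc one_pos, min_le_right _ _, min_le_left _ _⟩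
  have hq : d / (4 * a) ≤ 1 / 4 := by
    rw [div_le_div_iff₀ (by positivity) (by positivity)]
    nlinarith
  have hl : 0 < 1 - d / (4 * a) := by linarith
  refine ⟨2 * a * (R + 1) / d, by positivity, ?_⟩
  filter_upwards [eventually_ge_atTop (R + 4)] with n hn x hx m hm
  have hn' : (4 : ℝ) ≤ n := by exact_mod_cast (by omega : 4 ≤ n)
  have hn0 : (0 : ℝ) < n := by linarith
  have hx' : Good1 n R d x := by
    intro j hj1 hj2 v hv
    refine le_trans ?_ (hx j hj1 hj2 v hv)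
    exact mul_le_mul_of_nonneg_right hdc (by positivity)
  have hpow : (1 - d / (4 * a)) ^ (2 * m) ≤ 1 / (n : ℝ) ^ (R + 1) := by
    have h1 : (1 - d / (4 * a)) ^ (2 * m) ≤ Real.exp (-(d / (4 * a))) ^ (2 * m) := by
      apply pow_le_pow_left₀ hl.le
      have := Real.add_one_le_exp (-(d / (4 * a)))
      linarith
    refine le_trans h1 ?_
    rw [← Real.exp_nat_mul]
    have h2 : (1 : ℝ) / (n : ℝ) ^ (R + 1) = Real.exp (-(((R + 1 : ℕ) : ℝ) * Real.log n)) := by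
      rw [Real.exp_neg, Real.exp_nat_mul, Real.exp_log (by linarith), one_div]
    rw [h2]
    apply Real.exp_le_exp.2
    push_cast
    have h3 : ((R : ℝ) + 1) * Real.log n =
        2 * (2 * a * (R + 1) / d * Real.log n) * (d / (4 * a)) := by
      field_simp
      ring
    rw [h3]
    have h4 : 2 * (2 * a * (R + 1) / d * Real.log n) * (d / (4 * a)) ≤ 2 * m * (d / (4 * a)) := by
      apply mul_le_mul_of_nonneg_right _ (by positivity)
      linarith
    linarith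
  have hK0 : (0 : ℝ) ≤ Fintype.card (Fin (2 * m) → Fin (a + a) × Bool) := by positivity
  intro ι _ hι y z hy hz
  obtain ⟨e⟩ : Nonempty (Fin (Fintype.card ι) ≃ ι) := ⟨(Fintype.equivFin ι).symm⟩
  obtain ⟨p, hp⟩ : ∃ p : Tup (Fintype.card ι) n, p = ⟨fun i => y (e i), hy.comp e.injective⟩ :=
    ⟨_, rfl⟩
  obtain ⟨q, hq'⟩ : ∃ q : Tup (Fintype.card ι) n, q = ⟨fun i => z (e i), hz.comp e.injective⟩ :=
    ⟨_, rfl⟩
  have h1 := mixing' R ha (by omega) hι x d hx' hl (2 * m) p q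
  have hcard : (Fintype.card (Tup (Fintype.card ι) n) : ℝ) = n.descFactorial (Fintype.card ι) := by
    rw [Fintype.card_embedding_eq, Fintype.card_fin, Fintype.card_fin]
  have hset : (Finset.univ.filter fun v : Fin (2 * m) → Fin (a + a) × Bool =>
      mv ((wrd (xl x) v : Alt n) : Perm (Fin n)) p = q) =
      Finset.univ.filter fun v => ∀ i, gx (xl x) m v (y i) = z i := by
    ext v
    simp only [Finset.mem_filter, Finset.mem_univ, true_and]
    constructor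
    · intro h i
      have e1 := DFunLike.congr_fun h (e.symm i)
      rw [hp, hq'] at e1
      simpa [gx] using e1
    · intro h
      refine DFunLike.ext _ _ fun i => ?_
      rw [hp, hq']
      exact h (e i)
  rw [hset, hcard] at h1
  obtain ⟨D, hD⟩ : ∃ D : ℝ, D = n.descFactorial (Fintype.card ι) := ⟨_, rfl⟩
  obtain ⟨Kc, hKc⟩ : ∃ Kc : ℝ, Kc = Fintype.card (Fin (2 * m) → Fin (a + a) × Bool) := ⟨_, rfl⟩
  rw [← hD, ← hKc] at h1 ⊢
  rw [← hKc] at hK0
  have hD0 : 0 < D := by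
    rw [hD]
    have : 0 < n.descFactorial (Fintype.card ι) := Nat.descFactorial_pos.mpr (by omega)
    exact_mod_cast this
  have hDn : D ≤ (n : ℝ) ^ R := by
    have h2 : n.descFactorial (Fintype.card ι) ≤ n ^ Fintype.card ι := Nat.descFactorial_le_pow n _
    have h3 : n ^ Fintype.card ι ≤ n ^ R := Nat.pow_le_pow_right (by omega) hι
    rw [hD]
    exact_mod_cast h2.trans h3
  have h2 : (1 - d / (4 * a)) ^ (2 * m) * Kc * D ≤ 1 / 2 * Kc := by
    have h3 : (1 - d / (4 * a)) ^ (2 * m) * D ≤ 1 / 2 := by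
      calc (1 - d / (4 * a)) ^ (2 * m) * D ≤ 1 / (n : ℝ) ^ (R + 1) * (n : ℝ) ^ R :=
            mul_le_mul hpow hDn hD0.le (by positivity)
        _ = 1 / n := by rw [pow_succ]; field_simp
        _ ≤ 1 / 2 := one_div_le_one_div_of_le (by norm_num) (by linarith)
    calc _ = ((1 - d / (4 * a)) ^ (2 * m) * D) * Kc := by ring
      _ ≤ _ := mul_le_mul_of_nonneg_right h3 hK0
  obtain ⟨S, hS⟩ : ∃ S : ℝ, S = #{v | ∀ i, gx (xl x) m v (y i) = z i} := ⟨_, rfl⟩
  rw [← hS] at h1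
  have h3 := abs_le.1 h1
  have h4 : Kc / D * D = Kc := by field_simp
  have h5 := mul_le_mul_of_nonneg_right h3.1 hD0.le
  have h6 := mul_le_mul_of_nonneg_right h3.2 hD0.le
  have e1 : (#{v | ∀ i, gx (xl x) m v (y i) = z i} : ℝ) = S := hS.symm
  constructor
  · convert (show S * D ≤ 2 * Kc by nlinarith) using 3
  · convert (show Kc ≤ 2 * (S * D) by nlinarith) using 4

end Q102.AS
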