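import Pool.Agent.Q102.AS.Dim
import Pool.Agent.H20R2.RC.FRV
import Pool.Agent.H20R2.RC.FR
import Pool.Agent.H14R2.RC.R1

/-!
From the gap for functions on tuples to a gap for all unitary representations of small dimension.
-/

set_option autoImplicit false

namespace Q102.AS
open scoped InnerProductSpace
open RC14 Finset

section
variable {V : Type} [NormedAddCommGroup V] [InnerProductSpace ℂ V]

/-- the vectors invariant under the pointwise stabiliser of `K` -/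
def FixK {n : ℕ} (ρ : Alt n →* (V ≃ₗᵢ[ℂ] V)) (K : Finset (Fin n)) (u : V) : Prop :=
  ∀ h : Alt n, (∀ a ∈ K, (h : Equiv.Perm (Fin n)) a = a) → ρ h u = u

/-- the vectors orthogonal to all translates of the vectors invariant under the stabiliser of some
`≤ m` points -/
def Hi {n : ℕ} (m : ℕ) (ρ : Alt n →* (V ≃ₗᵢ[ℂ] V)) : Submodule ℂ V where
  carrier := {v | ∀ K : Finset (Fin n), K.card ≤ m → ∀ u, FixK ρ K u → ∀ g, ⟪ρ g u, v⟫_ℂ = 0}
  zero_mem' := by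
    intro K _ u _ g
    rw [inner_zero_right]
  add_mem' := by
    intro a b ha hb K hK u hu g
    rw [inner_add_right, ha K hK u hu g, hb K hK u hu g, add_zero]
  smul_mem' := by
    intro c a ha K hK u hu g
    rw [inner_smul_right, ha K hK u hu g, mul_zero]

lemma Hi_inv {n : ℕ} (m : ℕ) (ρ : Alt n →* (V ≃ₗᵢ[ℂ] V)) : Inv ρ (Hi m ρ) := by
  intro g v hv K hK u hu h
  have h1 := hv K hK u hu (g⁻¹ * h)
  rw [map_mul] at h1
  have h2 : ⟪ρ h u, ρ g v⟫_ℂ = ⟪ρ g⁻¹ (ρ h u), v⟫_ℂ := by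
    rw [FR.inner_rho ρ g⁻¹, inv_inv]
  rw [h2]
  exact h1

/-- in small dimension there are no vectors of high level -/
theorem Hi_bot [FiniteDimensional ℂ V] {n m : ℕ} (ρ : Alt n →* (V ≃ₗᵢ[ℂ] V))
    (hd : Module.finrank ℂ V < 2 ^ (m / 3)) (v : V) (hv : v ∈ Hi m ρ) : v = 0 := by
  by_contra hv0
  have h1 := dim_lower n m (res ρ (Hi m ρ) (Hi_inv m ρ)) ⟨⟨v, hv⟩, fun h => hv0 (by
    exact congrArg Subtype.val h)⟩ (by
    rintro K hK ⟨w, hw⟩ hinv
    have hfix : FixK ρ K w := by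
      intro h hh
      have := congrArg Subtype.val (hinv h hh)
      simpa using this
    have h2 := hw K hK w hfix 1
    rw [map_one] at h2
    have h3 : ⟪w, w⟫_ℂ = 0 := h2
    rw [inner_self_eq_zero] at h3
    exact Subtype.ext h3)
  have h2 : Module.finrank ℂ (Hi m ρ) ≤ Module.finrank ℂ V := Submodule.finrank_le _
  omega

/-- an element of `A_n` moving `κ` to `a` -/
noncomputable def ga {n j : ℕ} (hj : j + 2 ≤ n) (κ a : Tup j n) : Alt n := (TRANS hj κ a).choose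

lemma ga_spec {n j : ℕ} (hj : j + 2 ≤ n) (κ a : Tup j n) :
    mv (ga hj κ a : Equiv.Perm (Fin n)) κ = a := (TRANS hj κ a).choose_spec

/-- the equivariant map to the functions on `j`-tuples -/
noncomputable def TT {n j : ℕ} (ρ : Alt n →* (V ≃ₗᵢ[ℂ] V)) (hj : j + 2 ≤ n) (κ : Tup j n) (u : V) :
    V →ₗ[ℂ] RC14.V j n where
  toFun w := WithLp.toLp 2 fun a => ⟪ρ (ga hj κ a) u, w⟫_ℂ
  map_add' a b := by
    ext x
    simp
  map_smul' c a := by
    ext x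
    simp

lemma TT_apply {n j : ℕ} (ρ : Alt n →* (V ≃ₗᵢ[ℂ] V)) (hj : j + 2 ≤ n) (κ : Tup j n) (u w : V)
    (a : Tup j n) : TT ρ hj κ u w a = ⟪ρ (ga hj κ a) u, w⟫_ℂ := rfl

/-- the value does not depend on the choice of the element -/
lemma fix_eq {n j : ℕ} (ρ : Alt n →* (V ≃ₗᵢ[ℂ] V)) (κ : Tup j n) (u : V)
    (hu : FixK ρ (univ.map κ) u) (g g' : Alt n)
    (h : mv (g : Equiv.Perm (Fin n)) κ = mv (g' : Equiv.Perm (Fin n)) κ) : ρ g u = ρ g' u := by
  have h1 : ρ (g'⁻¹ * g) u = u := by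
    apply hu
    intro a ha
    rw [mem_map] at ha
    obtain ⟨i, -, rfl⟩ := ha
    have h2 := congrArg (fun f : Tup j n => f i) h
    simp only [mv_apply] at h2
    rw [Subgroup.coe_mul, Equiv.Perm.mul_apply, h2, InvMemClass.coe_inv]
    exact (g' : Equiv.Perm (Fin n)).symm_apply_apply _
  rw [map_mul] at h1
  have h3 : ρ g'⁻¹ (ρ g u) = u := h1
  calc ρ g u = ρ g' (ρ g'⁻¹ (ρ g u)) := by
        rw [map_inv]
        exact ((ρ g').apply_symm_apply (ρ g u)).symm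
    _ = ρ g' u := by rw [h3]

lemma TT_equiv {n j : ℕ} (ρ : Alt n →* (V ≃ₗᵢ[ℂ] V)) (hj : j + 2 ≤ n) (κ : Tup j n) (u : V)
    (hu : FixK ρ (univ.map κ) u) (h : Alt n) (w : V) :
    TT ρ hj κ u (ρ h w) = repA j n h (TT ρ hj κ u w) := by
  ext a
  rw [TT_apply, repA_apply, TT_apply]
  have h1 : ρ (ga hj κ (mv (h : Equiv.Perm (Fin n))⁻¹ a)) u = ρ (h⁻¹ * ga hj κ a) u := by
    apply fix_eq ρ κ u hu
    rw [ga_spec, Subgroup.coe_mul, mv_mul, ga_spec]
    rfl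
  rw [h1, map_mul]
  show ⟪ρ (ga hj κ a) u, ρ h w⟫_ℂ = ⟪ρ h⁻¹ (ρ (ga hj κ a) u), w⟫_ℂ
  rw [FR.inner_rho ρ h⁻¹, inv_inv]

/-- the sum of the values is an inner product with an invariant vector -/
lemma TT_sum {n j : ℕ} (ρ : Alt n →* (V ≃ₗᵢ[ℂ] V)) (hj : j + 2 ≤ n) (κ : Tup j n) (u : V)
    (hu : FixK ρ (univ.map κ) u) (w : V)
    (hw : ∀ z : V, (∀ g, ρ g z = z) → ⟪z, w⟫_ℂ = 0) : ∑ a, TT ρ hj κ u w a = 0 := by
  simp only [TT_apply]
  rw [← sum_inner]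
  apply hw
  intro g
  rw [map_sum]
  refine Eq.trans ?_ (Equiv.sum_comp (mvE (g : Equiv.Perm (Fin n))) fun a => ρ (ga hj κ a) u)
  refine Finset.sum_congr rfl fun a _ => ?_
  have h1 : ρ (ga hj κ (mv (g : Equiv.Perm (Fin n)) a)) u = ρ (g * ga hj κ a) u := by
    apply fix_eq ρ κ u hu
    rw [ga_spec, Subgroup.coe_mul, mv_mul, ga_spec]
  show ρ g (ρ (ga hj κ a) u) = ρ (ga hj κ (mv (g : Equiv.Perm (Fin n)) a)) u
  rw [h1, map_mul]
  rfl

/-- the vectors orthogonal to the invariant ones -/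
def Orth {n : ℕ} (ρ : Alt n →* (V ≃ₗᵢ[ℂ] V)) : Submodule ℂ V where
  carrier := {v | ∀ z : V, (∀ g, ρ g z = z) → ⟪z, v⟫_ℂ = 0}
  zero_mem' := by
    intro z _
    rw [inner_zero_right]
  add_mem' := by
    intro a b ha hb z hz
    rw [inner_add_right, ha z hz, hb z hz, add_zero]
  smul_mem' := by
    intro c a ha z hz
    rw [inner_smul_right, ha z hz, mul_zero]

lemma Orth_inv {n : ℕ} (ρ : Alt n →* (V ≃ₗᵢ[ℂ] V)) : Inv ρ (Orth ρ) := by
  intro g v hv z hz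
  have h2 : ⟪z, ρ g v⟫_ℂ = ⟪ρ g⁻¹ z, v⟫_ℂ := by
    rw [FR.inner_rho ρ g⁻¹, inv_inv]
  rw [h2, hz]
  exact hv z hz

/-- the gap for representations of small dimension -/
theorem rep_gap [FiniteDimensional ℂ V] (n m k : ℕ) (hm : m + 2 ≤ n) (x : Fin k → Alt n) (c : ℝ)
    (h1 : Good1 n m c x) (ρ : Alt n →* (V ≃ₗᵢ[ℂ] V))
    (hd : Module.finrank ℂ V < 2 ^ (m / 3)) (f : V)
    (hf : ∀ z : V, (∀ g, ρ g z = z) → ⟪z, f⟫_ℂ = 0) : c * ‖f‖ ^ 2 ≤ En ρ x f := by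
  classical
  set M : Submodule ℂ V := Orth ρ with hMdef
  have hM : Inv ρ M := Orth_inv ρ
  have hL : ∀ v ∈ M, FR.Lap ρ x v ∈ M := by
    intro v hv
    rw [FR.Lap_apply]
    exact M.sum_mem fun i _ => M.sub_mem (M.sub_mem (M.smul_mem _ hv) (hM _ _ hv)) (hM _ _ hv)
  have hsym := (FR.Lap_sym ρ x).restrict_invariant hL
  have key := FR.sym_lower _ hsym c ?_ ⟨f, hf⟩
  · rw [FR.En_eq]
    exact key
  rintro μ ⟨v, hv⟩ hv0 hμ
  have hv0' : v ≠ 0 := fun h => hv0 (by simpa using h)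
  have hμ' : FR.Lap ρ x v = (μ : ℂ) • v := congrArg Subtype.val hμ
  -- `v` is not of high level
  have hnot : v ∉ Hi m ρ := fun h => hv0' (Hi_bot ρ hd v h)
  have hex : ∃ K : Finset (Fin n), K.card ≤ m ∧ ∃ u, FixK ρ K u ∧ ∃ g, ⟪ρ g u, v⟫_ℂ ≠ 0 := by
    by_contra hcon
    push Not at hcon
    exact hnot fun K hK u hu g => hcon K hK u hu g
  obtain ⟨K, hK, u, hu, g, hg⟩ := hex
  obtain ⟨j, hj⟩ : ∃ j, j = K.card := ⟨_, rfl⟩
  let κ : Tup j n := ⟨K.orderEmbOfFin hj.symm, (K.orderEmbOfFin hj.symm).injective⟩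
  have hKκ : univ.map κ = K := by
    ext a
    rw [mem_map]
    have hr : Set.range (K.orderEmbOfFin hj.symm) = K := Finset.range_orderEmbOfFin K hj.symm
    constructor
    · rintro ⟨i, -, rfl⟩
      have : (K.orderEmbOfFin hj.symm) i ∈ (K : Set (Fin n)) := by rw [← hr]; exact ⟨i, rfl⟩
      exact this
    · intro ha
      have : a ∈ Set.range (K.orderEmbOfFin hj.symm) := by rw [hr]; exact ha
      obtain ⟨i, hi⟩ := this
      exact ⟨i, mem_univ _, hi⟩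
  have hu' : FixK ρ (univ.map κ) u := by rw [hKκ]; exact hu
  have hjn : j + 2 ≤ n := by omega
  set F : RC14.V j n := TT ρ hjn κ u v with hF
  have hF0 : F ≠ 0 := by
    intro h
    apply hg
    have h2 := congrArg (fun G : RC14.V j n => G (mv (g : Equiv.Perm (Fin n)) κ)) h
    have h3 : TT ρ hjn κ u v (mv (g : Equiv.Perm (Fin n)) κ) = 0 := h2
    rw [TT_apply, fix_eq ρ κ u hu' (ga hjn κ (mv (g : Equiv.Perm (Fin n)) κ)) g
      (ga_spec hjn κ _)] at h3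
    exact h3
  have hFsum : ∑ a, F a = 0 := TT_sum ρ hjn κ u hu' v hv
  have hgap := FRV n j k hjn x c (fun i hi1 hi2 => h1 i hi1 (by omega)) F hFsum
  have hLF : FR.Lap (repA j n) x F = (μ : ℂ) • F := by
    have h2 : TT ρ hjn κ u (FR.Lap ρ x v) = FR.Lap (repA j n) x F := by
      rw [FR.Lap_apply, FR.Lap_apply, map_sum]
      refine Finset.sum_congr rfl fun i _ => ?_
      rw [map_sub, map_sub, map_smul, TT_equiv ρ hjn κ u hu', TT_equiv ρ hjn κ u hu']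
    rw [← h2, hμ', map_smul]
  have hEnF : En (repA j n) x F = μ * ‖F‖ ^ 2 := by
    rw [FR.En_eq, hLF, inner_smul_left, inner_self_eq_norm_sq_to_K, Complex.conj_ofReal,
      Complex.re_ofReal_mul]
    congr 1
    exact_mod_cast rfl
  rw [hEnF] at hgap
  have hpos : 0 < ‖F‖ := norm_pos_iff.mpr hF0
  exact le_of_mul_le_mul_right hgap (by positivity)

end

end Q102.AS
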