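import Pool.Agent.Q102.AS.Rep
import Pool.Agent.H375R2.RC.DECOMP

/-!
All unitary representations with irreducible subspaces of small dimension; Schreier graphs.
-/

set_option autoImplicit false

namespace Q102.AS
open scoped InnerProductSpace
open RC14 Finset

section
variable {V : Type} [NormedAddCommGroup V] [InnerProductSpace ℂ V]

/-- the gap for representations all of whose irreducible subspaces have small dimension -/
theorem rep_gap2 [FiniteDimensional ℂ V] (n m k : ℕ) (hm : m + 2 ≤ n) (x : Fin k → Alt n) (c : ℝ)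
    (h1 : Good1 n m c x) (ρ : Alt n →* (V ≃ₗᵢ[ℂ] V))
    (hd : ∀ W : Submodule ℂ V, Irr ρ W → Module.finrank ℂ W < 2 ^ (m / 3)) (f : V)
    (hf : ∀ z : V, (∀ g, ρ g z = z) → ⟪z, f⟫_ℂ = 0) : c * ‖f‖ ^ 2 ≤ En ρ x f := by
  classical
  obtain ⟨N, W, -, hW, hdec⟩ := DECOMP ρ (Orth ρ) (Orth_inv ρ)
  have key := hdec k x (fun _ => 1) c (fun _ => zero_le_one) (by
    intro i u hu
    obtain ⟨hirr, hle⟩ := hW i
    have h2 := rep_gap n m k hm x c h1 (res ρ (W i) hirr.2.1) (hd _ hirr) ⟨u, hu⟩ (by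
      rintro ⟨z, hz⟩ hinv
      have hz1 : ∀ g, ρ g z = z := by
        intro g
        have := congrArg Subtype.val (hinv g)
        simpa using this
      have hz2 : ⟪z, z⟫_ℂ = 0 := hle hz z hz1
      rw [inner_self_eq_zero] at hz2
      have : (⟨z, hz⟩ : W i) = 0 := Subtype.ext hz2
      rw [this, inner_zero_left])
    refine h2.trans (le_of_eq ?_)
    unfold En
    refine Finset.sum_congr rfl fun t _ => ?_
    rw [one_mul]
    rfl) f hf
  refine key.trans (le_of_eq ?_)
  unfold En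
  refine Finset.sum_congr rfl fun t _ => ?_
  rw [one_mul]

end

section
variable {n : ℕ} (X : Type) [Fintype X] [MulAction (Alt n) X]

/-- the permutation representation on the functions on `X` -/
noncomputable def repX : Alt n →* (EuclideanSpace ℂ X ≃ₗᵢ[ℂ] EuclideanSpace ℂ X) where
  toFun g := LinearIsometryEquiv.piLpCongrLeft 2 ℂ ℂ (MulAction.toPerm g)
  map_one' := by
    ext f a
    simp [LinearIsometryEquiv.piLpCongrLeft_apply, Equiv.piCongrLeft', MulAction.toPerm]
  map_mul' g h := by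
    ext f a
    simp [LinearIsometryEquiv.piLpCongrLeft_apply, Equiv.piCongrLeft', MulAction.toPerm, mul_smul]

lemma repX_apply (g : Alt n) (f : EuclideanSpace ℂ X) (a : X) : repX X g f a = f (g⁻¹ • a) := by
  simp [repX, LinearIsometryEquiv.piLpCongrLeft_apply, Equiv.piCongrLeft', MulAction.toPerm]

/-- the averaging operator of the Schreier graph of `x_1, …, x_k` on `X` -/
noncomputable def schreier {k : ℕ} {X : Type} [MulAction (Alt n) X] (x : Fin k → Alt n)
    (f : X → ℝ) (a : X) : ℝ :=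
  (∑ i, (f (x i • a) + f ((x i)⁻¹ • a))) / (2 * k)

theorem schreier_gap [MulAction.IsPretransitive (Alt n) X] (m k : ℕ) (hk : 1 ≤ k) (hm : m + 2 ≤ n)
    (x : Fin k → Alt n) (c : ℝ) (h1 : Good1 n m c x) (hX : Fintype.card X < 2 ^ (m / 3))
    (f : X → ℝ) (hf : ∑ a, f a = 0) :
    ∑ a, f a * schreier x f a ≤ (1 - c / (2 * k)) * ∑ a, f a ^ 2 := by
  classical
  have hk0 : (0 : ℝ) < k := by exact_mod_cast hk
  obtain ⟨F, hF⟩ : ∃ F : EuclideanSpace ℂ X, F = WithLp.toLp 2 fun a => (f a : ℂ) := ⟨_, rfl⟩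
  have hFa : ∀ a, F a = (f a : ℂ) := fun a => by rw [hF]
  have hgap := rep_gap n m k hm x c h1 (repX X) (by
    rw [finrank_euclideanSpace]; exact hX) F (by
    intro z hz
    have hconst : ∀ a b : X, z a = z b := by
      intro a b
      obtain ⟨g, hg⟩ := MulAction.exists_smul_eq (Alt n) a b
      have h2 := congrArg (fun G : EuclideanSpace ℂ X => G b) (hz g)
      simp only at h2
      rw [repX_apply, ← hg, inv_smul_smul] at h2
      rw [h2, hg]
    rw [PiLp.inner_apply]
    rcases isEmpty_or_nonempty X with he | ⟨⟨a0⟩⟩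
    · simp
    · have h3 : ∀ a, ⟪z a, F a⟫_ℂ = (starRingEnd ℂ) (z a0) * (f a : ℂ) := by
        intro a
        rw [hFa, hconst a a0]
        simp [mul_comm]
      rw [Finset.sum_congr rfl fun a _ => h3 a, ← Finset.mul_sum, ← Complex.ofReal_sum, hf]
      simp)
  have hnorm : ‖F‖ ^ 2 = ∑ a, f a ^ 2 := by
    rw [EuclideanSpace.norm_sq_eq]
    refine Finset.sum_congr rfl fun a _ => ?_
    rw [hFa, Complex.norm_real, Real.norm_eq_abs, sq_abs]
  have hEn : En (repX X) x F = ∑ i, ∑ a, (f ((x i)⁻¹ • a) - f a) ^ 2 := by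
    unfold En
    refine Finset.sum_congr rfl fun i _ => ?_
    rw [EuclideanSpace.norm_sq_eq]
    refine Finset.sum_congr rfl fun a _ => ?_
    rw [PiLp.sub_apply, repX_apply, hFa, hFa, ← Complex.ofReal_sub, Complex.norm_real,
      Real.norm_eq_abs, sq_abs]
  have hshift : ∀ (g : Alt n) (φ : X → ℝ), ∑ a, φ (g • a) = ∑ a, φ a := fun g φ =>
    Equiv.sum_comp (MulAction.toPerm g) φ
  have hterm : ∀ i, ∑ a, (f ((x i)⁻¹ • a) - f a) ^ 2 =
      2 * ∑ a, f a ^ 2 - ∑ a, f a * (f (x i • a) + f ((x i)⁻¹ • a)) := by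
    intro i
    have e1 : ∑ a, f ((x i)⁻¹ • a) ^ 2 = ∑ a, f a ^ 2 := hshift (x i)⁻¹ (fun a => f a ^ 2)
    have e2 : ∑ a, f a * f (x i • a) = ∑ a, f a * f ((x i)⁻¹ • a) := by
      have := hshift (x i)⁻¹ (fun a => f a * f (x i • a))
      rw [← this]
      refine Finset.sum_congr rfl fun a _ => ?_
      rw [smul_inv_smul, mul_comm]
    have e3 : ∑ a, f a * (f (x i • a) + f ((x i)⁻¹ • a)) =
        2 * ∑ a, f a * f ((x i)⁻¹ • a) := by
      rw [Finset.sum_congr rfl fun a _ => mul_add (f a) _ _, Finset.sum_add_distrib, e2]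
      ring
    rw [e3]
    have e4 : ∀ a, (f ((x i)⁻¹ • a) - f a) ^ 2 =
        f ((x i)⁻¹ • a) ^ 2 + f a ^ 2 - 2 * (f a * f ((x i)⁻¹ • a)) := fun a => by ring
    rw [Finset.sum_congr rfl fun a _ => e4 a, Finset.sum_sub_distrib, Finset.sum_add_distrib, e1,
      ← Finset.mul_sum]
    ring
  have hP : ∑ a, f a * schreier x f a =
      (∑ i, ∑ a, f a * (f (x i • a) + f ((x i)⁻¹ • a))) / (2 * k) := by
    unfold schreier
    rw [Finset.sum_comm, Finset.sum_div]
    refine Finset.sum_congr rfl fun a _ => ?_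
    rw [← Finset.mul_sum, mul_div_assoc]
  rw [hnorm, hEn, Finset.sum_congr rfl fun i _ => hterm i, Finset.sum_sub_distrib, Finset.sum_const,
    card_univ, Fintype.card_fin, nsmul_eq_mul] at hgap
  rw [hP, div_le_iff₀ (by positivity)]
  have e5 : (1 - c / (2 * (k : ℝ))) * (∑ a, f a ^ 2) * (2 * k) =
      k * (2 * ∑ a, f a ^ 2) - c * ∑ a, f a ^ 2 := by
    field_simp
  rw [e5]
  linarith

end

end Q102.AS
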