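import Pool.Agent.Q102.AS.Rep2

/-!
Schreier graphs with a gap have logarithmic diameter.
-/

set_option autoImplicit false

namespace Q102.AS
open RC14 Finset

section
variable {n k : ℕ} {X : Type} [Fintype X] [MulAction (Alt n) X]

open Classical in
/-- the points reached from `a` by words of length `≤ t` -/
noncomputable def bll (x : Fin k → Alt n) (a : X) (t : ℕ) : Finset X :=
  univ.filter fun b => ∃ w : List (Alt n), w.length ≤ t ∧ (∀ y ∈ w, ∃ i, y = x i ∨ y = (x i)⁻¹) ∧
    w.prod • a = b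

lemma mem_bll (x : Fin k → Alt n) (a : X) (t : ℕ) (b : X) : b ∈ bll x a t ↔
    ∃ w : List (Alt n), w.length ≤ t ∧ (∀ y ∈ w, ∃ i, y = x i ∨ y = (x i)⁻¹) ∧
      w.prod • a = b := by
  classical
  unfold bll
  rw [mem_filter]
  exact ⟨fun h => h.2, fun h => ⟨mem_univ _, h⟩⟩

lemma bll_step (x : Fin k → Alt n) (a : X) (t : ℕ) (b : X) (hb : b ∈ bll x a t) (y : Alt n)
    (hy : ∃ i, y = x i ∨ y = (x i)⁻¹) : y • b ∈ bll x a (t + 1) := by
  rw [mem_bll] at hb ⊢
  obtain ⟨w, h1, h2, h3⟩ := hb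
  refine ⟨y :: w, ?_, ?_, ?_⟩
  · rw [List.length_cons]; omega
  · intro z hz
    rcases List.mem_cons.mp hz with rfl | h
    · exact hy
    · exact h2 z h
  · rw [List.prod_cons, mul_smul, h3]

lemma bll_mono (x : Fin k → Alt n) (a : X) (t : ℕ) : bll x a t ⊆ bll x a (t + 1) := by
  intro b hb
  rw [mem_bll] at hb ⊢
  obtain ⟨w, h1, h2, h3⟩ := hb
  exact ⟨w, by omega, h2, h3⟩

lemma bll_grow (hk : 1 ≤ k) (x : Fin k → Alt n) (ε : ℝ) (hε : 0 < ε)
    (hgap : ∀ f : X → ℝ, ∑ a, f a = 0 → ∑ a, f a * schreier x f a ≤ (1 - ε) * ∑ a, f a ^ 2)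
    (a : X) (t : ℕ) (ht : 2 * #(bll x a t) ≤ Fintype.card X) :
    (1 + ε / 2) * (#(bll x a t) : ℝ) ≤ #(bll x a (t + 1)) := by
  classical
  have hk0 : (0 : ℝ) < k := by exact_mod_cast hk
  have hX : (0 : ℝ) < Fintype.card X := by
    have : 0 < Fintype.card X := Fintype.card_pos_iff.mpr ⟨a⟩
    exact_mod_cast this
  obtain ⟨S, hS⟩ : ∃ S, S = bll x a t := ⟨_, rfl⟩
  obtain ⟨T, hT⟩ : ∃ T, T = bll x a (t + 1) := ⟨_, rfl⟩
  have hST : S ⊆ T := by rw [hS, hT]; exact bll_mono x a t
  rw [← hS, ← hT]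
  rw [← hS] at ht
  obtain ⟨s, hs⟩ : ∃ s : ℝ, s = #S / Fintype.card X := ⟨_, rfl⟩
  have hsX : s * Fintype.card X = #S := by rw [hs]; field_simp
  obtain ⟨χ, hχ⟩ : ∃ χ : X → ℝ, χ = fun b => if b ∈ S then 1 else 0 := ⟨_, rfl⟩
  have hχ1 : ∀ b ∈ S, χ b = 1 := fun b hb => by rw [hχ]; simp [hb]
  have hχ0 : ∀ b ∉ S, χ b = 0 := fun b hb => by rw [hχ]; simp [hb]
  have hsum : ∑ b, χ b = #S := by rw [hχ]; simp
  have hsq : ∀ b, χ b ^ 2 = χ b := fun b => by
    by_cases hb : b ∈ S
    · rw [hχ1 b hb]; norm_num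
    · rw [hχ0 b hb]; norm_num
  have hshift : ∀ (g : Alt n) (φ : X → ℝ), ∑ a, φ (g • a) = ∑ a, φ a := fun g φ =>
    Equiv.sum_comp (MulAction.toPerm g) φ
  -- the correlation with a letter
  have hcor : ∀ y : Alt n, (∃ i, y = x i ∨ y = (x i)⁻¹) →
      (#S : ℝ) - (#T - #S) ≤ ∑ b, χ b * χ (y • b) := by
    intro y hy
    have h1 : ∑ b, χ b * χ (y • b) = #(S.filter fun b => y • b ∈ S) := by
      rw [card_filter, Nat.cast_sum, ← sum_subset (subset_univ S)]
      · refine sum_congr rfl fun b hb => ?_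
        rw [hχ1 b hb, one_mul]
        by_cases h : y • b ∈ S
        · rw [hχ1 _ h]; simp [h]
        · rw [hχ0 _ h]; simp [h]
      · intro b _ hb
        rw [hχ0 b hb, zero_mul]
    have h2 : #(S.filter fun b => ¬ y • b ∈ S) ≤ #(T \ S) := by
      refine card_le_card_of_injOn (fun b => y • b) ?_ ?_
      · intro b hb
        rw [mem_coe, mem_filter] at hb
        rw [mem_coe, mem_sdiff]
        refine ⟨?_, hb.2⟩
        rw [hT]
        exact bll_step x a t b (hS ▸ hb.1) y hy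
      · intro b _ c _ h
        exact smul_left_cancel y h
    have h3 := card_filter_add_card_filter_not (s := S) (fun b => y • b ∈ S)
    have h4 := card_sdiff_add_card_eq_card hST
    rw [h1]
    have h5 : (#(S.filter fun b => y • b ∈ S) : ℝ) + #(S.filter fun b => ¬ y • b ∈ S) = #S := by
      exact_mod_cast h3
    have h6 : (#(T \ S) : ℝ) + #S = #T := by exact_mod_cast h4
    have h7 : (#(S.filter fun b => ¬ y • b ∈ S) : ℝ) ≤ #(T \ S) := by exact_mod_cast h2
    linarith
  have hcor2 : ∀ y : Alt n, (∃ i, y = x i ∨ y = (x i)⁻¹) →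
      (#S : ℝ) - (#T - #S) - s * #S ≤ ∑ b, (χ b - s) * (χ (y • b) - s) := by
    intro y hy
    have h1 := hcor y hy
    have h2 : ∑ b, (χ b - s) * (χ (y • b) - s) = ∑ b, χ b * χ (y • b) - s * #S := by
      have e : ∀ b, (χ b - s) * (χ (y • b) - s) =
          χ b * χ (y • b) - s * χ b - s * χ (y • b) + s ^ 2 := fun b => by ring
      rw [sum_congr rfl fun b _ => e b, sum_add_distrib, sum_sub_distrib, sum_sub_distrib,
        ← mul_sum, ← mul_sum, hshift y χ, hsum, sum_const, card_univ, nsmul_eq_mul, ← hsX]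
      ring
    rw [h2]
    linarith
  have hg := hgap (fun b => χ b - s) (by
    rw [sum_sub_distrib, hsum, sum_const, card_univ, nsmul_eq_mul, ← hsX]; ring)
  have h1 : ∑ b, (χ b - s) ^ 2 = #S - s * #S := by
    have e : ∀ b, (χ b - s) ^ 2 = χ b - 2 * s * χ b + s ^ 2 := fun b => by
      rw [sub_sq, hsq]; ring
    rw [sum_congr rfl fun b _ => e b, sum_add_distrib, sum_sub_distrib, ← mul_sum, hsum, sum_const,
      card_univ, nsmul_eq_mul, ← hsX]
    ring
  have h2 : (#S : ℝ) - (#T - #S) - s * #S ≤ ∑ b, (χ b - s) * schreier x (fun b => χ b - s) b := by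
    have h3 : ∑ b, (χ b - s) * schreier x (fun b => χ b - s) b =
        (∑ i, (∑ b, (χ b - s) * (χ (x i • b) - s) +
          ∑ b, (χ b - s) * (χ ((x i)⁻¹ • b) - s))) / (2 * k) := by
      unfold schreier
      simp only [← sum_add_distrib]
      rw [sum_comm, sum_div]
      refine sum_congr rfl fun b _ => ?_
      rw [← mul_div_assoc, mul_sum]
      congr 1
      refine sum_congr rfl fun i _ => ?_
      ring
    rw [h3, le_div_iff₀ (by positivity)]
    have h4 : ∑ _i : Fin k, 2 * ((#S : ℝ) - (#T - #S) - s * #S) ≤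
        ∑ i, (∑ b, (χ b - s) * (χ (x i • b) - s) +
          ∑ b, (χ b - s) * (χ ((x i)⁻¹ • b) - s)) := by
      refine sum_le_sum fun i _ => ?_
      have a1 := hcor2 (x i) ⟨i, Or.inl rfl⟩
      have a2 := hcor2 (x i)⁻¹ ⟨i, Or.inr rfl⟩
      linarith
    rw [sum_const, card_univ, Fintype.card_fin, nsmul_eq_mul] at h4
    linarith
  rw [h1] at hg
  have hs2 : s ≤ 1 / 2 := by
    rw [hs, div_le_iff₀ hX]
    have : (2 * #S : ℝ) ≤ Fintype.card X := by exact_mod_cast ht
    linarith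
  have hS0 : (0 : ℝ) ≤ #S := Nat.cast_nonneg _
  have h5 : ε * (#S - s * #S) ≤ #T - #S := by linarith
  have h6 : ε * (1 / 2 * #S) ≤ ε * (#S - s * #S) := by
    refine mul_le_mul_of_nonneg_left ?_ hε.le
    nlinarith
  linarith

theorem diam_of_gap (hk : 1 ≤ k) (x : Fin k → Alt n) (ε : ℝ) (hε : 0 < ε) (hε1 : ε ≤ 1)
    (hgap : ∀ f : X → ℝ, ∑ a, f a = 0 → ∑ a, f a * schreier x f a ≤ (1 - ε) * ∑ a, f a ^ 2)
    (a b : X) : ∃ w : List (Alt n), (w.length : ℝ) ≤ 12 / ε * Real.log (Fintype.card X) ∧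
      (∀ y ∈ w, ∃ i, y = x i ∨ y = (x i)⁻¹) ∧ w.prod • a = b := by
  classical
  rcases Nat.lt_or_ge 1 (Fintype.card X) with hX | hX
  swap
  · have hab : a = b := by
      have := Fintype.card_le_one_iff_subsingleton.mp hX
      exact Subsingleton.elim a b
    refine ⟨[], ?_, ?_, ?_⟩
    · have : 0 ≤ Real.log (Fintype.card X) := Real.log_natCast_nonneg _
      rw [List.length_nil, Nat.cast_zero]
      positivity
    · intro y hy
      exact absurd hy (by simp)
    · rw [List.prod_nil, one_smul, hab]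
  obtain ⟨N, hN⟩ : ∃ N : ℝ, N = Fintype.card X := ⟨_, rfl⟩
  have hN2 : (2 : ℝ) ≤ N := by rw [hN]; exact_mod_cast hX
  have hgrow : ∀ (c : X) (t : ℕ), (1 + ε / 2) ^ t ≤ (#(bll x c t) : ℝ) ∨
      N < 2 * (#(bll x c t) : ℝ) := by
    intro c t
    induction t with
    | zero =>
      left
      rw [pow_zero]
      have : c ∈ bll x c 0 := by
        rw [mem_bll]
        exact ⟨[], by simp, by simp, by simp⟩
      have h1 : 1 ≤ #(bll x c 0) := card_pos.mpr ⟨c, this⟩
      exact_mod_cast h1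
    | succ t ih =>
      have hmono : (#(bll x c t) : ℝ) ≤ #(bll x c (t + 1)) := by
        exact_mod_cast card_le_card (bll_mono x c t)
      rcases ih with ih | ih
      · by_cases h : 2 * #(bll x c t) ≤ Fintype.card X
        · left
          refine le_trans ?_ (bll_grow hk x ε hε hgap c t h)
          rw [pow_succ, mul_comm]
          exact mul_le_mul_of_nonneg_left ih (by positivity)
        · right
          have h1 : (Fintype.card X : ℝ) < 2 * (#(bll x c t) : ℝ) := by
            exact_mod_cast not_le.mp h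
          rw [hN]
          linarith
      · right; linarith
  obtain ⟨t, ht⟩ : ∃ t : ℕ, t = ⌈4 * Real.log N / ε⌉₊ := ⟨_, rfl⟩
  have hlogN : 0 ≤ Real.log N := Real.log_nonneg (by linarith)
  have hlog2 : 1 / 2 ≤ Real.log N := by
    have h1 := Real.log_two_gt_d9
    have h2 : Real.log 2 ≤ Real.log N := Real.log_le_log (by norm_num) hN2
    linarith
  have hbig : ∀ c : X, N < 2 * (#(bll x c t) : ℝ) := by
    intro c
    rcases hgrow c t with h | h
    · have h1 : 4 * Real.log N / ε ≤ t := by rw [ht]; exact Nat.le_ceil _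
      rw [div_le_iff₀ hε] at h1
      have h2 : ε / 4 ≤ Real.log (1 + ε / 2) := by
        have h3 := Real.one_sub_inv_le_log_of_pos (x := 1 + ε / 2) (by positivity)
        have h4 : ε / 4 ≤ 1 - (1 + ε / 2)⁻¹ := by
          have h5 : 1 - (1 + ε / 2)⁻¹ = (ε / 2) / (1 + ε / 2) := by field_simp; ring
          rw [h5, le_div_iff₀ (by positivity)]
          nlinarith
        linarith
      have h3 : N ≤ (1 + ε / 2) ^ t := by
        rw [← Real.log_le_log_iff (by linarith) (by positivity), Real.log_pow]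
        nlinarith [Nat.cast_nonneg (α := ℝ) t]
      linarith
    · exact h
  have hcap : (bll x a t ∩ bll x b t).Nonempty := by
    by_contra hne
    rw [not_nonempty_iff_eq_empty] at hne
    have h1 := card_union_of_disjoint (disjoint_iff_inter_eq_empty.mpr hne)
    have h2 : #(bll x a t ∪ bll x b t) ≤ Fintype.card X := card_le_univ _
    rw [h1] at h2
    have h3 : (#(bll x a t) : ℝ) + #(bll x b t) ≤ N := by rw [hN]; exact_mod_cast h2
    have h4 := hbig a
    have h5 := hbig b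
    linarith
  obtain ⟨c, hc⟩ := hcap
  rw [mem_inter, mem_bll, mem_bll] at hc
  obtain ⟨⟨w, hw1, hw2, hw3⟩, ⟨u, hu1, hu2, hu3⟩⟩ := hc
  refine ⟨(u.map fun y => y⁻¹).reverse ++ w, ?_, ?_, ?_⟩
  · rw [List.length_append, List.length_reverse, List.length_map]
    have h1 : (t : ℝ) ≤ 4 * Real.log N / ε + 1 := by
      rw [ht]; exact (Nat.ceil_lt_add_one (by positivity)).le
    have h2 : ((u.length + w.length : ℕ) : ℝ) ≤ 2 * t := by
      have : u.length + w.length ≤ 2 * t := by omega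
      exact_mod_cast this
    have h3 : 2 ≤ 4 * Real.log N / ε := by
      rw [le_div_iff₀ hε]
      nlinarith
    rw [← hN]
    have h4 : 12 / ε * Real.log N = 3 * (4 * Real.log N / ε) := by ring
    rw [h4]
    linarith
  · intro y hy
    rw [List.mem_append, List.mem_reverse, List.mem_map] at hy
    rcases hy with ⟨z, hz, rfl⟩ | hy
    · obtain ⟨i, hi | hi⟩ := hu2 z hz
      · exact ⟨i, Or.inr (by rw [hi])⟩
      · exact ⟨i, Or.inl (by rw [hi, inv_inv])⟩
    · exact hw2 y hy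
  · rw [List.prod_append, mul_smul, hw3, ← List.prod_inv_reverse, ← hu3, inv_smul_smul]

end

end Q102.AS
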