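import Pool.Agent.H754R2.RC.HIGHA
import Pool.Agent.H754R2.RC.HIGHE
import Pool.Agent.H506R2.RC.HIGHD
import Pool.Agent.H506R2.RC.NOINV
import Pool.Agent.H375R2.RC.DECOMP
import Pool.Agent.H14R2.RC.S.AMP1
import Pool.Agent.H14R2.RC.Util
import Pool.Agent.H20R2.RC.FR

/-!
The energy of the 3-cycles on the functions on `A_n` all of whose marginals of order `≤ m` vanish
is at least `m / (7 n)`.
-/

set_option autoImplicit false

namespace Q102.AS
open scoped InnerProductSpace
open RC14 Finset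

section
variable {V : Type*} [NormedAddCommGroup V] [InnerProductSpace ℂ V]

/-- without vectors invariant under the stabilisers of `m` points, 3-cycles move some vector -/
theorem some_vector (n m : ℕ) (hn : 1000 ≤ n) (ρ : Alt n →* (V ≃ₗᵢ[ℂ] V)) (hV : ∃ v : V, v ≠ 0)
    (hno : ∀ K : Finset (Fin n), K.card ≤ m → ∀ v : V,
      (∀ h : Alt n, (∀ a ∈ K, (h : Equiv.Perm (Fin n)) a = a) → ρ h v = v) → v = 0) :
    ∃ v : V, v ≠ 0 ∧ (m : ℝ) / (7 * n) * ‖v‖ ^ 2 * Fintype.card (Tup 3 n) ≤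
      ∑ s : Tup 3 n, ‖ρ (c3 s) v - v‖ ^ 2 := by
  classical
  let Good : Finset (Tup 3 n) → Prop := fun T =>
    (∀ s ∈ T, ∀ t ∈ T, s ≠ t → ∀ i j, s i ≠ t j) ∧
      ∃ v : V, v ≠ 0 ∧ ∀ s ∈ T, v + ρ (c3 s) v + ρ (c3 s) (ρ (c3 s) v) = 0
  obtain ⟨T, hT, hmax⟩ := Finset.exists_max_image (univ.filter Good) card
    ⟨∅, by
      rw [mem_filter]
      obtain ⟨v, hv⟩ := hV
      exact ⟨mem_univ _, by simp, v, hv, by simp⟩⟩
  rw [mem_filter] at hT
  obtain ⟨-, hTd, v, hv, hTv⟩ := hT
  refine ⟨v, hv, ?_⟩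
  have hcard : m < 3 * T.card := by
    by_contra hlt
    push Not at hlt
    refine hv (hno (T.biUnion fun s => univ.image s) ?_ v ?_)
    · have h1 : (T.biUnion fun s => univ.image s).card ≤ T.card * 3 := by
        refine card_biUnion_le_card_mul _ _ _ fun s _ => ?_
        refine card_image_le.trans ?_
        simp
      omega
    · refine HIGHA.fixed_of_c3 ρ _ v fun s hs => ?_
      have hsT : ∀ t ∈ T, ∀ i j, s i ≠ t j := by
        intro t ht i j hij
        refine hs i ?_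
        rw [mem_biUnion]
        exact ⟨t, ht, mem_image.2 ⟨j, mem_univ _, hij.symm⟩⟩
      by_contra hne
      have hw : ρ (c3 s) v - v ≠ 0 := sub_ne_zero.2 hne
      have hsn : s ∉ T := fun hsT' => hsT s hsT' 0 0 rfl
      have hgood : Good (insert s T) := by
        refine ⟨?_, ρ (c3 s) v - v, hw, ?_⟩
        · intro a ha b hb hab i j
          rw [mem_insert] at ha hb
          rcases ha with rfl | ha <;> rcases hb with rfl | hb
          · exact absurd rfl hab
          · exact hsT b hb i j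
          · exact (hsT a ha j i).symm
          · exact hTd a ha b hb hab i j
        · intro t ht
          rw [mem_insert] at ht
          rcases ht with rfl | ht
          · have h3 : ρ (c3 t) (ρ (c3 t) (ρ (c3 t) v)) = v := by
              have e1 : ρ ((c3 t) ^ 3) v = v := by
                rw [HIGHA.c3_three, map_one]; rfl
              rw [pow_succ, pow_succ, pow_one, map_mul, map_mul] at e1
              exact e1
            simp only [map_sub]
            rw [h3]
            abel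
          · have hc : c3 t * c3 s = c3 s * c3 t :=
              HIGHA.c3_comm t s fun i j => (hsT t ht j i).symm
            have e1 : ∀ u : V, ρ (c3 t) (ρ (c3 s) u) = ρ (c3 s) (ρ (c3 t) u) := by
              intro u
              have := congrArg (fun g => ρ g u) hc
              simp only [map_mul] at this
              exact this
            have e2 := hTv t ht
            have e3 := congrArg (ρ (c3 s)) e2
            rw [map_add, map_add, map_zero] at e3
            simp only [map_sub, e1]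
            rw [sub_add_sub_comm, sub_add_sub_comm, e2, e3, sub_zero]
      have h1 := hmax (insert s T) (mem_filter.2 ⟨mem_univ _, hgood⟩)
      rw [card_insert_of_notMem hsn] at h1
      omega
  refine le_trans ?_ (HIGHA.sum_lower ρ v T hTd hTv (by omega))
  have h1 : (Fintype.card (Tup 3 n) : ℝ) = n * (n - 1) * (n - 2) := by
    rw [Fintype.card_embedding_eq, Fintype.card_fin, Fintype.card_fin]
    simp only [Nat.descFactorial_succ, Nat.descFactorial_zero, mul_one, Nat.sub_zero]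
    rw [Nat.cast_mul, Nat.cast_mul, Nat.cast_sub (by omega), Nat.cast_sub (by omega)]
    push_cast
    ring
  rw [h1]
  have h2 : (m : ℝ) ≤ 3 * T.card := by exact_mod_cast hcard.le
  have h3 : (1000 : ℝ) ≤ n := by exact_mod_cast hn
  have hn0 : (0 : ℝ) < n := by linarith
  have h4 : (m : ℝ) / (7 * n) * (n * (n - 1) * (n - 2)) ≤
      (T.card : ℝ) * (((n : ℝ) - 3) * (n - 4)) / 2 := by
    have e1 : (m : ℝ) / (7 * n) * (n * (n - 1) * (n - 2)) = m / 7 * ((n - 1) * (n - 2)) := by
      field_simp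
    rw [e1]
    have h5 : (m : ℝ) / 7 * ((n - 1) * (n - 2)) ≤ 3 * T.card / 7 * (((n : ℝ) - 1) * (n - 2)) := by
      refine mul_le_mul_of_nonneg_right (by linarith) ?_
      exact mul_nonneg (by linarith) (by linarith)
    have h6 : (6 : ℝ) * ((n - 1) * (n - 2)) ≤ 7 * ((n - 3) * (n - 4)) := by nlinarith
    have h7 : (0 : ℝ) ≤ T.card := by positivity
    nlinarith
  have h5 : 0 ≤ ‖v‖ ^ 2 := by positivity
  calc (m : ℝ) / (7 * n) * ‖v‖ ^ 2 * (n * ((n : ℝ) - 1) * (n - 2))
      = ((m : ℝ) / (7 * n) * (n * (n - 1) * (n - 2))) * ‖v‖ ^ 2 := by ring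
    _ ≤ ((T.card : ℝ) * (((n : ℝ) - 3) * (n - 4)) / 2) * ‖v‖ ^ 2 :=
        mul_le_mul_of_nonneg_right h4 h5
    _ = _ := by ring

/-- the energy of the 3-cycles is the same for all unit vectors of an irreducible representation -/
theorem energy_scalar [FiniteDimensional ℂ V] (n : ℕ) (ρ : Alt n →* (V ≃ₗᵢ[ℂ] V)) (hirr : Irr ρ ⊤) :
    ∃ β : ℝ, ∀ v : V, ∑ s : Tup 3 n, ‖ρ (c3 s) v - v‖ ^ 2 = β * ‖v‖ ^ 2 := by
  have hB : ∀ g, op ρ g * (∑ s : Tup 3 n, P3 ρ (c3 s)) = (∑ s : Tup 3 n, P3 ρ (c3 s)) * op ρ g := by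
    intro g
    rw [Finset.mul_sum, Finset.sum_mul, ← Equiv.sum_comp (mvE (g : Equiv.Perm (Fin n)))
      (fun s : Tup 3 n => P3 ρ (c3 s) * op ρ g)]
    refine Finset.sum_congr rfl fun s _ => ?_
    rw [HIGHDaux.conj_P3]
    congr 2
    exact (HIGHE.c3_conj g s).symm
  have h1 := SCHUR ρ hirr _ hB
  set b : ℂ := LinearMap.trace ℂ V (∑ s : Tup 3 n, P3 ρ (c3 s)) / (Module.finrank ℂ V : ℂ)
  refine ⟨3 * (Fintype.card (Tup 3 n) - b.re), fun v => ?_⟩
  have h2 : (⟪v, (∑ s : Tup 3 n, P3 ρ (c3 s)) v⟫_ℂ).re =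
      ∑ s : Tup 3 n, (‖v‖ ^ 2 - ‖ρ (c3 s) v - v‖ ^ 2 / 3) := by
    rw [LinearMap.sum_apply, inner_sum, Complex.re_sum]
    refine Finset.sum_congr rfl fun s _ => ?_
    exact HIGHDaux.inner_P3 ρ _ (HIGHA.c3_three s) v
  have h3 : (⟪v, (∑ s : Tup 3 n, P3 ρ (c3 s)) v⟫_ℂ).re = b.re * ‖v‖ ^ 2 := by
    rw [h1]
    simp only [LinearMap.smul_apply, Module.End.one_apply]
    rw [inner_smul_right, inner_self_eq_norm_sq_to_K]
    have : (b * ((‖v‖ : ℂ)) ^ 2) = b * ((‖v‖ ^ 2 : ℝ) : ℂ) := by push_cast; ring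
    erw [this]
    rw [Complex.re_mul_ofReal]
  rw [h3, Finset.sum_sub_distrib, Finset.sum_const, Finset.card_univ, nsmul_eq_mul,
    ← Finset.sum_div] at h2
  linarith

end

/-- the energy of the 3-cycles on `HH m n` -/
theorem energy_HH (n m : ℕ) (hn : 1000 ≤ n) (v : FA n) (hv : v ∈ HH m n) :
    (m : ℝ) / (7 * n) * Fintype.card (Tup 3 n) * ‖v‖ ^ 2 ≤
      ∑ s : Tup 3 n, ‖RR n (c3 s) v - v‖ ^ 2 := by
  classical
  obtain ⟨N, W, -, hW, hdec⟩ := DECOMP (RR n) (HH m n) (HH_inv m n)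
  let e : Fin (Fintype.card (Tup 3 n)) ≃ Tup 3 n := (Fintype.equivFin _).symm
  have key := hdec _ (fun t => c3 (e t)) (fun _ => 1)
    ((m : ℝ) / (7 * n) * Fintype.card (Tup 3 n)) (fun _ => zero_le_one) (by
      intro i u hu
      obtain ⟨hirr, hle⟩ := hW i
      have hr := AMP1.irr_res (RR n) (W i) hirr
      have hex : ∃ w : W i, w ≠ 0 := by
        obtain ⟨w, hw, hw0⟩ := (Submodule.ne_bot_iff _).1 hirr.1
        exact ⟨⟨w, hw⟩, fun h => hw0 (congrArg Subtype.val h)⟩
      obtain ⟨w, hw0, hw⟩ := some_vector n m hn (res (RR n) (W i) hirr.2.1) hex (by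
        intro K hK w hw
        have h1 := NOINV n m (w : FA n) (hle w.2) K hK (by
          intro s hs
          have := congrArg Subtype.val (hw s hs)
          simpa using this)
        exact_mod_cast h1)
      obtain ⟨β, hβ⟩ := energy_scalar n (res (RR n) (W i) hirr.2.1) hr
      have hw2 : 0 < ‖w‖ ^ 2 := by positivity
      rw [hβ w] at hw
      have h2 : (m : ℝ) / (7 * n) * Fintype.card (Tup 3 n) ≤ β := by
        refine le_of_mul_le_mul_right ?_ hw2
        refine le_trans (le_of_eq ?_) hw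
        ring
      have h3 := hβ ⟨u, hu⟩
      have h4 : ∑ t, (1 : ℝ) * ‖RR n (c3 (e t)) u - u‖ ^ 2 = β * ‖u‖ ^ 2 := by
        have h5 : ‖(⟨u, hu⟩ : W i)‖ = ‖u‖ := rfl
        rw [h5] at h3
        rw [← h3, ← e.sum_comp]
        refine Finset.sum_congr rfl fun t _ => ?_
        rw [one_mul]
        rfl
      rw [h4]
      exact mul_le_mul_of_nonneg_right h2 (by positivity)) v hv
  refine key.trans (le_of_eq ?_)
  rw [← e.sum_comp]
  refine Finset.sum_congr rfl fun t _ => ?_
  rw [one_mul]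

end Q102.AS
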